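import Pool.Agent.NPC.Classes

/-!
# Definitions for the sparse set problem: census, threshold reductions
-/

namespace Pool.Agent.H579R2.Spt

open Pool.Agent.NPC

/-- The number of strings of length at most `n` in `S`. -/
noncomputable def census (S : Set (List Bool)) (n : ℕ) : ℕ := {y ∈ S | y.length ≤ n}.ncard

/-- The weighted number of true conjunctions: an entry `(a, Q)` of the list `m` has weight `a` and
is true if all strings of `Q` belong to `S`. -/
noncomputable def value (S : Set (List Bool)) (m : List (ℤ × List (List Bool))) : ℤ := by
  classical
  exact (m.map (fun t => if ∀ y ∈ t.2, y ∈ S then t.1 else 0)).sum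

/-- The total absolute weight of a list of weighted conjunctions. -/
def weight (m : List (ℤ × List (List Bool))) : ℕ := (m.map (fun t => t.1.natAbs)).sum

/-- `A` reduces to `S` by a polynomial-time threshold reduction of total weight `d` and width `c`:
a polynomial-time computable function maps each string `x` to a list of integer-weighted
conjunctions of queries to `S`, each conjunction having at most `c |x|` queries, the total absolute
weight being at most `d |x|`, such that `x ∈ A` iff the weighted number of the conjunctions that
are true is positive.

(Width `1` contains disjunctive, majority and all linear threshold reductions; the empty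
conjunction is always true, and plays the role of the threshold constant.) -/
def ThresholdReduces (A S : Set (List Bool)) (d c : ℕ → ℕ) : Prop :=
  ∃ r : List Bool → List (ℤ × List (List Bool)), PolyTime (fun x => bits (r x)) ∧
    ∀ x, (∀ t ∈ r x, t.2.length ≤ c x.length) ∧ weight (r x) ≤ d x.length ∧
      (x ∈ A ↔ 0 < value S (r x))

/-- The quantity `(d n + 1) * (census S (n ^ k) + 1) ^ c n` is subpolynomial: it is eventually at
most `n ^ (1 / k)`, for every `k`. -/
def Subpolynomial (S : Set (List Bool)) (d c : ℕ → ℕ) : Prop :=
  ∀ k : ℕ, ∃ n₀ : ℕ, ∀ n ≥ n₀, ((d n + 1) * (census S (n ^ k) + 1) ^ c n) ^ k ≤ n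

/-- `S` is sparse: its census is polynomially bounded. -/
def Sparse (S : Set (List Bool)) : Prop := ∃ p : Polynomial ℕ, ∀ n, census S n ≤ p.eval n

/-- The class `RP`: languages with a polynomial-time test that accepts at least half of the bit
strings `r` of length `ℓ |x|` if `x ∈ L`, and none of them if `x ∉ L`. -/
def InRP (L : Set (List Bool)) : Prop :=
  ∃ (V : List Bool → List Bool) (ℓ : Polynomial ℕ), PolyTime V ∧ ∀ x,
    (x ∈ L → 2 ^ ℓ.eval x.length ≤
      2 * {r : List Bool | r.length = ℓ.eval x.length ∧ V (pairBits x r) = [true]}.ncard) ∧
    (x ∉ L → ∀ r : List Bool, r.length = ℓ.eval x.length → V (pairBits x r) ≠ [true])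

end Pool.Agent.H579R2.Spt
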