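import Pool.Agent.H579R2.Spt.SPoly
import Pool.Agent.H579R2.Spt.Defs

/-!
# Subpolynomial threshold-hard sets for NP
-/

namespace Pool.Agent.H579R2.Spt

open Pool.Agent.NPC Finset

/-! ### Elementary facts -/

theorem prefix_iff (u w : List Bool) :
    u <+: w ↔ u.length ≤ w.length ∧ ∀ p ∈ u.zip w, p.1 = p.2 := by
  induction u generalizing w with
  | nil => simp
  | cons a u ih =>
    cases w with
    | nil => simp
    | cons b w =>
      rw [List.cons_prefix_cons, ih]
      simp only [List.length_cons, Nat.add_le_add_iff_right, List.zip_cons_cons, List.mem_cons,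
        forall_eq_or_imp]
      tauto

/-- test whether a string is a prefix of another one -/
def isPre (u w : List Bool) : Bool :=
  decide (u.length ≤ w.length) && (u.zip w).all (fun p => decide (p.1 = p.2))

theorem isPre_iff (u w : List Bool) : isPre u w = true ↔ u <+: w := by
  rw [prefix_iff]
  simp [isPre]

theorem isPre_poly : Poly (fun p : List Bool × List Bool => isPre p.1 p.2) := by
  unfold isPre
  fun_prop

theorem exists_pow_bound (p : Polynomial ℕ) : ∃ e : ℕ, ∀ b : ℕ, 2 ≤ b → p.eval b ≤ b ^ e := by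
  induction p using Polynomial.induction_on' with
  | add p q hp hq =>
    obtain ⟨e1, h1⟩ := hp
    obtain ⟨e2, h2⟩ := hq
    refine ⟨max e1 e2 + 1, fun b hb => ?_⟩
    rw [Polynomial.eval_add, pow_succ]
    have h3 : b ^ e1 ≤ b ^ max e1 e2 := Nat.pow_le_pow_right (by omega) (le_max_left _ _)
    have h4 : b ^ e2 ≤ b ^ max e1 e2 := Nat.pow_le_pow_right (by omega) (le_max_right _ _)
    have h5 := h1 b hb
    have h6 := h2 b hb
    nlinarith
  | monomial n a =>
    refine ⟨a + n, fun b hb => ?_⟩
    rw [Polynomial.eval_monomial, pow_add]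
    refine Nat.mul_le_mul_right _ ?_
    calc a ≤ 2 ^ a := Nat.lt_two_pow_self.le
      _ ≤ b ^ a := Nat.pow_le_pow_left hb a

theorem finite_strings (S : Set (List Bool)) (n : ℕ) : {y ∈ S | y.length ≤ n}.Finite := by
  refine (List.finite_length_le Bool n).subset ?_
  intro y hy
  exact hy.2

theorem census_mono (S : Set (List Bool)) {m n : ℕ} (h : m ≤ n) : census S m ≤ census S n :=
  Set.ncard_le_ncard (fun _ hy => ⟨hy.1, hy.2.trans h⟩) (finite_strings S n)

/-- The number of true conjunctions of at most `c` strings of length at most `N`. -/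
theorem card_true_le (S : Set (List Bool)) (c N : ℕ) (Ω : Finset (List (List Bool)))
    (h1 : ∀ Q ∈ Ω, Q.length ≤ c) (h2 : ∀ Q ∈ Ω, ∀ y ∈ Q, y ∈ S ∧ y.length ≤ N) :
    Ω.card ≤ (census S N + 1) ^ c := by
  classical
  set A : Finset (List Bool) := (finite_strings S N).toFinset with hA
  have hAc : A.card = census S N := by
    rw [census, Set.ncard_eq_toFinset_card _ (finite_strings S N)]
  have h3 : (Fintype.piFinset (fun _ : Fin c => Finset.insertNone A)).card =
      (census S N + 1) ^ c := by
    rw [Fintype.card_piFinset]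
    simp [hAc]
  rw [← h3]
  refine Finset.card_le_card_of_injOn (fun Q => fun i : Fin c => Q[(i : ℕ)]?) ?_ ?_
  · intro Q hQ
    rw [Finset.mem_coe, Fintype.mem_piFinset]
    intro i
    rw [Finset.mem_insertNone]
    intro y hy
    have hy' : Q[(i : ℕ)]? = some y := hy
    have h4 := h2 Q hQ y (List.mem_of_getElem? hy')
    rw [hA, Set.Finite.mem_toFinset]
    exact h4
  · intro Q hQ Q' hQ' h
    refine List.ext_getElem? fun i => ?_
    by_cases hi : i < c
    · exact congrFun h ⟨i, hi⟩
    · have e1 := h1 Q hQ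
      have e2 := h1 Q' hQ'
      rw [List.getElem?_eq_none (by omega), List.getElem?_eq_none (by omega)]

/-! ### The feature map of a reduction -/

/-- double the weights and subtract one: positive values become at least `1`, others at most
`-1` -/
def aug (m : List (ℤ × List (List Bool))) : List (ℤ × List (List Bool)) :=
  (-1, []) :: m.map (fun t => (2 * t.1, t.2))

theorem ev_aug (S : Set (List Bool)) (z : List (List Bool) → ℤ)
    (hz : ∀ Q, (∀ y ∈ Q, y ∈ S) → z Q = 1) (hz' : ∀ Q, (¬ ∀ y ∈ Q, y ∈ S) → z Q = 0)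
    (m : List (ℤ × List (List Bool))) : ev z (aug m) = 2 * value S m - 1 := by
  have h1 : ev z (m.map (fun t => (2 * t.1, t.2))) = 2 * value S m := by
    unfold value
    induction m with
    | nil => simp [ev]
    | cons a m ih =>
      simp only [ev, List.map_cons, List.sum_cons] at ih ⊢
      rw [ih]
      by_cases h : ∀ y ∈ a.2, y ∈ S
      · rw [hz _ h, if_pos h]; ring
      · rw [hz' _ h, if_neg h]; ring
  have h2 : ev z (aug m) = -1 * z [] + ev z (m.map (fun t => (2 * t.1, t.2))) := by
    simp [ev, aug]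
  rw [h2, h1, hz [] (by simp)]
  ring

theorem wt_aug (m : List (ℤ × List (List Bool))) : wt (aug m) = 2 * weight m + 1 := by
  have h1 : wt (m.map (fun t => (2 * t.1, t.2))) = 2 * weight m := by
    induction m with
    | nil => simp [wt, weight]
    | cons a m ih =>
      simp only [wt, weight, List.map_cons, List.sum_cons] at ih ⊢
      rw [ih, Int.natAbs_mul]
      simp; ring
  have h2 : wt (aug m) = 1 + wt (m.map (fun t => (2 * t.1, t.2))) := by simp [wt, aug]
  rw [h2, h1]; ring

theorem aug_poly : Poly aug := by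
  have h1 : Poly (fun m : List (ℤ × List (List Bool)) => m.map (fun t => (2 * t.1, t.2))) :=
    NPC.Poly.map (l := fun m : List (ℤ × List (List Bool)) => m)
      (F := fun _ (t : ℤ × List (List Bool)) => (2 * t.1, t.2)) NPC.Poly.id
      (NPC.Poly.pair (NPC.Poly.imul (NPC.Poly.const 2) (NPC.Poly.fst (NPC.Poly.snd NPC.Poly.id)))
        (NPC.Poly.snd (NPC.Poly.snd NPC.Poly.id)))
  exact NPC.Poly.cons (NPC.Poly.const (-1, [])) h1

theorem bits_poly {α : Type} [TEnc α] : Poly (fun a : α => bits a) := by
  have h1 : PC (bits : α → List Bool) (fun x : List Bool => x) (fun a : α => bits a) :=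
    PC.id (ea := (bits : α → List Bool))
  exact PC.comp (g := fun x => x) (f := fun a : α => bits a) PC.rawIn h1

theorem poly_of_polyTime_bits {r : List Bool → List (ℤ × List (List Bool))}
    (h : PolyTime (fun x => bits (r x))) : Poly r := by
  have h1 : Poly (fun x => bits (r x)) := PIso.poly_iff.2 h
  have h2 : Poly (fun x => unbits (List (ℤ × List (List Bool))) (bits (r x))) :=
    poly_unbits.comp h1
  exact (NPC.Poly.optGetD h2 (NPC.Poly.const [])).congr fun x => by
    simp only [unbits_bits, Option.getD_some]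

/-! ### The NP problem attached to a verifier -/

/-- The verifier with the length bound built in. -/
def ver (V0 : List Bool → List Bool) (p : Polynomial ℕ) (x w : List Bool) : Bool :=
  decide (w.length ≤ p.eval x.length) && decide (V0 (pairBits x w) = [true])

theorem ver_iff {V0 : List Bool → List Bool} {p : Polynomial ℕ} {x w : List Bool} :
    ver V0 p x w = true ↔ w.length ≤ p.eval x.length ∧ V0 (pairBits x w) = [true] := by
  simp [ver]

theorem ver_poly {V0 : List Bool → List Bool} (hV0 : PolyTime V0) (p : Polynomial ℕ) :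
    Poly (fun q : List Bool × List Bool => ver V0 p q.1 q.2) := by
  have h0 : Poly V0 := PIso.poly_iff.2 hV0
  have h1 : Poly (fun q : List Bool × List Bool => pairBits q.1 q.2) := by
    unfold pairBits
    fun_prop
  have h2 : Poly (fun q : List Bool × List Bool => p.eval q.1.length) :=
    ((UPoly.length (NPC.Poly.fst NPC.Poly.id)).eval p).toPoly
  have h3 : Poly (fun q : List Bool × List Bool => q.2.length) :=
    NPC.Poly.length (NPC.Poly.snd NPC.Poly.id)
  exact NPC.Poly.and (NPC.Poly.decide_le h3 h2)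
    (NPC.Poly.decide_eq (h0.comp h1) (NPC.Poly.const [true]))

/-- Some node of the list has a certificate below it. -/
def Below (V : List Bool → List Bool → Bool) (a : List Bool × List (List Bool)) : Prop :=
  ∃ u ∈ a.2, ∃ w, u <+: w ∧ V a.1 w = true

theorem below_inNP {V0 : List Bool → List Bool} (hV0 : PolyTime V0) (p : Polynomial ℕ) :
    InNPP (Below (ver V0 p)) := by
  have h1 : Poly (fun q : (List Bool × List (List Bool)) × List Bool =>
      q.1.2.any (fun u => isPre u q.2) && ver V0 p q.1.1 q.2) := by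
    refine NPC.Poly.and (NPC.Poly.any
      (l := fun q : (List Bool × List (List Bool)) × List Bool => q.1.2)
      (p := fun q u => isPre u q.2) (NPC.Poly.snd (NPC.Poly.fst NPC.Poly.id)) ?_) ?_
    · exact isPre_poly.comp (NPC.Poly.pair (NPC.Poly.snd NPC.Poly.id)
        (NPC.Poly.snd (NPC.Poly.fst NPC.Poly.id)))
    · exact (ver_poly hV0 p).comp (NPC.Poly.pair (NPC.Poly.fst (NPC.Poly.fst NPC.Poly.id))
        (NPC.Poly.snd NPC.Poly.id))
  refine inNPP_of (R := fun q => q.1.2.any (fun u => isPre u q.2) && ver V0 p q.1.1 q.2) h1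
    (Polynomial.C 4 * p + 1) ?_
  rintro ⟨x, U⟩
  constructor
  · rintro ⟨u, hu, w, huw, hw⟩
    refine ⟨w, ?_, ?_⟩
    · have h2 : w.length ≤ p.eval x.length := (ver_iff.1 hw).1
      have h3 := sz_listBool_le w
      have h4 : p.eval x.length ≤ p.eval (sz (x, U)) := by
        refine eval_mono p ?_
        have := length_lt_sz x
        rw [sz_pair]; omega
      simp only [Polynomial.eval_add, Polynomial.eval_mul, Polynomial.eval_C, Polynomial.eval_one]
      omega
    · simp only [Bool.and_eq_true, List.any_eq_true]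
      exact ⟨⟨u, hu, (isPre_iff _ _).2 huw⟩, hw⟩
  · rintro ⟨w, _, hw⟩
    simp only [Bool.and_eq_true, List.any_eq_true] at hw
    obtain ⟨⟨u, hu, huw⟩, hw⟩ := hw
    exact ⟨u, hu, w, (isPre_iff _ _).1 huw, hw⟩

/-! ### The main theorem -/

theorem main (A S : Set (List Bool)) (hA : NPHard A) (d c : ℕ → ℕ) (hd : Monotone d)
    (hc : Monotone c) (hred : ThresholdReduces A S d c) (hsub : Subpolynomial S d c) :
    ∀ L, InNP L → InP L := by
  classical
  intro L hL
  obtain ⟨V0, p, hV0, hLV⟩ := hL
  obtain ⟨f, hf, hfA⟩ := hA _ (below_inNP hV0 p)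
  obtain ⟨r, hr, hrS⟩ := hred
  set feat : List Bool × List (List Bool) → List (ℤ × List (List Bool)) :=
    fun a => aug (r (f (bits a))) with hfeat
  have hfp : Poly (fun a : List Bool × List (List Bool) => f (bits a)) :=
    (PIso.poly_iff.2 hf).comp bits_poly
  have hrp : Poly (fun a : List Bool × List (List Bool) => r (f (bits a))) :=
    (poly_of_polyTime_bits hr).comp hfp
  have hfeatp : Poly feat := aug_poly.comp hrp
  obtain ⟨p1, hp1⟩ := hfp.sz_le
  obtain ⟨p2, hp2⟩ := hrp.sz_le
  -- the polynomial bounding all lengths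
  set p3 : Polynomial ℕ := Polynomial.C 4 * Polynomial.X + 1 +
    (Polynomial.X * Polynomial.X + 1) * (Polynomial.C 4 * p + 6) + 2 with hp3
  obtain ⟨e, he⟩ := exists_pow_bound ((p1 + p2).comp p3)
  obtain ⟨n₀, hn₀⟩ := hsub (8 * (e + 1))
  set C0 : ℕ := max n₀ 16 with hC0
  set b : List Bool → ℕ := fun x => x.length + C0 with hb
  have hbU : UPoly b := (UPoly.length NPC.Poly.id).add (UPoly.const C0)
  set z : List (List Bool) → ℤ := fun Q => if ∀ y ∈ Q, y ∈ S then 1 else 0 with hz
  have hz1 : ∀ Q, (∀ y ∈ Q, y ∈ S) → z Q = 1 := fun Q hQ => if_pos hQ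
  have hz0 : ∀ Q, (¬ ∀ y ∈ Q, y ∈ S) → z Q = 0 := fun Q hQ => if_neg hQ
  have hsize : UPoly (fun x => Nat.size (b x * b x)) := by
    have h1 : Poly (fun x => (b x * b x).bits) := NPC.Poly.natBits (hbU.mul hbU).toPoly
    have h2 := UPoly.length h1
    have h3 : (fun x => Nat.size (b x * b x)) = fun x => (b x * b x).bits.length := by
      funext x
      exact (Nat.size_eq_bits_len _).symm
    rw [h3]
    exact h2
  have hT : UPoly (fun x => 2 ^ Nat.size (b x * b x)) := by
    refine UPoly.of_le (NPC.Poly.npow (NPC.Poly.const 2) hsize)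
      (((UPoly.const 2).mul (hbU.mul hbU)).add (UPoly.const 1)) fun x => ?_
    rcases Nat.eq_zero_or_pos (b x * b x) with h0 | h0
    · rw [h0]; simp
    · have h1 : 0 < Nat.size (b x * b x) := Nat.size_pos.2 h0
      have h2 : 2 ^ (Nat.size (b x * b x) - 1) ≤ b x * b x := by
        by_contra hcon
        have := Nat.size_le.2 (not_le.1 hcon)
        omega
      have h3 : 2 ^ Nat.size (b x * b x) = 2 * 2 ^ (Nat.size (b x * b x) - 1) := by
        rw [← pow_succ']
        congr 1
        omega
      omega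
  refine ⟨fun x => [search feat (ver V0 p) (2 ^ Nat.size (b x * b x)) (b x) (b x * b x)
    (p.eval x.length) x], ?_, fun x => ?_⟩
  · exact polyTime_of_poly (search_poly hfeatp (ver_poly hV0 p) hT hbU (hbU.mul hbU)
      ((UPoly.length NPC.Poly.id).eval p))
  -- correctness
  have hb16 : 16 ≤ b x := (le_max_right n₀ 16).trans (Nat.le_add_left _ _)
  have hbn : n₀ ≤ b x := (le_max_left n₀ 16).trans (Nat.le_add_left _ _)
  set N : ℕ := b x ^ (e + 1) with hN
  have hbN : b x ≤ N := by
    calc b x = b x ^ 1 := (pow_one _).symm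
      _ ≤ b x ^ (e + 1) := Nat.pow_le_pow_right (by omega) (by omega)
  set v : ℕ := (d N + 1) * (census S (N ^ (8 * (e + 1))) + 1) ^ c N with hv
  have hv8 : v ^ 8 ≤ b x := by
    have h1 := hn₀ N (hbn.trans hbN)
    rw [← hv, pow_mul, hN] at h1
    exact (Nat.pow_le_pow_iff_left (by omega)).1 h1
  have hv1 : 1 ≤ v := Nat.mul_pos (Nat.succ_pos _) (Nat.pow_pos (Nat.succ_pos _))
  have hdv : d N + 1 ≤ v := Nat.le_mul_of_pos_right _ (Nat.pow_pos (Nat.succ_pos _))
  have hcv : (census S N + 1) ^ c N ≤ v := by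
    have h1 : census S N ≤ census S (N ^ (8 * (e + 1))) := by
      refine census_mono S ?_
      calc N = N ^ 1 := (pow_one _).symm
        _ ≤ N ^ (8 * (e + 1)) := Nat.pow_le_pow_right (by omega) (by omega)
    calc (census S N + 1) ^ c N ≤ (census S (N ^ (8 * (e + 1))) + 1) ^ c N :=
          Nat.pow_le_pow_left (by omega) _
      _ ≤ v := Nat.le_mul_of_pos_left _ (Nat.succ_pos _)
  -- sizes of the instances
  have hsz : ∀ U : List (List Bool), U.length ≤ b x * b x + 1 →
      (∀ u ∈ U, u.length ≤ p.eval x.length + 1) → sz (x, U) ≤ p3.eval (b x) := by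
    intro U h1 h2
    have h3 := sz_listBool_le x
    have h4 := sz_le_length_mul U (4 * (p.eval x.length + 1) + 1) (fun u hu => by
      have := sz_listBool_le u
      have := h2 u hu
      omega)
    have h5 : p.eval x.length ≤ p.eval (b x) := eval_mono p (Nat.le_add_right _ _)
    have h6 : U.length * (4 * (p.eval x.length + 1) + 1 + 1) ≤
        (b x * b x + 1) * (4 * p.eval (b x) + 6) := Nat.mul_le_mul h1 (by omega)
    have h7 : x.length ≤ b x := Nat.le_add_right _ _
    rw [sz_pair, hp3]
    simp only [Polynomial.eval_add, Polynomial.eval_mul, Polynomial.eval_C, Polynomial.eval_one,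
      Polynomial.eval_X, Polynomial.eval_ofNat]
    omega
  have hN1 : ∀ U : List (List Bool), U.length ≤ b x * b x + 1 →
      (∀ u ∈ U, u.length ≤ p.eval x.length + 1) →
      (f (bits (x, U))).length ≤ N ∧ sz (r (f (bits (x, U)))) ≤ N := by
    intro U h1 h2
    have h3 := hsz U h1 h2
    have h4 := he (b x) (by omega)
    rw [Polynomial.eval_comp, Polynomial.eval_add] at h4
    have h5 : b x ^ e ≤ N := Nat.pow_le_pow_right (by omega) (by omega)
    have h6 := (hp1 (x, U)).trans (eval_mono p1 h3)
    have h7 := (hp2 (x, U)).trans (eval_mono p2 h3)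
    have h8 := length_lt_sz (f (bits (x, U)))
    constructor <;> omega
  -- the hypotheses of the search
  have hgood : Good feat x (fun u => ∃ w, u <+: w ∧ ver V0 p x w = true)
      (fun u => u.length ≤ p.eval x.length + 1) (b x * b x) z (4 * (v : ℤ) ^ 2) (v : ℤ) := by
    have hmem : ∀ U : List (List Bool), (∃ u ∈ U, ∃ w, u <+: w ∧ ver V0 p x w = true) ↔
        0 < value S (r (f (bits (x, U)))) := by
      intro U
      rw [← (hrS (f (bits (x, U)))).2.2, ← hfA, bits_mem_lang]
      rfl
    refine ⟨?_, ?_, by positivity, ?_, ?_⟩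
    · intro U _ _ h
      have h1 := (hmem U).1 h
      change 1 ≤ ev z (aug (r (f (bits (x, U)))))
      rw [ev_aug S z hz1 hz0]
      omega
    · intro U _ _ h
      have h1 : ¬ 0 < value S (r (f (bits (x, U)))) := fun h' => h ((hmem U).2 h')
      change ev z (aug (r (f (bits (x, U))))) ≤ -1
      rw [ev_aug S z hz1 hz0]
      omega
    · intro U h1 h2
      have h3 := hN1 U h1 h2
      have h4 := (hrS (f (bits (x, U)))).2.1
      have h5 : d (f (bits (x, U))).length ≤ d N := hd h3.1
      have h6 : wt (aug (r (f (bits (x, U))))) ≤ 2 * v := by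
        rw [wt_aug]; omega
      have h7 : ((wt (aug (r (f (bits (x, U))))) : ℕ) : ℤ) ≤ 2 * (v : ℤ) := by exact_mod_cast h6
      have h8 := dot_le (aug (r (f (bits (x, U))))) (aug (r (f (bits (x, U)))))
      have h9 : (0 : ℤ) ≤ (wt (aug (r (f (bits (x, U))))) : ℕ) := Int.natCast_nonneg _
      change dot (aug (r (f (bits (x, U))))) (aug (r (f (bits (x, U))))) ≤ 4 * (v : ℤ) ^ 2
      nlinarith
    · intro Ω hΩ
      have h1 : ∑ Q ∈ Ω, z Q * z Q = ((Ω.filter (fun Q => ∀ y ∈ Q, y ∈ S)).card : ℤ) := by
        rw [Finset.card_filter]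
        push_cast
        refine Finset.sum_congr rfl fun Q _ => ?_
        by_cases hQ : ∀ y ∈ Q, y ∈ S
        · rw [hz1 Q hQ, if_pos hQ]; norm_num
        · rw [hz0 Q hQ, if_neg hQ]; norm_num
      rw [h1]
      have h2 : (Ω.filter (fun Q => ∀ y ∈ Q, y ∈ S)).card ≤ (census S N + 1) ^ c N := by
        have key : ∀ Q ∈ Ω, Q.length ≤ c N ∧ ∀ y ∈ Q, y.length ≤ N := by
          intro Q hQ
          obtain ⟨U, hU1, hU2, a, ha, haQ⟩ := hΩ Q hQ
          have h3 := hN1 U hU1 hU2
          rcases List.mem_cons.1 (show a ∈ aug (r (f (bits (x, U)))) from ha) with h4 | h4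
          · rw [← haQ, h4]; simp
          · obtain ⟨t, ht, rfl⟩ := List.mem_map.1 h4
            subst haQ
            refine ⟨((hrS _).1 t ht).trans (hc h3.1), fun y hy => ?_⟩
            have e1 : sz t < sz (r (f (bits (x, U)))) := sz_le_of_mem ht
            have e2 : sz y < sz t.2 := sz_le_of_mem hy
            have e3 : sz t.2 < sz t := by
              have g1 : sz t = sz t.1 + sz t.2 + 1 := sz_pair t.1 t.2
              have g2 := sz_pos t.1
              omega
            have e4 : y.length < sz y := length_lt_sz y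
            have e5 : sz (r (f (bits (x, U)))) ≤ N := h3.2
            exact (e4.le.trans (e2.le.trans (e3.le.trans e1.le))).trans e5
        refine card_true_le S (c N) N _ (fun Q hQ => (key Q (Finset.mem_filter.1 hQ).1).1)
          (fun Q hQ y hy => ⟨(Finset.mem_filter.1 hQ).2 y hy,
            (key Q (Finset.mem_filter.1 hQ).1).2 y hy⟩)
      exact_mod_cast h2.trans hcv
  have hnum : 4 * v ^ 3 < b x ∧ 16 * v ^ 4 ≤ b x := by
    rcases Nat.lt_or_ge v 2 with h | h
    · have : v = 1 := by omega
      rw [this]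
      constructor <;> omega
    · have h2 : 2 ^ 4 ≤ v ^ 4 := Nat.pow_le_pow_left h 4
      have h3 : v ^ 8 = v ^ 4 * v ^ 4 := by ring
      have h4 : 16 * v ^ 4 ≤ v ^ 4 * v ^ 4 := Nat.mul_le_mul_right _ (by simpa using h2)
      have h5 : v ^ 3 ≤ v ^ 4 := Nat.pow_le_pow_right (by omega) (by omega)
      have h6 : 0 < v ^ 3 := Nat.pow_pos (by omega)
      constructor <;> omega
  have hmain := search_correct (p.eval x.length) (fun w hw => (ver_iff.1 hw).1) hgood
    (Nat.size (b x * b x)) (b x) (Nat.lt_size_self _) (by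
      have h1 : ((4 * v ^ 3 : ℕ) : ℤ) < (b x : ℕ) := by exact_mod_cast hnum.1
      push_cast at h1
      nlinarith) (by
      have h1 : ((16 * v ^ 4 : ℕ) : ℤ) ≤ (b x : ℕ) := by exact_mod_cast hnum.2
      push_cast at h1
      have h2 : (0 : ℤ) ≤ (b x : ℕ) := Int.natCast_nonneg _
      push_cast
      nlinarith)
  have h2 : x ∈ L ↔ ∃ w, ver V0 p x w = true := by
    rw [hLV x]
    exact exists_congr fun w => ver_iff.symm
  rw [h2, ← hmain]
  simp

end Pool.Agent.H579R2.Spt
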