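import Pool.Agent.H579R2.Spt.SPoly2
import Pool.Agent.H579R2.Spt.Main

/-!
# Sparse threshold-hard sets for NP: unique certificates can be found in polynomial time
-/

namespace Pool.Agent.H579R2.Spt

open Pool.Agent.NPC Finset

theorem take_aux {β : Type} : ∀ (l : List β) (k j : ℕ),
    ((l.zipIdx j).filter (fun q => decide (q.2 < j + k))).map Prod.fst = l.take k := by
  intro l
  induction l with
  | nil => intro k j; simp
  | cons a l ih =>
    intro k j
    rw [List.zipIdx_cons]
    cases k with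
    | zero =>
      have h : ((a, j) :: l.zipIdx (j + 1)).filter (fun q => decide (q.2 < j + 0)) = [] := by
        rw [List.filter_eq_nil_iff]
        intro q hq
        rcases List.mem_cons.1 hq with h | h
        · rw [h]; simp
        · have := List.le_snd_of_mem_zipIdx h
          simp only [decide_eq_true_eq]
          omega
      rw [h]; simp
    | succ k =>
      rw [List.filter_cons_of_pos (by simp), List.map_cons, List.take_succ_cons]
      have e : j + (k + 1) = j + 1 + k := by omega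
      rw [e, ih k (j + 1)]

theorem take_poly' {α β : Type} [TEnc α] [TEnc β] {l : α → List β} {k : α → ℕ} (hl : Poly l)
    (hk : Poly k) : Poly (fun a => (l a).take (k a)) := by
  have h : Poly (fun a => ((l a).zipIdx.filter (fun q => decide (q.2 < k a))).map Prod.fst) := by
    fun_prop
  refine h.congr fun a => ?_
  have := take_aux (l a) (k a) 0
  simpa using this

/-- Some certificate has label `true` at level `j`. -/
def Lab (V : List Bool → List Bool → Bool) (a : List Bool × (ℕ × (ℕ × (ℕ × ℕ)))) : Prop :=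
  ∃ w, V a.1 w = true ∧ lab a.2.1 a.2.2.2 (w.take a.2.2.1) = true

theorem lab_inNP {V0 : List Bool → List Bool} (hV0 : PolyTime V0) (p : Polynomial ℕ) :
    InNPP (Lab (ver V0 p)) := by
  have e1 : Poly (fun q : (List Bool × (ℕ × (ℕ × (ℕ × ℕ)))) × List Bool => q.1.1) :=
    NPC.Poly.fst (NPC.Poly.fst NPC.Poly.id)
  have e2 : Poly (fun q : (List Bool × (ℕ × (ℕ × (ℕ × ℕ)))) × List Bool => q.1.2.1) :=
    NPC.Poly.fst (NPC.Poly.snd (NPC.Poly.fst NPC.Poly.id))
  have e3 : Poly (fun q : (List Bool × (ℕ × (ℕ × (ℕ × ℕ)))) × List Bool => q.1.2.2.1) :=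
    NPC.Poly.fst (NPC.Poly.snd (NPC.Poly.snd (NPC.Poly.fst NPC.Poly.id)))
  have e4 : Poly (fun q : (List Bool × (ℕ × (ℕ × (ℕ × ℕ)))) × List Bool => q.1.2.2.2) :=
    NPC.Poly.snd (NPC.Poly.snd (NPC.Poly.snd (NPC.Poly.fst NPC.Poly.id)))
  have e5 : Poly (fun q : (List Bool × (ℕ × (ℕ × (ℕ × ℕ)))) × List Bool => q.2) :=
    NPC.Poly.snd NPC.Poly.id
  have h1 : Poly (fun q : (List Bool × (ℕ × (ℕ × (ℕ × ℕ)))) × List Bool =>
      ver V0 p q.1.1 q.2 && lab q.1.2.1 q.1.2.2.2 (q.2.take q.1.2.2.1)) :=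
    NPC.Poly.and ((ver_poly hV0 p).comp (NPC.Poly.pair e1 e5))
      (lab_poly e2 e4 (take_poly' e5 e3))
  refine inNPP_of (R := fun q => ver V0 p q.1.1 q.2 && lab q.1.2.1 q.1.2.2.2
    (q.2.take q.1.2.2.1)) h1 (Polynomial.C 4 * p + 1) ?_
  rintro ⟨x, a⟩
  constructor
  · rintro ⟨w, hw, hl⟩
    refine ⟨w, ?_, ?_⟩
    · have h2 : w.length ≤ p.eval x.length := (ver_iff.1 hw).1
      have h3 := sz_listBool_le w
      have h4 : p.eval x.length ≤ p.eval (sz (x, a)) := by
        refine eval_mono p ?_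
        have := length_lt_sz x
        rw [sz_pair]; omega
      simp only [Polynomial.eval_add, Polynomial.eval_mul, Polynomial.eval_C, Polynomial.eval_one]
      omega
    · simp only [Bool.and_eq_true]
      exact ⟨hw, hl⟩
  · rintro ⟨w, _, hw⟩
    simp only [Bool.and_eq_true] at hw
    exact ⟨w, hw.1, hw.2⟩

theorem exists_two_pow_bound (e : ℕ) : ∃ C : ℕ, ∀ b ≥ C, b ^ e ≤ 2 ^ b := by
  have h : Filter.Tendsto (fun n : ℕ => (n : ℝ) ^ e / 2 ^ n) Filter.atTop (nhds 0) :=
    tendsto_pow_const_div_const_pow_of_one_lt e (by norm_num)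
  have h2 := (h.eventually (gt_mem_nhds (zero_lt_one))).exists_forall_of_atTop
  obtain ⟨C, hC⟩ := h2
  refine ⟨C, fun b hb => ?_⟩
  have h3 := hC b hb
  rw [div_lt_one (by positivity)] at h3
  exact_mod_cast h3.le

/-- **Unique certificates can be found in polynomial time** if some sparse set is hard for `NP`
under threshold reductions of polynomial weight and bounded width. -/
theorem unique_search (A S : Set (List Bool)) (hA : NPHard A) (hS : Sparse S) (d : ℕ → ℕ) (c : ℕ)
    (hd : ∃ q : Polynomial ℕ, ∀ n, d n ≤ q.eval n) (hred : ThresholdReduces A S d (fun _ => c))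
    (V0 : List Bool → List Bool) (hV0 : PolyTime V0) (p : Polynomial ℕ) :
    ∃ F : List Bool → List Bool, PolyTime F ∧ ∀ x w, ver V0 p x w = true →
      (∀ w', ver V0 p x w' = true → w' = w) → F x = w := by
  classical
  obtain ⟨qS, hqS⟩ := hS
  obtain ⟨qd, hqd⟩ := hd
  obtain ⟨f, hf, hfA⟩ := hA _ (lab_inNP hV0 p)
  obtain ⟨r, hr, hrS⟩ := hred
  set feat : List Bool × (ℕ × (ℕ × (ℕ × ℕ))) → List (ℤ × List (List Bool)) :=
    fun a => aug (r (f (bits a))) with hfeat
  have hfp : Poly (fun a : List Bool × (ℕ × (ℕ × (ℕ × ℕ))) => f (bits a)) :=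
    (PIso.poly_iff.2 hf).comp bits_poly
  have hrp : Poly (fun a : List Bool × (ℕ × (ℕ × (ℕ × ℕ))) => r (f (bits a))) :=
    (poly_of_polyTime_bits hr).comp hfp
  have hfeatp : Poly feat := aug_poly.comp hrp
  obtain ⟨p1, hp1⟩ := hfp.sz_le
  obtain ⟨p2, hp2⟩ := hrp.sz_le
  set p3 : Polynomial ℕ := Polynomial.C 16 * Polynomial.X + Polynomial.C 33 +
    Polynomial.C 4 * p with hp3
  obtain ⟨e, he⟩ := exists_pow_bound ((p1 + p2).comp p3)
  -- the polynomials bounding the parameters
  set pv : Polynomial ℕ := ((qd + 1) * (qS + 1) ^ c).comp (Polynomial.X ^ e) with hpv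
  set pn : Polynomial ℕ := Polynomial.C 4 * pv ^ 3 + 1 with hpn
  set pM : Polynomial ℕ := Polynomial.C 32 * pv ^ 4 * pn with hpM
  set pX : Polynomial ℕ := pM * p + 1 with hpX
  obtain ⟨e2, he2⟩ := exists_pow_bound pX
  obtain ⟨C2, hC2⟩ := exists_two_pow_bound e2
  set C : ℕ := max C2 2 with hC
  set b : List Bool → ℕ := fun x => x.length + C with hb
  have hbU : UPoly b := (UPoly.length NPC.Poly.id).add (UPoly.const C)
  set z : List (List Bool) → ℤ := fun Q => if ∀ y ∈ Q, y ∈ S then 1 else 0 with hz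
  have hz1 : ∀ Q, (∀ y ∈ Q, y ∈ S) → z Q = 1 := fun Q hQ => if_pos hQ
  have hz0 : ∀ Q, (¬ ∀ y ∈ Q, y ∈ S) → z Q = 0 := fun Q hQ => if_neg hQ
  have hPU : UPoly (fun x => prm (pX.eval (b x))) := prm_poly (hbU.eval pX)
  refine ⟨fun x => find2 feat (ver V0 p) (prm (pX.eval (b x)))
    (2 ^ Nat.size (prm (pX.eval (b x)))) (pn.eval (b x)) (pM.eval (b x)) (p.eval x.length) x,
    PIso.poly_iff.1 (find2_poly hfeatp (ver_poly hV0 p) hPU (two_pow_size_poly hPU)
      (hbU.eval pn) (hbU.eval pM) ((UPoly.length NPC.Poly.id).eval p)), ?_⟩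
  intro x w hw huniq
  have hb2 : 2 ≤ b x := (le_max_right C2 2).trans (Nat.le_add_left _ _)
  have hbC : C2 ≤ b x := (le_max_left C2 2).trans (Nat.le_add_left _ _)
  have hX2 : pX.eval (b x) ≤ 2 ^ b x := (he2 (b x) hb2).trans (hC2 (b x) hbC)
  have hX0 : pX.eval (b x) ≠ 0 := by
    rw [hpX, Polynomial.eval_add, Polynomial.eval_one]; omega
  obtain ⟨hPp, hP1, hP2⟩ := prm_spec hX0
  set P : ℕ := prm (pX.eval (b x)) with hPdef
  set k : ℕ := Nat.size P with hk
  have hPk : P ≤ 2 ^ k := (Nat.lt_size_self P).le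
  have hk2 : k ≤ b x + 2 := by
    rw [hk, Nat.size_le, pow_add]
    have h0 : 0 < 2 ^ b x := by positivity
    omega
  set N : ℕ := b x ^ e with hN
  have hwp : w.length ≤ p.eval x.length := (ver_iff.1 hw).1
  have hwb : w.length ≤ p.eval (b x) := hwp.trans (eval_mono p (Nat.le_add_right _ _))
  set v : ℕ := (qd.eval N + 1) * (qS.eval N + 1) ^ c with hv
  have hvp : pv.eval (b x) = v := by
    rw [hpv, Polynomial.eval_comp]
    simp only [Polynomial.eval_mul, Polynomial.eval_add, Polynomial.eval_one, Polynomial.eval_pow,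
      Polynomial.eval_X]
    rfl
  have hn : pn.eval (b x) = 4 * v ^ 3 + 1 := by
    rw [hpn]
    simp only [Polynomial.eval_mul, Polynomial.eval_add, Polynomial.eval_one, Polynomial.eval_pow,
      Polynomial.eval_C]
    rw [hvp]
  have hM : pM.eval (b x) = 32 * v ^ 4 * (4 * v ^ 3 + 1) := by
    rw [hpM]
    simp only [Polynomial.eval_mul, Polynomial.eval_pow, Polynomial.eval_C]
    rw [hvp, hn]
  have hXv : pX.eval (b x) = 32 * v ^ 4 * (4 * v ^ 3 + 1) * p.eval (b x) + 1 := by
    rw [hpX, Polynomial.eval_add, Polynomial.eval_mul, hM, Polynomial.eval_one]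
  have hdv : qd.eval N + 1 ≤ v := Nat.le_mul_of_pos_right _ (Nat.pow_pos (Nat.succ_pos _))
  have hcv : (census S N + 1) ^ c ≤ v := by
    calc (census S N + 1) ^ c ≤ (qS.eval N + 1) ^ c :=
          Nat.pow_le_pow_left (Nat.add_le_add_right (hqS N) 1) _
      _ ≤ v := Nat.le_mul_of_pos_left _ (Nat.succ_pos _)
  -- sizes of the instances
  have hN1 : ∀ j ≤ w.length, ∀ t ∈ range P ×ˢ range (2 ^ k),
      (f (bits (x, (P, (j, t))))).length ≤ N ∧ sz (r (f (bits (x, (P, (j, t)))))) ≤ N := by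
    rintro j hj ⟨t1, t2⟩ ht
    rw [Finset.mem_product, Finset.mem_range, Finset.mem_range] at ht
    have h1 : sz P ≤ 4 * (b x + 2) + 1 := (sz_nat_le P).trans (by omega)
    have ht1 : t1 < P := ht.1
    have ht2 : t2 < 2 ^ k := ht.2
    have h2 : sz t1 ≤ 4 * (b x + 2) + 1 := by
      have := Nat.size_le_size (le_of_lt ht1)
      exact (sz_nat_le t1).trans (by omega)
    have h3 : sz t2 ≤ 4 * (b x + 2) + 1 := by
      have := Nat.size_le.2 ht2
      exact (sz_nat_le t2).trans (by omega)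
    have h4 : sz j ≤ 4 * p.eval (b x) + 1 := by
      have := NPC.Poly.size_le_self j
      exact (sz_nat_le j).trans (by omega)
    have h5 := sz_listBool_le x
    have h6 : x.length ≤ b x := Nat.le_add_right _ _
    have h7 : sz (x, (P, (j, (t1, t2)))) ≤ p3.eval (b x) := by
      rw [sz_pair, sz_pair, sz_pair, sz_pair, hp3]
      simp only [Polynomial.eval_add, Polynomial.eval_mul, Polynomial.eval_C, Polynomial.eval_X]
      omega
    have h8 := he (b x) hb2
    rw [Polynomial.eval_comp, Polynomial.eval_add] at h8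
    have h9 := (hp1 (x, (P, (j, (t1, t2))))).trans (eval_mono p1 h7)
    have h10 := (hp2 (x, (P, (j, (t1, t2))))).trans (eval_mono p2 h7)
    have h11 := length_lt_sz (f (bits (x, (P, (j, (t1, t2))))))
    constructor <;> omega
  have hmem : ∀ j t, lab P t (w.take j) = true ↔ 0 < value S (r (f (bits (x, (P, (j, t)))))) := by
    intro j t
    rw [← (hrS (f (bits (x, (P, (j, t)))))).2.2, ← hfA, bits_mem_lang]
    constructor
    · intro h
      exact ⟨w, hw, h⟩
    · rintro ⟨w', hw', h⟩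
      rw [huniq w' hw'] at h
      exact h
  have hgood : Good2 feat P (2 ^ k) x w z (4 * (v : ℤ) ^ 2) (v : ℤ) := by
    refine ⟨?_, ?_, by positivity, ?_, ?_⟩
    · intro j _ t _ h
      have h1 := (hmem j t).1 h
      change 1 ≤ ev z (aug (r (f (bits (x, (P, (j, t)))))))
      rw [ev_aug S z hz1 hz0]
      omega
    · intro j _ t _ h
      have h1 : ¬ 0 < value S (r (f (bits (x, (P, (j, t)))))) := fun h' => by
        rw [(hmem j t).2 h'] at h
        exact absurd h (by simp)
      change ev z (aug (r (f (bits (x, (P, (j, t))))))) ≤ -1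
      rw [ev_aug S z hz1 hz0]
      omega
    · intro j hj t ht
      have h3 := hN1 j hj t ht
      have h4 := (hrS (f (bits (x, (P, (j, t)))))).2.1
      have h5 : d (f (bits (x, (P, (j, t))))).length ≤ qd.eval N :=
        (hqd _).trans (eval_mono qd h3.1)
      have h6 : wt (aug (r (f (bits (x, (P, (j, t))))))) ≤ 2 * v := by
        rw [wt_aug]; omega
      have h7 : ((wt (aug (r (f (bits (x, (P, (j, t))))))) : ℕ) : ℤ) ≤ 2 * (v : ℤ) := by
        exact_mod_cast h6
      have h8 := dot_le (aug (r (f (bits (x, (P, (j, t))))))) (aug (r (f (bits (x, (P, (j, t)))))))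
      have h9 : (0 : ℤ) ≤ (wt (aug (r (f (bits (x, (P, (j, t))))))) : ℕ) := Int.natCast_nonneg _
      change dot (aug (r (f (bits (x, (P, (j, t))))))) (aug (r (f (bits (x, (P, (j, t))))))) ≤
        4 * (v : ℤ) ^ 2
      nlinarith
    · intro Ω hΩ
      have h1 : ∑ Q ∈ Ω, z Q * z Q = ((Ω.filter (fun Q => ∀ y ∈ Q, y ∈ S)).card : ℤ) := by
        rw [Finset.card_filter]
        push_cast
        refine Finset.sum_congr rfl fun Q _ => ?_
        by_cases hQ : ∀ y ∈ Q, y ∈ S
        · rw [hz1 Q hQ, if_pos hQ]; norm_num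
        · rw [hz0 Q hQ, if_neg hQ]; norm_num
      rw [h1]
      have h2 : (Ω.filter (fun Q => ∀ y ∈ Q, y ∈ S)).card ≤ (census S N + 1) ^ c := by
        have key : ∀ Q ∈ Ω, Q.length ≤ c ∧ ∀ y ∈ Q, y.length ≤ N := by
          intro Q hQ
          obtain ⟨j, hj, t, ht, a, ha, haQ⟩ := hΩ Q hQ
          have h3 := hN1 j hj t ht
          rcases List.mem_cons.1
            (show a ∈ aug (r (f (bits (x, (P, (j, t)))))) from ha) with h4 | h4
          · rw [← haQ, h4]; simp
          · obtain ⟨s, hs, rfl⟩ := List.mem_map.1 h4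
            subst haQ
            refine ⟨(hrS _).1 s hs, fun y hy => ?_⟩
            have e1 : sz s < sz (r (f (bits (x, (P, (j, t)))))) := sz_le_of_mem hs
            have e2 : sz y < sz s.2 := sz_le_of_mem hy
            have e3 : sz s.2 < sz s := by
              have g1 : sz s = sz s.1 + sz s.2 + 1 := sz_pair s.1 s.2
              have g2 := sz_pos s.1
              omega
            have e4 : y.length < sz y := length_lt_sz y
            have e5 : sz (r (f (bits (x, (P, (j, t)))))) ≤ N := h3.2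
            exact (e4.le.trans (e2.le.trans (e3.le.trans e1.le))).trans e5
        exact card_true_le S c N _ (fun Q hQ => (key Q (Finset.mem_filter.1 hQ).1).1)
          (fun Q hQ y hy => ⟨(Finset.mem_filter.1 hQ).2 y hy,
            (key Q (Finset.mem_filter.1 hQ).1).2 y hy⟩)
      exact_mod_cast h2.trans hcv
  have hv0 : (0 : ℤ) ≤ (v : ℤ) := Int.natCast_nonneg _
  refine find2_correct hgood hPp hPk _ _ _ hw huniq hwp ?_ ?_ ?_
  · rw [hn]
    push_cast
    nlinarith
  · rw [hn, hM]
    push_cast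
    refine le_of_eq ?_
    ring
  · rw [hn]
    have h1 : 32 * v ^ 4 * (4 * v ^ 3 + 1) * w.length ≤ P := by
      have h2 : 32 * v ^ 4 * (4 * v ^ 3 + 1) * w.length ≤
          32 * v ^ 4 * (4 * v ^ 3 + 1) * p.eval (b x) := Nat.mul_le_mul_left _ hwb
      omega
    have h3 : ((32 * v ^ 4 * (4 * v ^ 3 + 1) * w.length : ℕ) : ℤ) ≤ (P : ℤ) := by exact_mod_cast h1
    push_cast at h3 ⊢
    refine le_trans (le_of_eq ?_) h3
    ring

end Pool.Agent.H579R2.Spt
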