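import Pool.Agent.H579R2.Spt.VV2
import Pool.Agent.H579R2.Spt.Main2

/-!
# From unique certificates to `NP = RP`
-/

namespace Pool.Agent.H579R2.Spt

open Pool.Agent.NPC Finset

theorem drop_aux {β : Type} : ∀ (l : List β) (k j : ℕ),
    ((l.zipIdx j).filter (fun q => decide (j + k ≤ q.2))).map Prod.fst = l.drop k := by
  intro l
  induction l with
  | nil => intro k j; simp
  | cons a l ih =>
    intro k j
    rw [List.zipIdx_cons]
    cases k with
    | zero =>
      have h : ((a, j) :: l.zipIdx (j + 1)).filter (fun q => decide (j + 0 ≤ q.2)) =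
          (a, j) :: l.zipIdx (j + 1) := by
        rw [List.filter_eq_self]
        intro q hq
        rcases List.mem_cons.1 hq with h | h
        · rw [h]; simp
        · have := List.le_snd_of_mem_zipIdx h
          simp only [decide_eq_true_eq]
          omega
      rw [h, List.drop_zero, List.map_cons, List.zipIdx_map_fst]
    | succ k =>
      rw [List.filter_cons_of_neg (by simp), List.drop_succ_cons]
      have e : j + (k + 1) = j + 1 + k := by omega
      rw [e, ih k (j + 1)]

theorem drop_poly' {α β : Type} [TEnc α] [TEnc β] {l : α → List β} {k : α → ℕ} (hl : Poly l)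
    (hk : Poly k) : Poly (fun a => (l a).drop (k a)) := by
  have h : Poly (fun a => ((l a).zipIdx.filter (fun q => decide (k a ≤ q.2))).map Prod.fst) := by
    fun_prop
  refine h.congr fun a => ?_
  have := drop_aux (l a) (k a) 0
  simpa using this

theorem ip_poly {α : Type} [TEnc α] {a c : α → List Bool} (ha : Poly a) (hc : Poly c) :
    Poly (fun x => ip (a x) (c x)) := by
  unfold ip
  refine NPC.Poly.foldr (l := fun x => (a x).zip (c x)) (s := fun _ => false)
    (F := fun _ p s => xor (p.1 && p.2) s) (NPC.Poly.zip ha hc) (NPC.Poly.const _) ?_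
    (Polynomial.C 3) ?_
  · exact NPC.Poly.xor (NPC.Poly.and
      (NPC.Poly.fst (NPC.Poly.fst (NPC.Poly.snd NPC.Poly.id)))
      (NPC.Poly.snd (NPC.Poly.fst (NPC.Poly.snd NPC.Poly.id))))
      (NPC.Poly.snd (NPC.Poly.snd NPC.Poly.id))
  · intro x k _
    rw [Polynomial.eval_C]
    exact sz_bool_le _

theorem rowsL_poly {α : Type} [TEnc α] {m k : α → ℕ} {r : α → List Bool} (hm : Poly m)
    (hk : UPoly k) (hr : Poly r) : Poly (fun x => rowsL (m x) (k x) (r x)) := by
  unfold rowsL
  refine NPC.Poly.map (l := fun x => List.range (k x))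
    (F := fun x i => ((r x).drop (i * m x)).take (m x)) hk.range ?_
  exact take_poly' (drop_poly' (hr.comp (NPC.Poly.fst NPC.Poly.id))
    (NPC.Poly.mul (NPC.Poly.snd NPC.Poly.id) (hm.comp (NPC.Poly.fst NPC.Poly.id))))
    (hm.comp (NPC.Poly.fst NPC.Poly.id))

/-- the restricted verifier -/
def g1 (V0 : List Bool → List Bool) (p : Polynomial ℕ) (y : List Bool) : Bool :=
  ((unbits (List Bool × List (List Bool)) (unpair y).1).map (fun b =>
    ver V0 p b.1 (unpair y).2 && b.2.all (fun a => !ip a (cd (unpair y).2)))).getD false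

theorem g1_poly {V0 : List Bool → List Bool} (hV0 : PolyTime V0) (p : Polynomial ℕ) :
    Poly (g1 V0 p) := by
  unfold g1
  refine NPC.Poly.optGetD (NPC.Poly.optMap
    (o := fun y => unbits (List Bool × List (List Bool)) (unpair y).1)
    (f := fun y b => ver V0 p b.1 (unpair y).2 &&
      b.2.all (fun a => !ip a (cd (unpair y).2)))
    (poly_unbits.comp (NPC.Poly.fst poly_unpair)) ?_) (NPC.Poly.const _)
  have e1 : Poly (fun q : List Bool × (List Bool × List (List Bool)) => q.2.1) :=
    NPC.Poly.fst (NPC.Poly.snd NPC.Poly.id)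
  have e2 : Poly (fun q : List Bool × (List Bool × List (List Bool)) => q.2.2) :=
    NPC.Poly.snd (NPC.Poly.snd NPC.Poly.id)
  have e3 : Poly (fun q : List Bool × (List Bool × List (List Bool)) => (unpair q.1).2) :=
    (NPC.Poly.snd poly_unpair).comp (NPC.Poly.fst NPC.Poly.id)
  refine NPC.Poly.and ((ver_poly hV0 p).comp (NPC.Poly.pair e1 e3)) ?_
  refine NPC.Poly.all (l := fun q : List Bool × (List Bool × List (List Bool)) => q.2.2)
    (p := fun q a => !ip a (cd (unpair q.1).2)) e2 (NPC.Poly.not ?_)
  unfold cd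
  exact ip_poly (NPC.Poly.snd NPC.Poly.id)
    (NPC.Poly.append (e3.comp (NPC.Poly.fst NPC.Poly.id)) (NPC.Poly.const _))

theorem ver_g1 (V0 : List Bool → List Bool) (p : Polynomial ℕ) (x : List Bool)
    (rows : List (List Bool)) (w : List Bool) :
    ver (fun y => [g1 V0 p y]) p (bits (x, rows)) w = true ↔
      ver V0 p x w = true ∧ rows.all (fun a => !ip a (cd w)) = true := by
  rw [ver_iff]
  have h1 : g1 V0 p (pairBits (bits (x, rows)) w) =
      (ver V0 p x w && rows.all (fun a => !ip a (cd w))) := by
    unfold g1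
    rw [unpair_pairBits]
    simp only [unbits_bits, Option.map_some, Option.getD_some]
  rw [h1]
  constructor
  · rintro ⟨_, h⟩
    simpa using h
  · rintro ⟨h2, h3⟩
    refine ⟨?_, by rw [h2, h3]; rfl⟩
    have h4 := (ver_iff.1 h2).1
    refine h4.trans (eval_mono p ?_)
    rw [bits_length, sz_pair]
    have := length_lt_sz x
    omega

/-- one trial -/
def trial (V0 : List Bool → List Bool) (p : Polynomial ℕ) (F : List Bool → List Bool)
    (x ρ : List Bool) : Bool :=
  (List.range (p.eval x.length + 3)).any
    (fun k => ver V0 p x (F (bits (x, rowsL (p.eval x.length + 1)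
      (min k (p.eval x.length + 3)) ρ))))

theorem trial_poly {V0 : List Bool → List Bool} (hV0 : PolyTime V0) (p : Polynomial ℕ)
    {F : List Bool → List Bool} (hF : PolyTime F) :
    Poly (fun q : List Bool × List Bool => trial V0 p F q.1 q.2) := by
  have hF' : Poly F := PIso.poly_iff.2 hF
  have u1 : UPoly (fun q : List Bool × List Bool => p.eval q.1.length) :=
    (UPoly.length (NPC.Poly.fst NPC.Poly.id)).eval p
  unfold trial
  refine NPC.Poly.any (l := fun q : List Bool × List Bool => List.range (p.eval q.1.length + 3))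
    (p := fun q k => ver V0 p q.1 (F (bits (q.1, rowsL (p.eval q.1.length + 1)
      (min k (p.eval q.1.length + 3)) q.2))))
    (u1.add (UPoly.const 3)).range ?_
  have e0 : Poly (fun q : (List Bool × List Bool) × ℕ => q.1) := NPC.Poly.fst NPC.Poly.id
  have e1 : Poly (fun q : (List Bool × List Bool) × ℕ => q.1.1) := NPC.Poly.fst e0
  have e2 : Poly (fun q : (List Bool × List Bool) × ℕ => q.1.2) := NPC.Poly.snd e0
  have e3 : Poly (fun q : (List Bool × List Bool) × ℕ => q.2) := NPC.Poly.snd NPC.Poly.id
  have u2 : UPoly (fun q : (List Bool × List Bool) × ℕ => p.eval q.1.1.length) := u1.comp e0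
  have u3 : UPoly (fun q : (List Bool × List Bool) × ℕ => min q.2 (p.eval q.1.1.length + 3)) :=
    UPoly.of_le (NPC.Poly.min e3 (u2.add (UPoly.const 3)).toPoly) (u2.add (UPoly.const 3))
      (fun _ => min_le_right _ _)
  exact (ver_poly hV0 p).comp (NPC.Poly.pair e1 (hF'.comp (bits_poly.comp (NPC.Poly.pair e1
    (rowsL_poly (u2.add (UPoly.const 1)).toPoly u3 e2)))))

theorem acc_four (G : List Bool → Bool) (n : ℕ) (r : List Bool) :
    acc G n 4 r = (G (r.take n) || (G ((r.drop n).take n) ||
      (G (((r.drop n).drop n).take n) || G ((((r.drop n).drop n).drop n).take n)))) := by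
  simp only [acc, Bool.or_false]

theorem acc_true {G : List Bool → Bool} {n : ℕ} : ∀ {i : ℕ} {r : List Bool},
    acc G n i r = true → ∃ s, G s = true := by
  intro i
  induction i with
  | zero => intro r h; simp [acc] at h
  | succ i ih =>
    intro r h
    simp only [acc, Bool.or_eq_true] at h
    rcases h with h | h
    · exact ⟨_, h⟩
    · exact ih h

theorem sum_ind_eq (n : ℕ) (G : List Bool → Bool) :
    ∑ r ∈ BL n, ind (G r) = (({r : List Bool | r.length = n ∧ G r = true}.ncard : ℕ) : ℤ) := by
  have h1 : {r : List Bool | r.length = n ∧ G r = true} = ↑((BL n).filter (fun r => G r = true)) := by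
    ext r; simp
  rw [h1, Set.ncard_coe_finset, Finset.card_filter]
  push_cast
  exact Finset.sum_congr rfl fun r _ => by simp only [ind]

/-- **Valiant and Vazirani**: if unique certificates can be found in polynomial time, then
`NP ⊆ RP`. -/
theorem inRP_of_unique (H : ∀ (V0 : List Bool → List Bool), PolyTime V0 → ∀ p : Polynomial ℕ,
    ∃ F : List Bool → List Bool, PolyTime F ∧ ∀ x w, ver V0 p x w = true →
      (∀ w', ver V0 p x w' = true → w' = w) → F x = w)
    {L : Set (List Bool)} (hL : InNP L) : InRP L := by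
  classical
  obtain ⟨V0, p, hV0, hLV⟩ := hL
  have hL2 : ∀ x, x ∈ L ↔ ∃ w, ver V0 p x w = true := by
    intro x
    rw [hLV x]
    exact exists_congr fun w => ver_iff.symm
  obtain ⟨F, hF, hFu⟩ := H (fun y => [g1 V0 p y]) (polyTime_of_poly (g1_poly hV0 p)) p
  set pn : Polynomial ℕ := (p + 2) * (p + 1) with hpn
  have epn : ∀ x : List Bool, pn.eval x.length = (p.eval x.length + 2) * (p.eval x.length + 1) := by
    intro x
    rw [hpn]
    simp
  set V : List Bool → Bool := fun y =>
    acc (trial V0 p F (unpair y).1) (pn.eval (unpair y).1.length) 4 (unpair y).2 with hV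
  have hVp : Poly V := by
    have e1 : Poly (fun y : List Bool => (unpair y).1) := NPC.Poly.fst poly_unpair
    have e2 : Poly (fun y : List Bool => (unpair y).2) := NPC.Poly.snd poly_unpair
    have e3 : Poly (fun y : List Bool => pn.eval (unpair y).1.length) :=
      ((UPoly.length e1).eval pn).toPoly
    have tr := trial_poly hV0 p hF
    have key : ∀ {f : List Bool → List Bool}, Poly f → Poly (fun y : List Bool =>
        trial V0 p F (unpair y).1 ((f y).take (pn.eval (unpair y).1.length))) := by
      intro f hf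
      exact tr.comp (NPC.Poly.pair e1 (take_poly' hf e3))
    have d1 := drop_poly' e2 e3
    have d2 := drop_poly' d1 e3
    have d3 := drop_poly' d2 e3
    refine (NPC.Poly.or (key e2) (NPC.Poly.or (key d1) (NPC.Poly.or (key d2) (key d3)))).congr
      fun y => ?_
    rw [hV]
    simp only
    rw [acc_four]
  refine ⟨fun y => [V y], Polynomial.C 4 * pn, polyTime_of_poly hVp, fun x => ?_⟩
  have hVx : ∀ r, V (pairBits x r) = acc (trial V0 p F x) (pn.eval x.length) 4 r := by
    intro r
    rw [hV]
    simp only
    rw [unpair_pairBits]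
  have hl : (Polynomial.C 4 * pn).eval x.length = 4 * pn.eval x.length := by simp
  constructor
  · intro hx
    set m : ℕ := p.eval x.length + 1 with hm
    have hfin : {w | ver V0 p x w = true}.Finite := by
      refine (List.finite_length_le Bool (p.eval x.length)).subset fun w hw => ?_
      exact (ver_iff.1 hw).1
    set W : Finset (List Bool) := hfin.toFinset with hW
    have hWm : ∀ w, w ∈ W ↔ ver V0 p x w = true := fun w => by rw [hW]; simp
    have hWs : ∀ w ∈ W, w.length + 1 ≤ m := fun w hw => by
      have := (ver_iff.1 ((hWm w).1 hw)).1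
      omega
    have hW1 : 1 ≤ W.card := by
      obtain ⟨w, hw⟩ := (hL2 x).1 hx
      exact Finset.card_pos.2 ⟨w, (hWm w).2 hw⟩
    obtain ⟨k, hkm, hk1, hk2⟩ := exists_scale W.card m hW1 (card_short m W hWs)
    obtain ⟨s, hs⟩ : ∃ s, pn.eval x.length = k * m + s := by
      refine ⟨pn.eval x.length - k * m, ?_⟩
      have : k * m ≤ pn.eval x.length := by
        rw [epn]
        exact Nat.mul_le_mul (by omega) (le_of_eq hm)
      omega
    have hG : ∀ r, (∃ w, Iso m k W r w) → trial V0 p F x r = true := by
      rintro r ⟨w, hw1, hw2, hw3⟩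
      unfold trial
      rw [List.any_eq_true]
      refine ⟨k, List.mem_range.2 (by omega), ?_⟩
      have hmin : min k (p.eval x.length + 3) = k := min_eq_left (by omega)
      rw [hmin]
      have hFw : F (bits (x, rowsL m k r)) = w := by
        refine hFu _ _ ((ver_g1 V0 p x _ w).2 ⟨(hWm w).1 hw1, hw2⟩) fun w' hw' => ?_
        have h := (ver_g1 V0 p x _ w').1 hw'
        exact hw3 w' ((hWm w').2 h.1) h.2
      rw [hFw]
      exact (hWm w).1 hw1
    have h1 := iso_count m s W hWs k hk1 hk2 (trial V0 p F x) hG
    rw [← hs] at h1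
    have h2 := amplify (trial V0 p F x) (pn.eval x.length) h1
    rw [sum_ind_eq] at h2
    rw [hl]
    have h3 : {r : List Bool | r.length = 4 * pn.eval x.length ∧ [V (pairBits x r)] = [true]} =
        {r : List Bool | r.length = 4 * pn.eval x.length ∧
          acc (trial V0 p F x) (pn.eval x.length) 4 r = true} := by
      ext r
      simp only [Set.mem_ofPred_eq, hVx, List.cons.injEq, and_true]
    rw [h3]
    exact_mod_cast h2
  · intro hx r _ h
    apply hx
    simp only [hVx, List.cons.injEq] at h
    obtain ⟨s, hs⟩ := acc_true h.1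
    unfold trial at hs
    rw [List.any_eq_true] at hs
    obtain ⟨k, _, hk⟩ := hs
    exact (hL2 x).2 ⟨_, hk⟩

/-- `RP ⊆ NP`. -/
theorem InRP.inNP {L : Set (List Bool)} (h : InRP L) : InNP L := by
  obtain ⟨V, ℓ, hV, hL⟩ := h
  have hV' : Poly V := PIso.poly_iff.2 hV
  set U : List Bool → Bool := fun y => decide (V y = [true]) &&
    decide ((unpair y).2.length = ℓ.eval (unpair y).1.length) with hU
  have hUp : Poly U := by
    have e1 : Poly (fun y : List Bool => (unpair y).1) := NPC.Poly.fst poly_unpair
    have e2 : Poly (fun y : List Bool => (unpair y).2) := NPC.Poly.snd poly_unpair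
    exact NPC.Poly.and (NPC.Poly.decide_eq hV' (NPC.Poly.const [true]))
      (NPC.Poly.decide_eq (NPC.Poly.length e2) ((UPoly.length e1).eval ℓ).toPoly)
  refine ⟨fun y => [U y], ℓ, polyTime_of_poly hUp, fun x => ?_⟩
  have hUx : ∀ w, [U (pairBits x w)] = [true] ↔ V (pairBits x w) = [true] ∧
      w.length = ℓ.eval x.length := by
    intro w
    rw [hU]
    simp only [unpair_pairBits, List.cons.injEq, and_true, Bool.and_eq_true, decide_eq_true_eq]
  constructor
  · intro hx
    have h1 := (hL x).1 hx
    have h2 : 0 < {r : List Bool | r.length = ℓ.eval x.length ∧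
        V (pairBits x r) = [true]}.ncard := by
      have : 0 < 2 ^ ℓ.eval x.length := by positivity
      omega
    obtain ⟨r, hr1, hr2⟩ := Set.nonempty_of_ncard_ne_zero h2.ne'
    exact ⟨r, hr1.le, (hUx r).2 ⟨hr2, hr1⟩⟩
  · rintro ⟨w, _, hw⟩
    by_contra hx
    exact (hL x).2 hx w ((hUx w).1 hw).2 ((hUx w).1 hw).1

/-- **`NP = RP`** if some sparse set is hard for `NP` under threshold reductions of polynomial
weight and bounded width. -/
theorem np_eq_rp (A S : Set (List Bool)) (hA : NPHard A) (hS : Sparse S) (d : ℕ → ℕ) (c : ℕ)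
    (hd : ∃ q : Polynomial ℕ, ∀ n, d n ≤ q.eval n) (hred : ThresholdReduces A S d (fun _ => c))
    (L : Set (List Bool)) : InNP L ↔ InRP L :=
  ⟨fun h => inRP_of_unique (fun V0 hV0 p => unique_search A S hA hS d c hd hred V0 hV0 p) h,
    fun h => h.inNP⟩

end Pool.Agent.H579R2.Spt
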