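import Pool.Agent.H579R2.Spt.VV3

/-!
# Few certificates
-/

namespace Pool.Agent.H579R2.Spt

open Pool.Agent.NPC Finset

/-- A small number that does not divide `M`. -/
theorem exists_not_dvd (M n : ℕ) (hM : M ≠ 0) (hn : 4 ≤ n) (h : n * M ≤ 4 ^ n) :
    ∃ q, 1 ≤ q ∧ q ≤ 2 * n ∧ ¬ q ∣ M := by
  by_contra hc
  push Not at hc
  have h1 : Nat.centralBinom n ∣ M := by
    rw [← Nat.factorization_prime_le_iff_dvd (Nat.centralBinom_ne_zero n) hM]
    intro p hp
    rw [← hp.pow_dvd_iff_le_factorization hM]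
    refine hc _ (Nat.pos_of_ne_zero (pow_ne_zero _ hp.ne_zero)) ?_
    exact Nat.pow_factorization_choose_le (by omega)
  have h2 := Nat.four_pow_lt_mul_centralBinom n hn
  have h3 := Nat.le_of_dvd (Nat.pos_of_ne_zero hM) h1
  have h4 := Nat.mul_le_mul_left n h3
  omega

/-- the number of a certificate -/
def nb (w : List Bool) : ℕ := valB (cd w)

theorem nb_nil : nb [] = 1 := rfl

theorem nb_cons (b : Bool) (w : List Bool) : nb (b :: w) = (if b then 1 else 0) + 2 * nb w := rfl

theorem nb_pos (w : List Bool) : 1 ≤ nb w := by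
  induction w with
  | nil => rw [nb_nil]
  | cons b w ih => rw [nb_cons]; omega

theorem nb_inj : ∀ {w w' : List Bool}, nb w = nb w' → w = w' := by
  intro w
  induction w with
  | nil =>
    intro w' h
    cases w' with
    | nil => rfl
    | cons b w' =>
      exfalso
      have := nb_pos w'
      rw [nb_nil, nb_cons] at h
      omega
  | cons b w ih =>
    intro w' h
    cases w' with
    | nil =>
      exfalso
      have := nb_pos w
      rw [nb_nil, nb_cons] at h
      omega
    | cons b' w' =>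
      rw [nb_cons, nb_cons] at h
      have hb : b = b' := by
        cases b <;> cases b' <;> first
          | rfl
          | (simp only [if_true, if_false, Bool.false_eq_true] at h; omega)
      subst hb
      rw [ih (by omega : nb w = nb w')]

theorem nb_lt (w : List Bool) : nb w < 2 ^ (w.length + 1) := by
  have := valB_lt (cd w)
  rwa [cd_length] at this

/-- Separating one certificate from few others by its remainder. -/
theorem exists_sep (W : Finset (List Bool)) (m B : ℕ) (hB : W.card ≤ B)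
    (hW : ∀ w ∈ W, w.length + 1 ≤ m) (w : List Bool) (hw : w ∈ W) :
    ∃ q, 1 ≤ q ∧ q ≤ 2 * (m * B + 4) ∧ ∀ w' ∈ W, nb w' % q = nb w % q → w' = w := by
  set M : ℕ := ∏ w' ∈ W.erase w, ((nb w' : ℤ) - nb w).natAbs with hM
  have hne : ∀ w' ∈ W.erase w, ((nb w' : ℤ) - nb w).natAbs ≠ 0 := by
    intro w' hw' h
    apply (Finset.mem_erase.1 hw').1
    apply nb_inj
    omega
  have hM0 : M ≠ 0 := Finset.prod_ne_zero_iff.2 hne
  have hMle : M ≤ 2 ^ (m * B) := by
    calc M ≤ ∏ _w' ∈ W.erase w, 2 ^ m := by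
          refine Finset.prod_le_prod' fun w' hw' => ?_
          have h1 := nb_lt w'
          have h2 := nb_lt w
          have h3 : 2 ^ (w'.length + 1) ≤ 2 ^ m :=
            Nat.pow_le_pow_right (by norm_num) (hW w' (Finset.mem_erase.1 hw').2)
          have h4 : 2 ^ (w.length + 1) ≤ 2 ^ m := Nat.pow_le_pow_right (by norm_num) (hW w hw)
          omega
      _ = 2 ^ (m * (W.erase w).card) := by rw [Finset.prod_const, ← pow_mul]
      _ ≤ 2 ^ (m * B) := Nat.pow_le_pow_right (by norm_num)
          (Nat.mul_le_mul_left _ ((Finset.card_le_card (Finset.erase_subset _ _)).trans hB))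
  set n : ℕ := m * B + 4 with hn
  have hnM : n * M ≤ 4 ^ n := by
    have h1 : n ≤ 2 ^ n := Nat.lt_two_pow_self.le
    have h2 : 2 ^ (m * B) ≤ 2 ^ n := Nat.pow_le_pow_right (by norm_num) (by omega)
    calc n * M ≤ 2 ^ n * 2 ^ n := Nat.mul_le_mul h1 (hMle.trans h2)
      _ = 4 ^ n := by rw [← mul_pow]; norm_num
  obtain ⟨q, hq1, hq2, hq3⟩ := exists_not_dvd M n hM0 (by omega) hnM
  refine ⟨q, hq1, hq2, fun w' hw' hmod => ?_⟩
  by_contra hne'
  apply hq3
  have h1 : ((nb w' : ℤ) - nb w).natAbs ∣ M :=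
    Finset.dvd_prod_of_mem _ (Finset.mem_erase.2 ⟨hne', hw'⟩)
  refine dvd_trans ?_ h1
  rw [← Int.natCast_dvd]
  have h2 : nb w ≡ nb w' [MOD q] := hmod.symm
  exact (Nat.modEq_iff_dvd.1 h2)

/-- the restricted verifier -/
def g2 (V0 : List Bool → List Bool) (p : Polynomial ℕ) (y : List Bool) : Bool :=
  ((unbits (List Bool × (ℕ × ℕ)) (unpair y).1).map (fun b =>
    ver V0 p b.1 (unpair y).2 && decide (nb (unpair y).2 % b.2.1 = b.2.2))).getD false

theorem g2_poly {V0 : List Bool → List Bool} (hV0 : PolyTime V0) (p : Polynomial ℕ) :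
    Poly (g2 V0 p) := by
  unfold g2
  refine NPC.Poly.optGetD (NPC.Poly.optMap
    (o := fun y => unbits (List Bool × (ℕ × ℕ)) (unpair y).1)
    (f := fun y b => ver V0 p b.1 (unpair y).2 &&
      decide (nb (unpair y).2 % b.2.1 = b.2.2))
    (poly_unbits.comp (NPC.Poly.fst poly_unpair)) ?_) (NPC.Poly.const _)
  have e1 : Poly (fun q : List Bool × (List Bool × (ℕ × ℕ)) => q.2.1) :=
    NPC.Poly.fst (NPC.Poly.snd NPC.Poly.id)
  have e2 : Poly (fun q : List Bool × (List Bool × (ℕ × ℕ)) => q.2.2.1) :=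
    NPC.Poly.fst (NPC.Poly.snd (NPC.Poly.snd NPC.Poly.id))
  have e2' : Poly (fun q : List Bool × (List Bool × (ℕ × ℕ)) => q.2.2.2) :=
    NPC.Poly.snd (NPC.Poly.snd (NPC.Poly.snd NPC.Poly.id))
  have e3 : Poly (fun q : List Bool × (List Bool × (ℕ × ℕ)) => (unpair q.1).2) :=
    (NPC.Poly.snd poly_unpair).comp (NPC.Poly.fst NPC.Poly.id)
  refine NPC.Poly.and ((ver_poly hV0 p).comp (NPC.Poly.pair e1 e3)) ?_
  refine NPC.Poly.decide_eq (NPC.Poly.mod ?_ e2) e2'
  unfold nb cd
  exact NPC.Poly.valBits (NPC.Poly.append e3 (NPC.Poly.const _))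

theorem ver_g2 (V0 : List Bool → List Bool) (p : Polynomial ℕ) (x : List Bool)
    (q a : ℕ) (w : List Bool) :
    ver (fun y => [g2 V0 p y]) p (bits (x, (q, a))) w = true ↔
      ver V0 p x w = true ∧ nb w % q = a := by
  rw [ver_iff]
  have h1 : g2 V0 p (pairBits (bits (x, (q, a))) w) =
      (ver V0 p x w && decide (nb w % q = a)) := by
    unfold g2
    rw [unpair_pairBits]
    simp only [unbits_bits, Option.map_some, Option.getD_some]
  rw [h1]
  constructor
  · rintro ⟨_, h⟩
    simpa using h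
  · rintro ⟨h2, h3⟩
    refine ⟨?_, by rw [h2, h3]; simp⟩
    have h4 := (ver_iff.1 h2).1
    refine h4.trans (eval_mono p ?_)
    rw [bits_length, sz_pair]
    have := length_lt_sz x
    omega

/-- **Few certificates**: from the search for unique certificates to the search for all
certificates, when they are polynomially many. -/
theorem few_of_unique (H : ∀ (V0 : List Bool → List Bool), PolyTime V0 → ∀ p : Polynomial ℕ,
    ∃ F : List Bool → List Bool, PolyTime F ∧ ∀ x w, ver V0 p x w = true →
      (∀ w', ver V0 p x w' = true → w' = w) → F x = w)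
    (V0 : List Bool → List Bool) (hV0 : PolyTime V0) (p B : Polynomial ℕ) :
    ∃ G : List Bool → List (List Bool), PolyTime (fun x => bits (G x)) ∧
      ∀ x, {w | ver V0 p x w = true}.ncard ≤ B.eval x.length →
        ∀ w, w ∈ G x ↔ ver V0 p x w = true := by
  classical
  obtain ⟨F, hF, hFu⟩ := H (fun y => [g2 V0 p y]) (polyTime_of_poly (g2_poly hV0 p)) p
  set Q : List Bool → ℕ := fun x => 2 * ((p.eval x.length + 1) * B.eval x.length + 4) + 1 with hQ
  set G : List Bool → List (List Bool) := fun x =>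
    ((List.range (Q x)).flatMap (fun q => (List.range (Q x)).map
      (fun a => F (bits (x, (q, a)))))).filter (fun w => ver V0 p x w) with hG
  have hF' : Poly F := PIso.poly_iff.2 hF
  have uQ : UPoly Q := by
    have u0 : UPoly (fun x : List Bool => x.length) := UPoly.length NPC.Poly.id
    exact ((UPoly.const 2).mul ((((u0.eval p).add (UPoly.const 1)).mul (u0.eval B)).add
      (UPoly.const 4))).add (UPoly.const 1)
  have hGp : Poly G := by
    rw [hG]
    refine NPC.Poly.filter (l := fun x => (List.range (Q x)).flatMap (fun q =>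
      (List.range (Q x)).map (fun a => F (bits (x, (q, a)))))) (p := fun x w => ver V0 p x w)
      ?_ (ver_poly hV0 p)
    refine NPC.Poly.flatMap (l := fun x => List.range (Q x)) (F := fun x q =>
      (List.range (Q x)).map (fun a => F (bits (x, (q, a))))) uQ.range ?_
    refine NPC.Poly.map (l := fun y : List Bool × ℕ => List.range (Q y.1))
      (F := fun y a => F (bits (y.1, (y.2, a)))) (uQ.comp (NPC.Poly.fst NPC.Poly.id)).range ?_
    exact hF'.comp (bits_poly.comp (NPC.Poly.pair (NPC.Poly.fst (NPC.Poly.fst NPC.Poly.id))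
      (NPC.Poly.pair (NPC.Poly.snd (NPC.Poly.fst NPC.Poly.id)) (NPC.Poly.snd NPC.Poly.id))))
  refine ⟨G, polyTime_bits hGp, fun x hx w => ?_⟩
  constructor
  · intro hw
    exact (List.mem_filter.1 hw).2
  · intro hw
    refine List.mem_filter.2 ⟨?_, hw⟩
    have hfin : {w | ver V0 p x w = true}.Finite := by
      refine (List.finite_length_le Bool (p.eval x.length)).subset fun w hw => ?_
      exact (ver_iff.1 hw).1
    set W : Finset (List Bool) := hfin.toFinset with hW
    have hWm : ∀ w, w ∈ W ↔ ver V0 p x w = true := fun w => by rw [hW]; simp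
    have hWc : W.card ≤ B.eval x.length := by
      rw [hW, ← Set.ncard_eq_toFinset_card _ hfin]
      exact hx
    obtain ⟨q, hq1, hq2, hq3⟩ := exists_sep W (p.eval x.length + 1) (B.eval x.length) hWc
      (fun w hw => by
        have := (ver_iff.1 ((hWm w).1 hw)).1
        omega) w ((hWm w).2 hw)
    have hqQ : q < Q x := by
      rw [hQ]; simp only; omega
    refine List.mem_flatMap.2 ⟨q, List.mem_range.2 hqQ, List.mem_map.2
      ⟨nb w % q, List.mem_range.2 ((Nat.mod_lt _ hq1).trans hqQ), ?_⟩⟩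
    refine hFu _ _ ((ver_g2 V0 p x q _ w).2 ⟨hw, rfl⟩) fun w' hw' => ?_
    have h := (ver_g2 V0 p x q _ w').1 hw'
    exact hq3 w' ((hWm w').2 h.1) h.2

end Pool.Agent.H579R2.Spt
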