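import Pool.Agent.H579R2.Spt.Npsv
import Pool.Agent.H579R2.Spt.Few

/-!
# Sparse sets in `NP` that are hard under threshold reductions
-/

namespace Pool.Agent.H579R2.Spt

open Pool.Agent.NPC Finset

attribute [local fun_prop] Poly.iadd Poly.imul Poly.ineg Poly.ilt Poly.ile Poly.isum

/-! ### Sorted lists -/

/-- strictly increasing codes -/
def incr (ys : List (List Bool)) : Bool :=
  (ys.zip ys.tail).all (fun q => decide (nb q.1 < nb q.2))

theorem incr_iff (ys : List (List Bool)) :
    incr ys = true ↔ ys.Pairwise (fun a b => nb a < nb b) := by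
  induction ys with
  | nil => simp [incr]
  | cons a l ih =>
    cases l with
    | nil => simp [incr]
    | cons b l =>
      have h1 : incr (a :: b :: l) = (decide (nb a < nb b) && incr (b :: l)) := by
        simp [incr]
      rw [h1, Bool.and_eq_true, decide_eq_true_eq, ih]
      constructor
      · rintro ⟨h2, h3⟩
        refine List.pairwise_cons.2 ⟨fun c hc => ?_, h3⟩
        rcases List.mem_cons.1 hc with rfl | hc
        · exact h2
        · exact h2.trans ((List.pairwise_cons.1 h3).1 c hc)
      · intro h
        obtain ⟨h2, h3⟩ := List.pairwise_cons.1 h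
        exact ⟨h2 b List.mem_cons_self, h3⟩

/-- the order of the codes -/
def nle (a b : List Bool) : Prop := nb a ≤ nb b

instance : DecidableRel nle := fun a b => inferInstanceAs (Decidable (nb a ≤ nb b))

instance : IsTrans (List Bool) nle := ⟨fun _ _ _ h h' => Nat.le_trans h h'⟩

instance : Std.Antisymm nle := ⟨fun _ _ h h' => nb_inj (Nat.le_antisymm h h')⟩

instance : Std.Total nle := ⟨fun a b => Nat.le_total (nb a) (nb b)⟩

theorem incr_nodup {ys : List (List Bool)} (h : incr ys = true) : ys.Nodup := by
  rw [incr_iff] at h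
  exact h.imp fun hab => by rintro rfl; exact absurd hab (lt_irrefl _)

theorem incr_eq_sort {ys : List (List Bool)} (h : incr ys = true) :
    Finset.sort ys.toFinset nle = ys := by
  rw [List.toFinset_sort nle (incr_nodup h)]
  rw [incr_iff] at h
  exact h.imp fun hab => Nat.le_of_lt hab

theorem incr_sort (s : Finset (List Bool)) : incr (Finset.sort s nle) = true := by
  rw [incr_iff]
  have h1 : (Finset.sort s nle).Pairwise nle := Finset.pairwise_sort s nle
  have h2 : (Finset.sort s nle).Nodup := Finset.sort_nodup s nle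
  have h3 := h1.and h2
  exact h3.imp fun {a b} hab => by
    rcases Nat.lt_or_ge (nb a) (nb b) with h | h
    · exact h
    · exact absurd (nb_inj (Nat.le_antisymm hab.1 h)) hab.2

theorem incr_poly {α : Type} [TEnc α] {ys : α → List (List Bool)} (h : Poly ys) :
    Poly (fun a => incr (ys a)) := by
  unfold incr
  refine NPC.Poly.all (l := fun a => (ys a).zip (ys a).tail)
    (p := fun _ q => decide (nb q.1 < nb q.2)) (NPC.Poly.zip h (NPC.Poly.tail h)) ?_
  have e1 : Poly (fun q : α × (List Bool × List Bool) => q.2.1) :=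
    NPC.Poly.fst (NPC.Poly.snd NPC.Poly.id)
  have e2 : Poly (fun q : α × (List Bool × List Bool) => q.2.2) :=
    NPC.Poly.snd (NPC.Poly.snd NPC.Poly.id)
  unfold nb cd
  exact NPC.Poly.decide_lt (NPC.Poly.valBits (NPC.Poly.append e1 (NPC.Poly.const _)))
    (NPC.Poly.valBits (NPC.Poly.append e2 (NPC.Poly.const _)))

/-! ### The census verifier -/

/-- the list coded by a bit string -/
def dl (y : List Bool) : List (List Bool) := (unbits (List (List Bool)) y).getD []

theorem dl_poly : Poly dl := NPC.Poly.optGetD poly_unbits (NPC.Poly.const [])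

theorem dl_bits (ys : List (List Bool)) : dl (bits ys) = ys := by
  unfold dl
  rw [unbits_bits]
  rfl

/-- `y` codes the increasing list of `k` members of `S` of length at most `N`, and `w` codes the
list of their witnesses, where `x` is the pair of `N` and `k` in unary. -/
def census1 (V : List Bool → List Bool) (p : Polynomial ℕ)
    (q : List Bool × (List Bool × List Bool)) : Bool :=
  (decide (bits (dl q.2.1) = q.2.1) && decide ((dl q.2.1).length = (unpair q.1).2.length)) &&
  (incr (dl q.2.1) && (((dl q.2.1).all (fun y => decide (y.length ≤ (unpair q.1).1.length))) &&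
    (decide ((dl q.2.2).length = (unpair q.1).2.length) &&
      ((dl q.2.1).zip (dl q.2.2)).all (fun t => ver V p t.1 t.2))))

theorem census1_poly {V : List Bool → List Bool} (hV : PolyTime V) (p : Polynomial ℕ) :
    Poly (census1 V p) := by
  have e1 : Poly (fun q : List Bool × (List Bool × List Bool) => q.1) := NPC.Poly.fst NPC.Poly.id
  have e2 : Poly (fun q : List Bool × (List Bool × List Bool) => q.2.1) :=
    NPC.Poly.fst (NPC.Poly.snd NPC.Poly.id)
  have e3 : Poly (fun q : List Bool × (List Bool × List Bool) => q.2.2) :=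
    NPC.Poly.snd (NPC.Poly.snd NPC.Poly.id)
  have d1 : Poly (fun q : List Bool × (List Bool × List Bool) => dl q.2.1) := dl_poly.comp e2
  have d2 : Poly (fun q : List Bool × (List Bool × List Bool) => dl q.2.2) := dl_poly.comp e3
  have u : Poly (fun q : List Bool × (List Bool × List Bool) => unpair q.1) := poly_unpair.comp e1
  refine NPC.Poly.and (NPC.Poly.and (NPC.Poly.decide_eq (bits_poly.comp d1) e2)
    (NPC.Poly.decide_eq (NPC.Poly.length d1) (NPC.Poly.length (NPC.Poly.snd u))))
    (NPC.Poly.and (incr_poly d1) (NPC.Poly.and ?_ (NPC.Poly.and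
      (NPC.Poly.decide_eq (NPC.Poly.length d2) (NPC.Poly.length (NPC.Poly.snd u))) ?_)))
  · refine NPC.Poly.all (l := fun q : List Bool × (List Bool × List Bool) => dl q.2.1)
      (p := fun q y => decide (y.length ≤ (unpair q.1).1.length)) d1 ?_
    exact NPC.Poly.decide_le (NPC.Poly.length (NPC.Poly.snd NPC.Poly.id))
      (NPC.Poly.length (NPC.Poly.fst (u.comp (NPC.Poly.fst NPC.Poly.id))))
  · refine NPC.Poly.all (l := fun q : List Bool × (List Bool × List Bool) =>
      (dl q.2.1).zip (dl q.2.2)) (p := fun _ t => ver V p t.1 t.2) (NPC.Poly.zip d1 d2) ?_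
    exact (ver_poly hV p).comp (NPC.Poly.snd NPC.Poly.id)

/-- the input coding `N` and `k` in unary -/
def enc2 (N k : ℕ) : List Bool := pairBits (List.replicate N true) (List.replicate k true)

theorem enc2_length (N k : ℕ) : N ≤ (enc2 N k).length := by
  unfold enc2 pairBits
  rw [List.length_append, List.length_flatMap]
  simp
  omega

theorem census1_iff {V : List Bool → List Bool} {p : Polynomial ℕ} {N k : ℕ}
    {y w : List Bool} : census1 V p (enc2 N k, (y, w)) = true ↔
      bits (dl y) = y ∧ (dl y).length = k ∧ incr (dl y) = true ∧ (∀ u ∈ dl y, u.length ≤ N) ∧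
        (dl w).length = k ∧ ∀ t ∈ (dl y).zip (dl w), ver V p t.1 t.2 = true := by
  unfold census1 enc2
  simp only [unpair_pairBits, List.length_replicate, Bool.and_eq_true, decide_eq_true_eq,
    List.all_eq_true]
  tauto

theorem exists_mem_zip {α β : Type} : ∀ {l : List α} {l' : List β}, l.length ≤ l'.length →
    ∀ a ∈ l, ∃ b, (a, b) ∈ l.zip l' := by
  intro l
  induction l with
  | nil => intro l' _ a ha; simp at ha
  | cons c l ih =>
    intro l' h a ha
    cases l' with
    | nil => simp at h
    | cons b l' =>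
      rcases List.mem_cons.1 ha with rfl | ha
      · exact ⟨b, by simp⟩
      · obtain ⟨b', hb'⟩ := ih (by simpa using h) a ha
        exact ⟨b', by rw [List.zip_cons_cons]; exact List.mem_cons_of_mem _ hb'⟩

/-- the members of `S` of length at most `N` -/
noncomputable def Sf (S : Set (List Bool)) (N : ℕ) : Finset (List Bool) :=
  (finite_strings S N).toFinset

theorem mem_Sf {S : Set (List Bool)} {N : ℕ} {y : List Bool} :
    y ∈ Sf S N ↔ y ∈ S ∧ y.length ≤ N := by
  unfold Sf
  rw [Set.Finite.mem_toFinset]
  rfl

theorem card_Sf (S : Set (List Bool)) (N : ℕ) : (Sf S N).card = census S N := by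
  unfold Sf census
  rw [Set.ncard_eq_toFinset_card _ (finite_strings S N)]

theorem exists_witnesses {V : List Bool → List Bool} {p : Polynomial ℕ} : ∀ l : List (List Bool),
    (∀ y ∈ l, ∃ w, ver V p y w = true) → ∃ ws : List (List Bool), ws.length = l.length ∧
      (∀ t ∈ l.zip ws, ver V p t.1 t.2 = true) ∧
      ∀ w ∈ ws, ∃ y ∈ l, w.length ≤ p.eval y.length := by
  intro l
  induction l with
  | nil => intro _; exact ⟨[], rfl, by simp, by simp⟩
  | cons y l ih =>
    intro h
    obtain ⟨ws, h1, h2, h3⟩ := ih fun y' hy' => h y' (List.mem_cons_of_mem _ hy')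
    obtain ⟨w, hw⟩ := h y List.mem_cons_self
    refine ⟨w :: ws, by simp [h1], ?_, ?_⟩
    · intro t ht
      rw [List.zip_cons_cons] at ht
      rcases List.mem_cons.1 ht with rfl | ht
      · exact hw
      · exact h2 t ht
    · intro w' hw'
      rcases List.mem_cons.1 hw' with rfl | hw'
      · exact ⟨y, List.mem_cons_self, (ver_iff.1 hw).1⟩
      · obtain ⟨y', hy', h4⟩ := h3 w' hw'
        exact ⟨y', List.mem_cons_of_mem _ hy', h4⟩

theorem eval_mono_le (p : Polynomial ℕ) {m n : ℕ} (h : m ≤ n) : p.eval m ≤ p.eval n :=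
  eval_mono p h

/-- The candidate lists for `S` up to length `N`. -/
theorem census_cands (A S : Set (List Bool)) (hA : NPHard A) (hSNP : InNP S) (hS : Sparse S)
    (d : ℕ → ℕ) (c : ℕ) (hd : ∃ q : Polynomial ℕ, ∀ n, d n ≤ q.eval n)
    (hred : ThresholdReduces A S d (fun _ => c)) :
    ∃ G : List Bool → List (List Bool), Poly G ∧
      ∀ N, bits (Finset.sort (Sf S N) nle) ∈ G (enc2 N (census S N)) := by
  classical
  obtain ⟨V, p, hV, hSV⟩ := hSNP
  obtain ⟨qS, hqS⟩ := hS
  have hS2 : ∀ y, y ∈ S ↔ ∃ w, ver V p y w = true := by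
    intro y
    rw [hSV y]
    exact exists_congr fun w => ver_iff.symm
  set P : Polynomial ℕ := qS * (Polynomial.C 4 * Polynomial.X + 2) +
    qS * (Polynomial.C 4 * p + 2) + 2 with hP
  obtain ⟨G, hG, hG2⟩ := npsv_search A S hA ⟨qS, hqS⟩ d c hd hred (census1_poly hV p) P
  refine ⟨G, hG, fun N => ?_⟩
  set ys : List (List Bool) := Finset.sort (Sf S N) nle with hys
  have hysm : ∀ y, y ∈ ys ↔ y ∈ S ∧ y.length ≤ N := by
    intro y
    rw [hys, Finset.mem_sort, mem_Sf]
  have hyl : ys.length = census S N := by
    rw [hys, Finset.length_sort, card_Sf]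
  have hPe : ∀ n, P.eval n = qS.eval n * (4 * n + 2) + qS.eval n * (4 * p.eval n + 2) + 2 := by
    intro n
    rw [hP]
    simp
  have hNx := enc2_length N (census S N)
  set x := enc2 N (census S N) with hx
  have hk : census S N ≤ qS.eval x.length := (hqS N).trans (eval_mono qS hNx)
  apply hG2
  · obtain ⟨ws, h1, h2, h3⟩ := exists_witnesses (V := V) (p := p) ys
      (fun y hy => (hS2 y).1 ((hysm y).1 hy).1)
    refine ⟨bits ws, ?_, ?_, ?_⟩
    · rw [bits_length]
      have h4 := sz_le_length_mul ys (4 * N + 1) (fun u hu => by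
        have := sz_listBool_le u
        have := ((hysm u).1 hu).2
        omega)
      rw [hPe]
      have h5 : ys.length * (4 * N + 1 + 1) ≤ qS.eval x.length * (4 * x.length + 2) := by
        rw [hyl]
        exact Nat.mul_le_mul hk (by omega)
      omega
    · rw [bits_length]
      have h4 := sz_le_length_mul ws (4 * p.eval N + 1) (fun u hu => by
        obtain ⟨y, hy, hl⟩ := h3 u hu
        have h5 := sz_listBool_le u
        have h6 := eval_mono p ((hysm y).1 hy).2
        omega)
      rw [hPe]
      have h5 : ws.length * (4 * p.eval N + 1 + 1) ≤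
          qS.eval x.length * (4 * p.eval x.length + 2) := by
        rw [h1, hyl]
        have := eval_mono p hNx
        exact Nat.mul_le_mul hk (by omega)
      omega
    · rw [hx, census1_iff, dl_bits, dl_bits]
      exact ⟨rfl, hyl, incr_sort _, fun u hu => ((hysm u).1 hu).2, h1.trans hyl, h2⟩
  · rintro y' w' ⟨_, _, h⟩
    rw [hx, census1_iff] at h
    obtain ⟨h1, h2, h3, h4, h5, h6⟩ := h
    have h7 : (dl y').toFinset ⊆ Sf S N := by
      intro u hu
      rw [List.mem_toFinset] at hu
      rw [mem_Sf]
      obtain ⟨b, hb⟩ := exists_mem_zip (l' := dl w') (by omega) u hu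
      exact ⟨(hS2 u).2 ⟨b, h6 _ hb⟩, h4 u hu⟩
    have h8 : (dl y').toFinset.card = (dl y').length := List.toFinset_card_of_nodup (incr_nodup h3)
    have h9 : (dl y').toFinset = Sf S N := by
      apply Finset.eq_of_subset_of_card_le h7
      rw [card_Sf, h8, h2]
    rw [← h1, ← incr_eq_sort h3, h9]

end Pool.Agent.H579R2.Spt
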