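import Pool.Agent.H579R2.Spt.Complete

/-!
# Sparse threshold-complete sets for `NP` give `P = NP`
-/

namespace Pool.Agent.H579R2.Spt

open Pool.Agent.NPC Finset

attribute [local fun_prop] Poly.iadd Poly.imul Poly.ineg Poly.ilt Poly.ile Poly.isum

/-- The value of a list of weighted conjunctions for the finite set `T`. -/
def valT (T : List (List Bool)) (m : List (ℤ × List (List Bool))) : ℤ :=
  (m.map (fun t => if (t.2.all (fun y => decide (y ∈ T))) = true then t.1 else 0)).sum

theorem valT_eq {S : Set (List Bool)} {T : List (List Bool)}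
    {m : List (ℤ × List (List Bool))} (h : ∀ t ∈ m, ∀ y ∈ t.2, (y ∈ T ↔ y ∈ S)) :
    valT T m = value S m := by
  classical
  unfold valT value
  congr 1
  refine List.map_congr_left fun t ht => ?_
  have h1 : (t.2.all (fun y => decide (y ∈ T)) = true) ↔ ∀ y ∈ t.2, y ∈ S := by
    rw [List.all_eq_true]
    simp only [decide_eq_true_eq]
    exact forall₂_congr fun y hy => h t ht y hy
  by_cases h2 : ∀ y ∈ t.2, y ∈ S
  · rw [if_pos (h1.2 h2), if_pos h2]
  · rw [if_neg (fun h3 => h2 (h1.1 h3)), if_neg h2]

theorem valT_poly {α : Type} [TEnc α] {T : α → List (List Bool)}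
    {m : α → List (ℤ × List (List Bool))} (hT : Poly T) (hm : Poly m) :
    Poly (fun a => valT (T a) (m a)) := by
  unfold valT
  refine Poly.isum (NPC.Poly.map (l := m)
    (F := fun a t => if (t.2.all (fun y => decide (y ∈ T a))) = true then t.1 else 0) hm ?_)
  have e1 : Poly (fun q : α × (ℤ × List (List Bool)) => q.2.1) :=
    NPC.Poly.fst (NPC.Poly.snd NPC.Poly.id)
  have e2 : Poly (fun q : α × (ℤ × List (List Bool)) => q.2.2) :=
    NPC.Poly.snd (NPC.Poly.snd NPC.Poly.id)
  have e3 : Poly (fun q : α × (ℤ × List (List Bool)) => T q.1) :=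
    hT.comp (NPC.Poly.fst NPC.Poly.id)
  refine NPC.Poly.ite (NPC.Poly.decide_bool (NPC.Poly.all
    (l := fun q : α × (ℤ × List (List Bool)) => q.2.2)
    (p := fun q y => decide (y ∈ T q.1)) e2 ?_)) e1 (NPC.Poly.const 0)
  refine (NPC.Poly.decide_mem (NPC.Poly.snd NPC.Poly.id)
    (e3.comp (NPC.Poly.fst NPC.Poly.id))).congr fun a => ?_
  exact decide_eq_decide.2 Iff.rfl

/-- one step of the greedy search -/
def gstep (V O : List Bool → Bool) (s : Option (List Bool) × List Bool) :
    Option (List Bool) × List Bool :=
  (if s.1.isSome then s.1 else (if V s.2 = true then some s.2 else none),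
    if O (s.2 ++ [true]) = true then s.2 ++ [true] else s.2 ++ [false])

/-- the greedy search -/
def gfind (V O : List Bool → Bool) (p : ℕ) : Bool := ((gstep V O)^[p + 1] (none, [])).1.isSome

theorem gstep_inv (V O : List Bool → Bool) (j : ℕ) :
    let s := (gstep V O)^[j] (none, [])
    s.2.length = j ∧ ∀ w, s.1 = some w → V w = true ∧ w.length ≤ j := by
  induction j with
  | zero => simp
  | succ j ih =>
    rw [Function.iterate_succ_apply']
    obtain ⟨h1, h2⟩ := ih
    set s := (gstep V O)^[j] (none, [])
    constructor
    · change (if O (s.2 ++ [true]) = true then s.2 ++ [true] else s.2 ++ [false]).length = j + 1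
      split_ifs <;> simp [h1]
    · intro w hw
      change (if s.1.isSome then s.1 else (if V s.2 = true then some s.2 else none)) = some w at hw
      split_ifs at hw with h3 h4
      · have := h2 w hw
        exact ⟨this.1, by omega⟩
      · simp only [Option.some.injEq] at hw
        subst hw
        exact ⟨h4, by omega⟩

theorem gfind_sound {V O : List Bool → Bool} {p : ℕ} (h : gfind V O p = true) :
    ∃ w, V w = true := by
  unfold gfind at h
  obtain ⟨w, hw⟩ := Option.isSome_iff_exists.1 h
  exact ⟨w, ((gstep_inv V O (p + 1)).2 w hw).1⟩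

theorem gfind_complete {V O : List Bool → Bool} {p : ℕ} (hV : ∀ w, V w = true → w.length ≤ p)
    (hO : ∀ u : List Bool, u.length ≤ p + 1 → (O u = true ↔ ∃ w, u <+: w ∧ V w = true))
    (hex : ∃ w, V w = true) : gfind V O p = true := by
  have key : ∀ j ≤ p + 1, ((gstep V O)^[j] (none, [])).1.isSome = true ∨
      ∃ w, ((gstep V O)^[j] (none, [])).2 <+: w ∧ V w = true := by
    intro j
    induction j with
    | zero =>
      intro _
      obtain ⟨w, hw⟩ := hex
      exact Or.inr ⟨w, by simp, hw⟩
    | succ j ih =>
      intro hj
      rw [Function.iterate_succ_apply']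
      obtain ⟨h1, _⟩ := gstep_inv V O j
      have h2 := ih (by omega)
      set s := (gstep V O)^[j] (none, [])
      change (if s.1.isSome then s.1 else (if V s.2 = true then some s.2 else none)).isSome = true ∨
        ∃ w, (if O (s.2 ++ [true]) = true then s.2 ++ [true] else s.2 ++ [false]) <+: w ∧ V w = true
      rcases h2 with h2 | ⟨w, hw1, hw2⟩
      · left; rw [if_pos h2]; exact h2
      · by_cases h3 : s.1.isSome = true
        · left; rw [if_pos h3]; exact h3
        · by_cases h4 : V s.2 = true
          · left; rw [if_neg h3, if_pos h4]; rfl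
          · right
            have h5 := hO (s.2 ++ [true]) (by simp [h1]; omega)
            by_cases h6 : O (s.2 ++ [true]) = true
            · rw [if_pos h6]
              exact h5.1 h6
            · rw [if_neg h6]
              obtain ⟨v, rfl⟩ := hw1
              cases v with
              | nil =>
                exfalso
                apply h4
                simpa using hw2
              | cons b v =>
                cases b
                · exact ⟨s.2 ++ false :: v, by simp, hw2⟩
                · exact absurd (h5.2 ⟨s.2 ++ true :: v, by simp, hw2⟩) h6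
  unfold gfind
  rcases key (p + 1) le_rfl with h | ⟨w, hw1, hw2⟩
  · exact h
  · exfalso
    have h1 := (gstep_inv V O (p + 1)).1
    have h2 := hw1.length_le
    have h3 := hV w hw2
    omega

theorem gfind_poly {α : Type} [TEnc α] {V O : α → List Bool → Bool} {p : α → ℕ}
    (hV : Poly (fun q : α × List Bool => V q.1 q.2))
    (hO : Poly (fun q : α × List Bool => O q.1 q.2)) (hp : UPoly p) :
    Poly (fun a => gfind (V a) (O a) (p a)) := by
  obtain ⟨qp', hqp'⟩ := Poly.sz_le hp
  have hple : ∀ a, p a ≤ qp'.eval (sz a) := by
    intro a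
    have h1 := hqp' a
    have h2 := length_lt_sz (List.replicate (p a) ())
    rw [List.length_replicate] at h2
    omega
  have e1 : Poly (fun q : α × (Option (List Bool) × List Bool) => q.1) :=
    NPC.Poly.fst NPC.Poly.id
  have e2 : Poly (fun q : α × (Option (List Bool) × List Bool) => q.2.1) :=
    NPC.Poly.fst (NPC.Poly.snd NPC.Poly.id)
  have e3 : Poly (fun q : α × (Option (List Bool) × List Bool) => q.2.2) :=
    NPC.Poly.snd (NPC.Poly.snd NPC.Poly.id)
  have hstep : Poly (fun q : α × (Option (List Bool) × List Bool) => gstep (V q.1) (O q.1) q.2) := by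
    refine NPC.Poly.pair ?_ ?_
    · exact NPC.Poly.ite (NPC.Poly.decide_bool (NPC.Poly.isSome e2)) e2
        (NPC.Poly.ite (NPC.Poly.decide_bool (hV.comp (NPC.Poly.pair e1 e3)))
          (NPC.Poly.some e3) (NPC.Poly.const none))
    · have e4 : Poly (fun q : α × (Option (List Bool) × List Bool) => q.2.2 ++ [true]) :=
        NPC.Poly.append e3 (NPC.Poly.const _)
      exact NPC.Poly.ite (NPC.Poly.decide_bool (hO.comp (NPC.Poly.pair e1 e4))) e4
        (NPC.Poly.append e3 (NPC.Poly.const _))
  have h1 := NPC.Poly.iterLen (l := fun a => List.replicate (p a + 1) ())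
    (s := fun _ : α => ((none, []) : Option (List Bool) × List Bool))
    (F := fun a s => gstep (V a) (O a) s) (hp.add (UPoly.const 1))
    (NPC.Poly.const _) hstep (Polynomial.C 8 * qp' + 32) (by
      intro a k hk
      rw [List.length_replicate] at hk
      obtain ⟨h2, h3⟩ := gstep_inv (V a) (O a) k
      set s := (gstep (V a) (O a))^[k] (none, [])
      have h4 := sz_listBool_le s.2
      have h6 : sz s = sz s.1 + sz s.2 + 1 := sz_pair _ _
      have h8 := hple a
      have h12 : sz s.1 ≤ 4 * k + 3 := by
        cases hs : s.1 with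
        | none => rw [sz_none]; omega
        | some w =>
          rw [sz_some]
          have := sz_listBool_le w
          have := (h3 w hs).2
          omega
      simp only [Polynomial.eval_add, Polynomial.eval_mul, Polynomial.eval_C,
        Polynomial.eval_ofNat]
      rw [h2] at h4
      omega)
  have h2 := NPC.Poly.isSome (NPC.Poly.fst h1)
  refine h2.congr fun a => ?_
  rw [List.length_replicate]
  rfl

/-- Unary numbers as lists of `true`. -/
theorem replicate_true_poly {α : Type} [TEnc α] {n : α → ℕ} (hn : UPoly n) :
    Poly (fun a => List.replicate (n a) true) := by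
  have h : Poly (fun a => (List.replicate (n a) ()).map (fun _ => true)) :=
    NPC.Poly.map (l := fun a => List.replicate (n a) ()) (F := fun _ _ => true) hn
      (NPC.Poly.const true)
  refine h.congr fun a => ?_
  rw [List.map_replicate]

theorem enc2_poly {α : Type} [TEnc α] {m n : α → ℕ} (hm : UPoly m) (hn : UPoly n) :
    Poly (fun a => enc2 (m a) (n a)) := by
  have h1 : Poly (fun q : List Bool × List Bool => pairBits q.1 q.2) := by
    unfold pairBits
    fun_prop
  exact h1.comp (NPC.Poly.pair (replicate_true_poly hm) (replicate_true_poly hn))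

/-- **Sparse sets in `NP` that are hard for `NP` under threshold reductions give `P = NP`.** -/
theorem complete_main (A S : Set (List Bool)) (hA : NPHard A) (hSNP : InNP S) (hS : Sparse S)
    (d : ℕ → ℕ) (c : ℕ) (hd : ∃ q : Polynomial ℕ, ∀ n, d n ≤ q.eval n)
    (hred : ThresholdReduces A S d (fun _ => c)) (L : Set (List Bool)) (hL : InNP L) : InP L := by
  classical
  obtain ⟨G, hG, hGS⟩ := census_cands A S hA hSNP hS d c hd hred
  obtain ⟨qS, hqS⟩ := hS
  obtain ⟨V0, p, hV0, hLV⟩ := hL
  have hL2 : ∀ x, x ∈ L ↔ ∃ w, ver V0 p x w = true := by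
    intro x
    rw [hLV x]
    exact exists_congr fun w => ver_iff.symm
  obtain ⟨f, hf, hfA⟩ := hA _ (below_inNP hV0 p)
  obtain ⟨r, hr, hrS⟩ := hred
  have hrp : Poly (fun a : List Bool × List (List Bool) => r (f (bits a))) :=
    (poly_of_polyTime_bits hr).comp ((PIso.poly_iff.2 hf).comp bits_poly)
  obtain ⟨p2, hp2⟩ := hrp.sz_le
  set pN : Polynomial ℕ := p2.comp (Polynomial.C 4 * Polynomial.X + Polynomial.C 4 * p + 12)
    with hpN
  have epN : ∀ n, pN.eval n = p2.eval (4 * n + 4 * p.eval n + 12) := by
    intro n
    rw [hpN, Polynomial.eval_comp]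
    simp
  set O : (List Bool × List (List Bool)) → List Bool → Bool :=
    fun a u => decide (0 < valT a.2 (r (f (bits (a.1, [u]))))) with hO
  set D : List Bool → List (List Bool) → Bool :=
    fun x T => gfind (ver V0 p x) (O (x, T)) (p.eval x.length) with hD
  set B : List Bool → ℕ := fun x => qS.eval (pN.eval x.length) with hB
  set dec : List Bool → Bool := fun x => (List.range (B x + 1)).any (fun k =>
    (G (enc2 (pN.eval x.length) (min k (B x)))).any (fun y => D x (dl y))) with hdec
  -- polynomial time
  have u0 : UPoly (fun x : List Bool => x.length) := UPoly.length NPC.Poly.id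
  have uN : UPoly (fun x : List Bool => pN.eval x.length) := u0.eval pN
  have uB : UPoly B := uN.eval qS
  have hDp : Poly (fun q : List Bool × List (List Bool) => D q.1 q.2) := by
    refine gfind_poly (V := fun q : List Bool × List (List Bool) => ver V0 p q.1)
      (O := fun q => O (q.1, q.2)) (p := fun q => p.eval q.1.length) ?_ ?_ ?_
    · exact (ver_poly hV0 p).comp (NPC.Poly.pair (NPC.Poly.fst (NPC.Poly.fst NPC.Poly.id))
        (NPC.Poly.snd NPC.Poly.id))
    · have e1 : Poly (fun q : (List Bool × List (List Bool)) × List Bool => q.1.1) :=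
        NPC.Poly.fst (NPC.Poly.fst NPC.Poly.id)
      have e2 : Poly (fun q : (List Bool × List (List Bool)) × List Bool => q.1.2) :=
        NPC.Poly.snd (NPC.Poly.fst NPC.Poly.id)
      have e3 : Poly (fun q : (List Bool × List (List Bool)) × List Bool => [q.2]) :=
        NPC.Poly.cons (NPC.Poly.snd NPC.Poly.id) (NPC.Poly.const [])
      exact Poly.ilt (NPC.Poly.const 0) (valT_poly e2 (hrp.comp (NPC.Poly.pair e1 e3)))
    · exact u0.comp (NPC.Poly.fst NPC.Poly.id) |>.eval p
  have hdp : Poly dec := by
    refine NPC.Poly.any (l := fun x => List.range (B x + 1))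
      (p := fun x k => (G (enc2 (pN.eval x.length) (min k (B x)))).any (fun y => D x (dl y)))
      (uB.add (UPoly.const 1)).range ?_
    have e1 : Poly (fun q : List Bool × ℕ => q.1) := NPC.Poly.fst NPC.Poly.id
    have e2 : Poly (fun q : List Bool × ℕ => q.2) := NPC.Poly.snd NPC.Poly.id
    have u3 : UPoly (fun q : List Bool × ℕ => min q.2 (B q.1)) :=
      UPoly.of_le (NPC.Poly.min e2 (uB.comp e1).toPoly) (uB.comp e1) (fun _ => min_le_right _ _)
    refine NPC.Poly.any (l := fun q : List Bool × ℕ =>
      G (enc2 (pN.eval q.1.length) (min q.2 (B q.1)))) (p := fun q y => D q.1 (dl y))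
      (hG.comp (enc2_poly (uN.comp e1) u3)) ?_
    exact hDp.comp (NPC.Poly.pair (e1.comp (NPC.Poly.fst NPC.Poly.id))
      (dl_poly.comp (NPC.Poly.snd NPC.Poly.id)))
  refine ⟨fun x => [dec x], polyTime_of_poly hdp, fun x => ?_⟩
  rw [hL2 x]
  constructor
  · intro hex
    have hk : census S (pN.eval x.length) ≤ B x := hqS _
    have h1 : dec x = true := by
      rw [hdec]
      simp only [List.any_eq_true]
      refine ⟨census S (pN.eval x.length), List.mem_range.2 (by omega),
        bits (Finset.sort (Sf S (pN.eval x.length)) nle), ?_, ?_⟩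
      · rw [min_eq_left hk]
        exact hGS _
      · rw [dl_bits]
        refine gfind_complete (fun w hw => (ver_iff.1 hw).1) (fun u hu => ?_) hex
        rw [hO]
        simp only [decide_eq_true_eq]
        have hsz : sz (x, [u]) ≤ 4 * x.length + 4 * p.eval x.length + 12 := by
          rw [sz_pair, sz_list_cons, sz_list_nil]
          have h2 := sz_listBool_le x
          have h3 := sz_listBool_le u
          omega
        have hsz2 : sz (r (f (bits (x, [u])))) ≤ pN.eval x.length := by
          rw [epN]
          exact (hp2 (x, [u])).trans (eval_mono p2 hsz)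
        rw [valT_eq (S := S)]
        · rw [← (hrS (f (bits (x, [u])))).2.2, ← hfA, bits_mem_lang]
          constructor
          · rintro ⟨v, hv, w, hw1, hw2⟩
            rw [List.mem_singleton] at hv
            subst hv
            exact ⟨w, hw1, hw2⟩
          · rintro ⟨w, hw1, hw2⟩
            exact ⟨u, List.mem_singleton_self u, w, hw1, hw2⟩
        · intro t ht y hy
          rw [Finset.mem_sort, mem_Sf]
          have e1 : sz t < sz (r (f (bits (x, [u])))) := sz_le_of_mem ht
          have e2 : sz y < sz t.2 := sz_le_of_mem hy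
          have e3 : sz t.2 < sz t := by
            have g1 : sz t = sz t.1 + sz t.2 + 1 := sz_pair t.1 t.2
            have g2 := sz_pos t.1
            omega
          have e4 : y.length < sz y := length_lt_sz y
          constructor
          · exact fun h => h.1
          · exact fun h => ⟨h, by omega⟩
    change [dec x] = [true]
    rw [h1]
  · intro h
    have h1 : dec x = true := by simpa using h
    rw [hdec] at h1
    simp only [List.any_eq_true] at h1
    obtain ⟨k, _, y, _, h2⟩ := h1
    exact gfind_sound h2

end Pool.Agent.H579R2.Spt
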