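import Mathlib

/-!
# Integer combinations of features and the perceptron

A formal integer combination of features of type `F` is a list of pairs (coefficient, feature).
-/

namespace Pool.Agent.H579R2.Spt

open Finset

variable {F : Type} [DecidableEq F]

/-- The inner product of two formal integer combinations of features. -/
def dot (r w : List (ℤ × F)) : ℤ :=
  (r.map (fun a => (w.map (fun b => if a.2 = b.2 then a.1 * b.1 else 0)).sum)).sum

omit [DecidableEq F] in
/-- The value of a formal combination when feature `Q` has value `z Q`. -/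
def ev (z : F → ℤ) (r : List (ℤ × F)) : ℤ := (r.map (fun a => a.1 * z a.2)).sum

/-- The total coefficient of a feature. -/
def val (r : List (ℤ × F)) (Q : F) : ℤ := (r.map (fun a => if a.2 = Q then a.1 else 0)).sum

omit [DecidableEq F] in
/-- The total absolute weight. -/
def wt (r : List (ℤ × F)) : ℕ := (r.map (fun a => a.1.natAbs)).sum

@[simp] theorem dot_nil_left (w : List (ℤ × F)) : dot [] w = 0 := rfl

theorem dot_cons_left (a : ℤ × F) (r w : List (ℤ × F)) :
    dot (a :: r) w = (w.map (fun b => if a.2 = b.2 then a.1 * b.1 else 0)).sum + dot r w := by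
  simp [dot]

theorem dot_append_left (r r' w : List (ℤ × F)) : dot (r ++ r') w = dot r w + dot r' w := by
  simp [dot]

theorem inner_eq (a : ℤ × F) (w : List (ℤ × F)) :
    (w.map (fun b => if a.2 = b.2 then a.1 * b.1 else 0)).sum = a.1 * val w a.2 := by
  induction w with
  | nil => simp [val]
  | cons b w ih =>
    have e : val (b :: w) a.2 = (if b.2 = a.2 then b.1 else 0) + val w a.2 := by simp [val]
    rw [List.map_cons, List.sum_cons, ih, e]
    by_cases h : a.2 = b.2
    · rw [if_pos h, if_pos h.symm]; ring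
    · rw [if_neg h, if_neg (fun h' => h h'.symm)]; ring

theorem val_cons (a : ℤ × F) (r : List (ℤ × F)) (Q : F) :
    val (a :: r) Q = (if a.2 = Q then a.1 else 0) + val r Q := by simp [val]

theorem val_append (r r' : List (ℤ × F)) (Q : F) : val (r ++ r') Q = val r Q + val r' Q := by
  simp [val]

omit [DecidableEq F] in
theorem ev_append (z : F → ℤ) (r r' : List (ℤ × F)) : ev z (r ++ r') = ev z r + ev z r' := by
  simp [ev]

theorem dot_eq (Ω : Finset F) (r w : List (ℤ × F)) (h : ∀ a ∈ r, a.2 ∈ Ω) :
    dot r w = ∑ Q ∈ Ω, val r Q * val w Q := by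
  induction r with
  | nil => simp [val]
  | cons a r ih =>
    rw [dot_cons_left, inner_eq, ih (fun b hb => h b (List.mem_cons_of_mem _ hb))]
    have e : ∀ Q, val (a :: r) Q * val w Q =
        (if a.2 = Q then a.1 * val w Q else 0) + val r Q * val w Q := by
      intro Q
      rw [val_cons, add_mul]
      by_cases hQ : a.2 = Q <;> simp [hQ]
    rw [Finset.sum_congr rfl (fun Q _ => e Q), Finset.sum_add_distrib,
      Finset.sum_ite_eq Ω a.2 (fun Q => a.1 * val w Q), if_pos (h a (List.mem_cons_self))]

theorem ev_eq (Ω : Finset F) (z : F → ℤ) (r : List (ℤ × F)) (h : ∀ a ∈ r, a.2 ∈ Ω) :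
    ev z r = ∑ Q ∈ Ω, val r Q * z Q := by
  induction r with
  | nil => simp [val, ev]
  | cons a r ih =>
    have e1 : ev z (a :: r) = a.1 * z a.2 + ev z r := by simp [ev]
    rw [e1, ih (fun b hb => h b (List.mem_cons_of_mem _ hb))]
    have e : ∀ Q, val (a :: r) Q * z Q =
        (if a.2 = Q then a.1 * z Q else 0) + val r Q * z Q := by
      intro Q
      rw [val_cons, add_mul]
      by_cases hQ : a.2 = Q <;> simp [hQ]
    rw [Finset.sum_congr rfl (fun Q _ => e Q), Finset.sum_add_distrib,
      Finset.sum_ite_eq Ω a.2 (fun Q => a.1 * z Q), if_pos (h a (List.mem_cons_self))]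

/-- the finset of the features occurring in a combination -/
def supp (r : List (ℤ × F)) : Finset F := (r.map Prod.snd).toFinset

theorem mem_supp {r : List (ℤ × F)} {a : ℤ × F} (h : a ∈ r) : a.2 ∈ supp r := by
  simp only [supp, List.mem_toFinset, List.mem_map]
  exact ⟨a, h, rfl⟩

theorem dot_comm (r w : List (ℤ × F)) : dot r w = dot w r := by
  rw [dot_eq (supp r ∪ supp w) r w (fun a ha => Finset.mem_union_left _ (mem_supp ha)),
    dot_eq (supp r ∪ supp w) w r (fun a ha => Finset.mem_union_right _ (mem_supp ha))]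
  exact Finset.sum_congr rfl fun Q _ => mul_comm _ _

theorem dot_append_right (r w w' : List (ℤ × F)) : dot r (w ++ w') = dot r w + dot r w' := by
  rw [dot_comm, dot_append_left, dot_comm w, dot_comm w']

theorem dot_self_nonneg (r : List (ℤ × F)) : 0 ≤ dot r r := by
  rw [dot_eq (supp r) r r (fun a ha => mem_supp ha)]
  exact Finset.sum_nonneg fun Q _ => mul_self_nonneg _

theorem abs_val_le (r : List (ℤ × F)) (Q : F) : |val r Q| ≤ wt r := by
  induction r with
  | nil => simp [val, wt]
  | cons a r ih =>
    rw [val_cons]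
    have e : (wt (a :: r) : ℤ) = |a.1| + wt r := by simp [wt]
    rw [e]
    refine (abs_add_le _ _).trans (add_le_add ?_ ih)
    split_ifs
    · exact le_rfl
    · simp

theorem dot_le (r w : List (ℤ × F)) : dot r w ≤ wt r * wt w := by
  induction r with
  | nil => simp [wt]
  | cons a r ih =>
    rw [dot_cons_left, inner_eq]
    have e : (wt (a :: r) : ℤ) = |a.1| + wt r := by simp [wt]
    rw [e, add_mul]
    refine add_le_add ?_ ih
    calc a.1 * val w a.2 ≤ |a.1 * val w a.2| := le_abs_self _
      _ = |a.1| * |val w a.2| := abs_mul _ _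
      _ ≤ |a.1| * wt w := mul_le_mul_of_nonneg_left (abs_val_le _ _) (abs_nonneg _)

/-! ### The perceptron -/

/-- One step of the perceptron: find a row on which the current vector is not positive, and add
it. -/
def step (D : List (List (ℤ × F))) (w : List (ℤ × F)) : List (ℤ × F) :=
  ((D.filter (fun r => decide (dot r w ≤ 0))).head?).elim w (fun r => r ++ w)

/-- The perceptron after `n` steps. -/
def run (D : List (List (ℤ × F))) (n : ℕ) : List (ℤ × F) := (step D)^[n] []

/-- Is the vector found after `n` steps positive on all rows? -/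
def ok (D : List (List (ℤ × F))) (n : ℕ) : Bool := D.all (fun r => decide (0 < dot r (run D n)))

theorem step_cases (D : List (List (ℤ × F))) (w : List (ℤ × F)) :
    ((∀ r ∈ D, 0 < dot r w) ∧ step D w = w) ∨ (∃ r ∈ D, dot r w ≤ 0 ∧ step D w = r ++ w) := by
  cases h : (D.filter (fun r => decide (dot r w ≤ 0))).head? with
  | none =>
    left
    have h1 : D.filter (fun r => decide (dot r w ≤ 0)) = [] := by simpa using h
    refine ⟨fun r hr => ?_, by rw [step, h]; rfl⟩
    by_contra hc
    have h2 : r ∈ D.filter (fun r => decide (dot r w ≤ 0)) := by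
      rw [List.mem_filter]; exact ⟨hr, by simpa using not_lt.1 hc⟩
    rw [h1] at h2
    exact absurd h2 (by simp)
  | some r =>
    right
    have h1 : r ∈ D.filter (fun r => decide (dot r w ≤ 0)) := List.mem_of_head? h
    rw [List.mem_filter] at h1
    exact ⟨r, h1.1, by simpa using h1.2, by rw [step, h]; rfl⟩

theorem run_succ (D : List (List (ℤ × F))) (n : ℕ) : run D (n + 1) = step D (run D n) :=
  Function.iterate_succ_apply' _ _ _

theorem ok_iff (D : List (List (ℤ × F))) (n : ℕ) : ok D n = true ↔ ∀ r ∈ D, 0 < dot r (run D n) := by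
  simp [ok]

theorem run_supp (D : List (List (ℤ × F))) (Ω : Finset F) (h : ∀ r ∈ D, ∀ a ∈ r, a.2 ∈ Ω) (n : ℕ) :
    ∀ a ∈ run D n, a.2 ∈ Ω := by
  induction n with
  | zero => intro a ha; simp [run] at ha
  | succ n ih =>
    rw [run_succ]
    rcases step_cases D (run D n) with ⟨_, h2⟩ | ⟨r, hr, _, h2⟩
    · rw [h2]; exact ih
    · rw [h2]
      intro a ha
      rcases List.mem_append.1 ha with h3 | h3
      · exact h r hr a h3
      · exact ih a h3

/-- The squared norm of the perceptron vector grows linearly. -/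
theorem run_norm (D : List (List (ℤ × F))) (R : ℤ) (hR0 : 0 ≤ R) (hR : ∀ r ∈ D, dot r r ≤ R) (n : ℕ) :
    dot (run D n) (run D n) ≤ n * R := by
  induction n with
  | zero => simp [run]
  | succ n ih =>
    rw [run_succ]
    push_cast
    rcases step_cases D (run D n) with ⟨_, h2⟩ | ⟨r, hr, h1, h2⟩
    · rw [h2]; linarith
    · rw [h2, dot_append_left, dot_append_right, dot_append_right, dot_comm (run D n) r]
      have := hR r hr
      linarith

/-- Either the perceptron has found a solution or it has made progress in every step. -/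
theorem run_progress (D : List (List (ℤ × F))) (z : F → ℤ) (hz : ∀ r ∈ D, 1 ≤ ev z r) (n : ℕ) :
    ok D n = true ∨ (n : ℤ) ≤ ev z (run D n) := by
  induction n with
  | zero => right; simp [run, ev]
  | succ n ih =>
    rcases step_cases D (run D n) with ⟨h1, h2⟩ | ⟨r, hr, h1, h2⟩
    · left
      rw [ok_iff, run_succ, h2]
      exact h1
    · rcases ih with ih | ih
      · exact absurd ((ok_iff D n).1 ih r hr) (not_lt.2 h1)
      · right
        rw [run_succ, h2, ev_append]
        push_cast
        have := hz r hr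
        linarith

/-- **Mistake bound**: a realizable system with margin one is solved after more than `R * Z`
steps. -/
theorem ok_of_realizable (D : List (List (ℤ × F))) (z : F → ℤ) (hz : ∀ r ∈ D, 1 ≤ ev z r)
    (R Z : ℤ) (hR0 : 0 ≤ R) (hR : ∀ r ∈ D, dot r r ≤ R) (Ω : Finset F)
    (hΩ : ∀ r ∈ D, ∀ a ∈ r, a.2 ∈ Ω) (hZ : ∑ Q ∈ Ω, z Q * z Q ≤ Z) (n : ℕ) (hn : R * Z < n) :
    ok D n = true := by
  rcases run_progress D z hz n with h | h
  · exact h
  · exfalso
    have h1 := run_norm D R hR0 hR n
    have h2 := run_supp D Ω hΩ n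
    rw [ev_eq Ω z _ h2] at h
    rw [dot_eq Ω _ _ h2] at h1
    have h3 : (∑ Q ∈ Ω, val (run D n) Q * z Q) ^ 2 ≤
        (∑ Q ∈ Ω, val (run D n) Q ^ 2) * ∑ Q ∈ Ω, z Q ^ 2 := Finset.sum_mul_sq_le_sq_mul_sq _ _ _
    have h4 : (∑ Q ∈ Ω, val (run D n) Q ^ 2) ≤ n * R := by
      refine le_trans (le_of_eq ?_) h1
      exact Finset.sum_congr rfl fun Q _ => sq _
    have h5 : (∑ Q ∈ Ω, z Q ^ 2) ≤ Z := by
      refine le_trans (le_of_eq ?_) hZ
      exact Finset.sum_congr rfl fun Q _ => sq _
    have h6 : 0 ≤ ∑ Q ∈ Ω, z Q ^ 2 := Finset.sum_nonneg fun Q _ => sq_nonneg _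
    have h7 : (n : ℤ) ^ 2 ≤ (n * R) * Z := by
      have a1 : (n : ℤ) ^ 2 ≤ (∑ Q ∈ Ω, val (run D n) Q * z Q) ^ 2 := by
        have : (0 : ℤ) ≤ n := Int.natCast_nonneg n
        nlinarith
      have a2 : (∑ Q ∈ Ω, val (run D n) Q ^ 2) * ∑ Q ∈ Ω, z Q ^ 2 ≤ (n * R) * Z := by
        have : (0 : ℤ) ≤ n * R := mul_nonneg (Int.natCast_nonneg n) hR0
        exact mul_le_mul h4 h5 h6 this
      linarith
    have h8 : (0 : ℤ) < n := lt_of_le_of_lt (mul_nonneg hR0 (h6.trans h5)) hn
    nlinarith

/-- negate the coefficients if the label is `false` -/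
def sc (h : Bool) (r : List (ℤ × F)) : List (ℤ × F) :=
  if h then r else r.map (fun a => (-a.1, a.2))

omit [DecidableEq F] in
theorem ev_sc (z : F → ℤ) (h : Bool) (r : List (ℤ × F)) :
    ev z (sc h r) = if h then ev z r else -ev z r := by
  cases h
  · simp only [sc, Bool.false_eq_true, if_false]
    induction r with
    | nil => simp [ev]
    | cons a r ih =>
      simp only [ev, List.map_cons, List.sum_cons, List.map_map] at ih ⊢
      rw [ih]; simp; ring
  · simp [sc]

theorem val_sc (h : Bool) (r : List (ℤ × F)) (Q : F) :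
    val (sc h r) Q = if h then val r Q else -val r Q := by
  cases h
  · simp only [sc, Bool.false_eq_true, if_false]
    induction r with
    | nil => simp [val]
    | cons a r ih =>
      rw [List.map_cons, val_cons, ih, val_cons]
      split_ifs <;> ring
  · simp [sc]

theorem supp_sc (h : Bool) (r : List (ℤ × F)) (Ω : Finset F) (hr : ∀ a ∈ r, a.2 ∈ Ω) :
    ∀ a ∈ sc h r, a.2 ∈ Ω := by
  cases h
  · intro a ha
    simp only [sc, Bool.false_eq_true, if_false, List.mem_map] at ha
    obtain ⟨b, hb, rfl⟩ := ha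
    exact hr b hb
  · simpa [sc] using hr

theorem dot_sc_left (h : Bool) (r w : List (ℤ × F)) :
    dot (sc h r) w = if h then dot r w else -dot r w := by
  have h1 : ∀ a ∈ r, a.2 ∈ supp r := fun a ha => mem_supp ha
  rw [dot_eq (supp r) (sc h r) w (supp_sc h r _ h1), dot_eq (supp r) r w h1]
  cases h
  · simp only [val_sc, Bool.false_eq_true, if_false, neg_mul, Finset.sum_neg_distrib]
  · simp only [val_sc, if_true]

theorem dot_sc_sc (h : Bool) (r : List (ℤ × F)) : dot (sc h r) (sc h r) = dot r r := by
  rw [dot_sc_left, dot_comm r, dot_sc_left]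
  cases h <;> simp

end Pool.Agent.H579R2.Spt
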