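import Pool.Agent.H579R2.Spt.Core

/-!
# The parity matrix and the counting lemma
-/

namespace Pool.Agent.H579R2.Spt

open Finset

/-- The parity of the bitwise product of two natural numbers. -/
def par (a b : ℕ) : Bool := (a.bits.zip b.bits).foldr (fun p s => xor (p.1 && p.2) s) false

@[simp] theorem par_zero_left (b : ℕ) : par 0 b = false := by simp [par]

@[simp] theorem par_zero_right (a : ℕ) : par a 0 = false := by simp [par]

theorem par_bit (e e' : Bool) (a b : ℕ) :
    par (Nat.bit e a) (Nat.bit e' b) = xor (e && e') (par a b) := by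
  by_cases h : a = 0 ∧ e = false
  · obtain ⟨rfl, rfl⟩ := h
    have : Nat.bit false 0 = 0 := rfl
    rw [this]; simp
  · by_cases h' : b = 0 ∧ e' = false
    · obtain ⟨rfl, rfl⟩ := h'
      have : Nat.bit false 0 = 0 := rfl
      rw [this]; simp
    · have h1 : (Nat.bit e a).bits = e :: a.bits := Nat.bits_append_bit a e (fun h0 => by
        by_contra hc
        exact h ⟨h0, by simpa using hc⟩)
      have h2 : (Nat.bit e' b).bits = e' :: b.bits := Nat.bits_append_bit b e' (fun h0 => by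
        by_contra hc
        exact h' ⟨h0, by simpa using hc⟩)
      simp [par, h1, h2]

/-- the sign of a boolean -/
def sgn (b : Bool) : ℤ := if b then 1 else -1

theorem sgn_xor_mul (e x e' y : Bool) :
    sgn (xor e x) * sgn (xor e' y) = (sgn x * sgn y) * (if e = e' then 1 else -1) := by
  cases e <;> cases x <;> cases e' <;> cases y <;> simp [sgn]

theorem sgn_mul_self (x : Bool) : sgn x * sgn x = 1 := by cases x <;> simp [sgn]

theorem sum_range_two_mul (n : ℕ) (f : ℕ → ℤ) :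
    ∑ i ∈ range (2 * n), f i = ∑ i ∈ range n, (f (2 * i) + f (2 * i + 1)) := by
  induction n with
  | zero => simp
  | succ n ih =>
    have : 2 * (n + 1) = 2 * n + 1 + 1 := by ring
    rw [this, Finset.sum_range_succ, Finset.sum_range_succ, ih, Finset.sum_range_succ]
    ring

/-- The columns of the parity matrix are orthogonal. -/
theorem par_orth (k : ℕ) : ∀ a b : ℕ, a < 2 ^ k → b < 2 ^ k → a ≠ b →
    ∑ i ∈ range (2 ^ k), sgn (par i a) * sgn (par i b) = 0 := by
  induction k with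
  | zero => intro a b ha hb hab; simp at ha hb; omega
  | succ k ih =>
    intro a b ha hb hab
    have hk : 2 ^ (k + 1) = 2 * 2 ^ k := by ring
    rw [hk, sum_range_two_mul]
    obtain ⟨e, a', rfl⟩ : ∃ e a', a = Nat.bit e a' := ⟨a.bodd, a.div2, (Nat.bit_bodd_div2 a).symm⟩
    obtain ⟨e', b', rfl⟩ : ∃ e b', b = Nat.bit e b' := ⟨b.bodd, b.div2, (Nat.bit_bodd_div2 b).symm⟩
    have e1 : ∀ i : ℕ, 2 * i = Nat.bit false i := fun i => by simp [Nat.bit_val]
    have e2 : ∀ i : ℕ, 2 * i + 1 = Nat.bit true i := fun i => by simp [Nat.bit_val]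
    have ha' : a' < 2 ^ k := by
      rw [Nat.bit_val] at ha
      have := Nat.zero_le e.toNat
      omega
    have hb' : b' < 2 ^ k := by
      rw [Nat.bit_val] at hb
      have := Nat.zero_le e'.toNat
      omega
    have key : ∀ i : ℕ, sgn (par (2 * i) (Nat.bit e a')) * sgn (par (2 * i) (Nat.bit e' b')) +
        sgn (par (2 * i + 1) (Nat.bit e a')) * sgn (par (2 * i + 1) (Nat.bit e' b')) =
        (sgn (par i a') * sgn (par i b')) * (1 + if e = e' then 1 else -1) := by
      intro i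
      rw [e2 i, e1 i, par_bit, par_bit, par_bit, par_bit, sgn_xor_mul, sgn_xor_mul]
      simp only [Bool.false_and, Bool.true_and, if_true]
      ring
    rw [Finset.sum_congr rfl (fun i _ => key i), ← Finset.sum_mul]
    by_cases he : e = e'
    · subst he
      have hne : a' ≠ b' := fun h => hab (by rw [h])
      rw [ih a' b' ha' hb' hne, zero_mul]
    · rw [if_neg he]; simp

theorem par_norm (k a : ℕ) : ∑ i ∈ range (2 ^ k), sgn (par i a) * sgn (par i a) = 2 ^ k := by
  rw [Finset.sum_congr rfl (fun i _ => sgn_mul_self (par i a))]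
  simp

variable {F : Type} [DecidableEq F]

/-- **Counting lemma.**  If the perceptron solves, in `n` steps, the systems obtained from the rows
`row i`, `i < 2 ^ k`, with the labels given by each of the first `m ≤ 2 ^ k` columns of the parity
matrix, then `m ≤ n R²`, where `R` bounds the squared norms of the rows. -/
theorem count_le (k m n : ℕ) (hm : m ≤ 2 ^ k) (row : ℕ → List (ℤ × F)) (R : ℤ) (hR0 : 0 ≤ R)
    (hR : ∀ i < 2 ^ k, dot (row i) (row i) ≤ R)
    (hok : ∀ v < m, ok ((List.range (2 ^ k)).map (fun i => sc (par i v) (row i))) n = true) :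
    (m : ℤ) ≤ n * R * R := by
  set D : ℕ → List (List (ℤ × F)) :=
    fun v => (List.range (2 ^ k)).map (fun i => sc (par i v) (row i)) with hD
  set w : ℕ → List (ℤ × F) := fun v => run (D v) n with hw
  -- margins
  have h1 : ∀ v < m, ∀ i < 2 ^ k, 1 ≤ sgn (par i v) * dot (row i) (w v) := by
    intro v hv i hi
    have h2 := (ok_iff _ _).1 (hok v hv) (sc (par i v) (row i))
      (List.mem_map.2 ⟨i, List.mem_range.2 hi, rfl⟩)
    rw [dot_sc_left] at h2
    change 0 < (if par i v then dot (row i) (w v) else -dot (row i) (w v)) at h2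
    cases hp : par i v <;> rw [hp] at h2 <;> simp [sgn] at h2 ⊢ <;> omega
  -- norms
  have h2 : ∀ v < m, dot (w v) (w v) ≤ n * R := by
    intro v _
    refine run_norm (D v) R hR0 ?_ n
    intro r hr
    obtain ⟨i, hi, rfl⟩ := List.mem_map.1 hr
    rw [dot_sc_sc]
    exact hR i (List.mem_range.1 hi)
  -- supports
  set Ω : Finset F := (range (2 ^ k)).biUnion (fun i => supp (row i)) with hΩ
  have h3 : ∀ i < 2 ^ k, ∀ a ∈ row i, a.2 ∈ Ω := by
    intro i hi a ha
    exact Finset.mem_biUnion.2 ⟨i, Finset.mem_range.2 hi, mem_supp ha⟩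
  have h4 : ∀ v, ∀ a ∈ w v, a.2 ∈ Ω := by
    intro v
    refine run_supp (D v) Ω ?_ n
    intro r hr
    obtain ⟨i, hi, rfl⟩ := List.mem_map.1 hr
    exact supp_sc _ _ _ (h3 i (List.mem_range.1 hi))
  have h5 : ∀ i < 2 ^ k, ∀ v, dot (row i) (w v) = ∑ Q ∈ Ω, val (row i) Q * val (w v) Q :=
    fun i hi v => dot_eq Ω _ _ (h3 i hi)
  set u : ℕ → F → ℤ := fun i Q => ∑ v ∈ range m, sgn (par i v) * val (w v) Q with hu
  -- the total margin
  have h6 : ((2 ^ k : ℕ) : ℤ) * m ≤ ∑ i ∈ range (2 ^ k), ∑ Q ∈ Ω, val (row i) Q * u i Q := by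
    have e : ∀ i ∈ range (2 ^ k), ∑ Q ∈ Ω, val (row i) Q * u i Q =
        ∑ v ∈ range m, sgn (par i v) * dot (row i) (w v) := by
      intro i hi
      have hi' := Finset.mem_range.1 hi
      simp only [hu, Finset.mul_sum]
      rw [Finset.sum_comm]
      refine Finset.sum_congr rfl fun v _ => ?_
      rw [h5 i hi' v, Finset.mul_sum]
      exact Finset.sum_congr rfl fun Q _ => by ring
    rw [Finset.sum_congr rfl e]
    have e2 : ∀ i ∈ range (2 ^ k), (m : ℤ) ≤ ∑ v ∈ range m, sgn (par i v) * dot (row i) (w v) := by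
      intro i hi
      have : (m : ℤ) = ∑ v ∈ range m, (1 : ℤ) := by simp
      rw [this]
      exact Finset.sum_le_sum fun v hv => h1 v (Finset.mem_range.1 hv) i (Finset.mem_range.1 hi)
    calc ((2 ^ k : ℕ) : ℤ) * m = ∑ i ∈ range (2 ^ k), (m : ℤ) := by simp
      _ ≤ _ := Finset.sum_le_sum e2
  -- Cauchy-Schwarz
  have h7 : (∑ i ∈ range (2 ^ k), ∑ Q ∈ Ω, val (row i) Q * u i Q) ^ 2 ≤
      (∑ i ∈ range (2 ^ k), ∑ Q ∈ Ω, val (row i) Q ^ 2) *
        ∑ i ∈ range (2 ^ k), ∑ Q ∈ Ω, u i Q ^ 2 := by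
    have e1 := Finset.sum_product' (range (2 ^ k)) Ω (fun i Q => val (row i) Q * u i Q)
    have e2 := Finset.sum_product' (range (2 ^ k)) Ω (fun i Q => val (row i) Q ^ 2)
    have e3 := Finset.sum_product' (range (2 ^ k)) Ω (fun i Q => u i Q ^ 2)
    rw [← e1, ← e2, ← e3]
    exact Finset.sum_mul_sq_le_sq_mul_sq _ (fun p : ℕ × F => val (row p.1) p.2)
      (fun p : ℕ × F => u p.1 p.2)
  have h8 : ∑ i ∈ range (2 ^ k), ∑ Q ∈ Ω, val (row i) Q ^ 2 ≤ ((2 ^ k : ℕ) : ℤ) * R := by
    have e : ∀ i ∈ range (2 ^ k), ∑ Q ∈ Ω, val (row i) Q ^ 2 ≤ R := by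
      intro i hi
      have hi' := Finset.mem_range.1 hi
      refine le_trans (le_of_eq ?_) (hR i hi')
      rw [dot_eq Ω _ _ (h3 i hi')]
      exact Finset.sum_congr rfl fun Q _ => sq _
    calc _ ≤ ∑ i ∈ range (2 ^ k), R := Finset.sum_le_sum e
      _ = _ := by simp
  have h9 : ∑ i ∈ range (2 ^ k), ∑ Q ∈ Ω, u i Q ^ 2 ≤ ((2 ^ k : ℕ) : ℤ) * (m * (n * R)) := by
    rw [Finset.sum_comm]
    have e : ∀ Q, ∑ i ∈ range (2 ^ k), u i Q ^ 2 =
        ((2 ^ k : ℕ) : ℤ) * ∑ v ∈ range m, val (w v) Q ^ 2 := by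
      intro Q
      have e1 : ∀ i, u i Q ^ 2 = ∑ v ∈ range m, ∑ v' ∈ range m,
          (val (w v) Q * val (w v') Q) * (sgn (par i v) * sgn (par i v')) := by
        intro i
        rw [sq, hu]
        simp only
        rw [Finset.sum_mul_sum]
        exact Finset.sum_congr rfl fun v _ => Finset.sum_congr rfl fun v' _ => by ring
      rw [Finset.sum_congr rfl (fun i _ => e1 i), Finset.sum_comm, Finset.mul_sum]
      refine Finset.sum_congr rfl fun v hv => ?_
      rw [Finset.sum_comm]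
      have e2 : ∀ v' ∈ range m, ∑ i ∈ range (2 ^ k),
          (val (w v) Q * val (w v') Q) * (sgn (par i v) * sgn (par i v')) =
          if v' = v then ((2 ^ k : ℕ) : ℤ) * val (w v) Q ^ 2 else 0 := by
        intro v' hv'
        rw [← Finset.mul_sum]
        by_cases hvv : v' = v
        · rw [if_pos hvv, hvv, par_norm]; push_cast; ring
        · rw [if_neg hvv, par_orth k v v' (lt_of_lt_of_le (Finset.mem_range.1 hv) hm)
            (lt_of_lt_of_le (Finset.mem_range.1 hv') hm) (fun h => hvv h.symm), mul_zero]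
      rw [Finset.sum_congr rfl e2, Finset.sum_ite_eq' (range m) v, if_pos hv]
    rw [Finset.sum_congr rfl (fun Q _ => e Q), ← Finset.mul_sum]
    refine mul_le_mul_of_nonneg_left ?_ (by positivity)
    rw [Finset.sum_comm]
    have e2 : ∀ v ∈ range m, ∑ Q ∈ Ω, val (w v) Q ^ 2 ≤ n * R := by
      intro v hv
      refine le_trans (le_of_eq ?_) (h2 v (Finset.mem_range.1 hv))
      rw [dot_eq Ω _ _ (h4 v)]
      exact Finset.sum_congr rfl fun Q _ => sq _
    calc _ ≤ ∑ v ∈ range m, (n * R : ℤ) := Finset.sum_le_sum e2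
      _ = _ := by simp
  -- conclusion
  have hT : (0 : ℤ) < ((2 ^ k : ℕ) : ℤ) := by positivity
  set T : ℤ := ((2 ^ k : ℕ) : ℤ) with hTdef
  have hm0 : (0 : ℤ) ≤ m := Int.natCast_nonneg m
  have hn0 : (0 : ℤ) ≤ n := Int.natCast_nonneg n
  have h10 : (T * m) ^ 2 ≤ (T * R) * (T * (m * (n * R))) := by
    have a1 : (T * m) ^ 2 ≤ (∑ i ∈ range (2 ^ k), ∑ Q ∈ Ω, val (row i) Q * u i Q) ^ 2 := by
      have : 0 ≤ T * m := mul_nonneg hT.le hm0
      nlinarith
    have a2 : 0 ≤ ∑ i ∈ range (2 ^ k), ∑ Q ∈ Ω, u i Q ^ 2 :=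
      Finset.sum_nonneg fun i _ => Finset.sum_nonneg fun Q _ => sq_nonneg _
    have a3 : (∑ i ∈ range (2 ^ k), ∑ Q ∈ Ω, val (row i) Q ^ 2) *
        (∑ i ∈ range (2 ^ k), ∑ Q ∈ Ω, u i Q ^ 2) ≤ (T * R) * (T * (m * (n * R))) :=
      mul_le_mul h8 h9 a2 (mul_nonneg hT.le hR0)
    linarith
  rcases Nat.eq_zero_or_pos m with hm1 | hm1
  · rw [hm1]
    have : (0 : ℤ) ≤ n * R * R := mul_nonneg (mul_nonneg hn0 hR0) hR0
    simpa using this
  · have hm2 : (0 : ℤ) < m := by exact_mod_cast hm1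
    have h11 : (T * T * m) * m ≤ (T * T * m) * (n * R * R) := by nlinarith
    have h12 : 0 < T * T * m := by positivity
    exact le_of_mul_le_mul_left h11 h12

end Pool.Agent.H579R2.Spt
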