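import Pool.Agent.H579R2.Spt.Had

/-!
# Hash tests of strings, and the counting lemma for nearly orthogonal labels
-/

namespace Pool.Agent.H579R2.Spt

open Finset

/-- The value at `α` modulo `P` of the polynomial with coefficients `u`. -/
def hv (P α : ℕ) (u : List Bool) : ℕ := u.foldr (fun b s => (b.toNat + α * s) % P) 0

theorem hv_lt {P : ℕ} (hP : 0 < P) (α : ℕ) (u : List Bool) : hv P α u < P := by
  cases u with
  | nil => exact hP
  | cons b u => exact Nat.mod_lt _ hP

/-- the polynomial with coefficients `u` -/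
noncomputable def pol (P : ℕ) : List Bool → Polynomial (ZMod P)
  | [] => 0
  | b :: u => Polynomial.C ((b.toNat : ℕ) : ZMod P) + Polynomial.X * pol P u

theorem pol_eval (P α : ℕ) (u : List Bool) :
    (pol P u).eval ((α : ℕ) : ZMod P) = ((hv P α u : ℕ) : ZMod P) := by
  induction u with
  | nil => simp [pol, hv]
  | cons b u ih =>
    have h : hv P α (b :: u) = (b.toNat + α * hv P α u) % P := rfl
    rw [pol, h, ZMod.natCast_mod]
    simp [ih]

theorem pol_degree (P : ℕ) (u : List Bool) : (pol P u).natDegree ≤ u.length := by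
  induction u with
  | nil => simp [pol]
  | cons b u ih =>
    rw [pol, List.length_cons]
    refine (Polynomial.natDegree_add_le _ _).trans (max_le (by simp) ?_)
    refine Polynomial.natDegree_mul_le.trans ?_
    have := Polynomial.natDegree_X_le (R := ZMod P)
    omega

theorem pol_inj {P : ℕ} (hP : 1 < P) : ∀ (u v : List Bool), u.length = v.length →
    pol P u = pol P v → u = v := by
  haveI : Fact (1 < P) := ⟨hP⟩
  intro u
  induction u with
  | nil =>
    intro v h _
    exact (List.length_eq_zero_iff.1 h.symm).symm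
  | cons b u ih =>
    intro v h hp
    cases v with
    | nil => simp at h
    | cons c v =>
      have h1 : b = c := by
        have h2 := congrArg (fun q : Polynomial (ZMod P) => q.coeff 0) hp
        simp only [pol, Polynomial.coeff_add, Polynomial.coeff_C_zero,
          Polynomial.mul_coeff_zero, Polynomial.coeff_X_zero, zero_mul, add_zero] at h2
        cases b <;> cases c <;> simp at h2 ⊢
      subst h1
      have h3 : pol P u = pol P v := by
        have h4 : Polynomial.X * pol P u = Polynomial.X * pol P v := by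
          have := hp
          simp only [pol] at this
          exact add_left_cancel this
        ext n
        have h5 := congrArg (fun q : Polynomial (ZMod P) => q.coeff (n + 1)) h4
        simpa [Polynomial.coeff_X_mul] using h5
      rw [ih v (by simpa using h) h3]

/-- Two different strings of the same length collide at few points. -/
theorem collisions {P : ℕ} (hP : P.Prime) (u v : List Bool) (h : u.length = v.length)
    (huv : u ≠ v) : ((range P).filter (fun α => hv P α u = hv P α v)).card ≤ u.length := by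
  haveI : Fact P.Prime := ⟨hP⟩
  have h0 : pol P u - pol P v ≠ 0 := fun h' =>
    huv (pol_inj hP.one_lt u v h (sub_eq_zero.1 h'))
  have h1 : ((range P).filter (fun α => hv P α u = hv P α v)).card ≤
      (pol P u - pol P v).roots.toFinset.card := by
    refine Finset.card_le_card_of_injOn (fun α => ((α : ℕ) : ZMod P)) ?_ ?_
    · intro α hα
      rw [Finset.mem_coe, Finset.mem_filter] at hα
      rw [Finset.mem_coe, Multiset.mem_toFinset, Polynomial.mem_roots h0, Polynomial.IsRoot.def,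
        Polynomial.eval_sub, pol_eval, pol_eval, hα.2, sub_self]
    · intro α hα α' hα' he
      rw [Finset.mem_coe, Finset.mem_filter, Finset.mem_range] at hα hα'
      have h2 := (ZMod.natCast_eq_natCast_iff' α α' P).1 he
      rwa [Nat.mod_eq_of_lt hα.1, Nat.mod_eq_of_lt hα'.1] at h2
  refine h1.trans ((Multiset.toFinset_card_le _).trans ((Polynomial.card_roots' _).trans ?_))
  refine (Polynomial.natDegree_sub_le _ _).trans ?_
  have h2 := pol_degree P u
  have h3 := pol_degree P v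
  omega

/-- the label of a string for the test `(α, β)` -/
def lab (P : ℕ) (t : ℕ × ℕ) (u : List Bool) : Bool := par t.2 (hv P t.1 u)

/-- The labels of two different strings of the same length are nearly orthogonal. -/
theorem lab_orth {P k : ℕ} (hP : P.Prime) (hk : P ≤ 2 ^ k) (u v : List Bool)
    (h : u.length = v.length) (huv : u ≠ v) :
    |∑ t ∈ range P ×ˢ range (2 ^ k), sgn (lab P t u) * sgn (lab P t v)| ≤
      ((2 ^ k * u.length : ℕ) : ℤ) := by
  rw [Finset.sum_product]
  have h1 : ∀ α ∈ range P, ∑ β ∈ range (2 ^ k), sgn (lab P (α, β) u) * sgn (lab P (α, β) v) =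
      if hv P α u = hv P α v then ((2 ^ k : ℕ) : ℤ) else 0 := by
    intro α _
    by_cases he : hv P α u = hv P α v
    · rw [if_pos he]
      simp only [lab, he]
      rw [par_norm]; push_cast; rfl
    · rw [if_neg he]
      have h2 := par_orth k (hv P α u) (hv P α v) (lt_of_lt_of_le (hv_lt hP.pos α u) hk)
        (lt_of_lt_of_le (hv_lt hP.pos α v) hk) he
      simp only [lab]
      exact h2
  rw [Finset.sum_congr rfl h1, ← Finset.sum_filter, Finset.sum_const, nsmul_eq_mul]
  have h2 := collisions hP u v h huv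
  rw [abs_of_nonneg (by positivity)]
  push_cast
  have h3 : (((range P).filter (fun α => hv P α u = hv P α v)).card : ℤ) ≤ u.length := by
    exact_mod_cast h2
  have h4 : (0 : ℤ) ≤ 2 ^ k := by positivity
  nlinarith

variable {F N ι : Type} [DecidableEq F] [DecidableEq N]

/-- **Counting lemma** for nearly orthogonal labels. -/
theorem count_le2 (Θ : Finset ι) (V : Finset N) (row : ι → List (ℤ × F)) (w : N → List (ℤ × F))
    (lb : ι → N → Bool) (R B E : ℤ) (hR0 : 0 ≤ R) (hB0 : 0 ≤ B) (hE0 : 0 ≤ E)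
    (hR : ∀ t ∈ Θ, dot (row t) (row t) ≤ R) (hw : ∀ v ∈ V, dot (w v) (w v) ≤ B)
    (hm : ∀ v ∈ V, ∀ t ∈ Θ, 1 ≤ sgn (lb t v) * dot (row t) (w v))
    (horth : ∀ u ∈ V, ∀ v ∈ V, u ≠ v → |∑ t ∈ Θ, sgn (lb t u) * sgn (lb t v)| ≤ E)
    (hΘ : 0 < Θ.card) (hE : 2 * R * B * E ≤ Θ.card) : (V.card : ℤ) ≤ 2 * R * B := by
  set Ω : Finset F := Θ.biUnion (fun t => supp (row t)) ∪ V.biUnion (fun v => supp (w v)) with hΩ
  have h3 : ∀ t ∈ Θ, ∀ a ∈ row t, a.2 ∈ Ω := fun t ht a ha =>
    Finset.mem_union_left _ (Finset.mem_biUnion.2 ⟨t, ht, mem_supp ha⟩)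
  have h4 : ∀ v ∈ V, ∀ a ∈ w v, a.2 ∈ Ω := fun v hv a ha =>
    Finset.mem_union_right _ (Finset.mem_biUnion.2 ⟨v, hv, mem_supp ha⟩)
  have h5 : ∀ t ∈ Θ, ∀ v, dot (row t) (w v) = ∑ Q ∈ Ω, val (row t) Q * val (w v) Q :=
    fun t ht v => dot_eq Ω _ _ (h3 t ht)
  set u : ι → F → ℤ := fun t Q => ∑ v ∈ V, sgn (lb t v) * val (w v) Q with hu
  set m : ℤ := (V.card : ℤ) with hmdef
  set T : ℤ := (Θ.card : ℤ) with hTdef
  have h6 : T * m ≤ ∑ t ∈ Θ, ∑ Q ∈ Ω, val (row t) Q * u t Q := by
    have e : ∀ t ∈ Θ, ∑ Q ∈ Ω, val (row t) Q * u t Q =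
        ∑ v ∈ V, sgn (lb t v) * dot (row t) (w v) := by
      intro t ht
      simp only [hu, Finset.mul_sum]
      rw [Finset.sum_comm]
      refine Finset.sum_congr rfl fun v _ => ?_
      rw [h5 t ht v, Finset.mul_sum]
      exact Finset.sum_congr rfl fun Q _ => by ring
    rw [Finset.sum_congr rfl e]
    have e2 : ∀ t ∈ Θ, m ≤ ∑ v ∈ V, sgn (lb t v) * dot (row t) (w v) := by
      intro t ht
      have : m = ∑ v ∈ V, (1 : ℤ) := by simp [hmdef]
      rw [this]
      exact Finset.sum_le_sum fun v hv => hm v hv t ht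
    calc T * m = ∑ t ∈ Θ, m := by simp [hTdef]
      _ ≤ _ := Finset.sum_le_sum e2
  have h7 : (∑ t ∈ Θ, ∑ Q ∈ Ω, val (row t) Q * u t Q) ^ 2 ≤
      (∑ t ∈ Θ, ∑ Q ∈ Ω, val (row t) Q ^ 2) * ∑ t ∈ Θ, ∑ Q ∈ Ω, u t Q ^ 2 := by
    have e1 := Finset.sum_product' Θ Ω (fun t Q => val (row t) Q * u t Q)
    have e2 := Finset.sum_product' Θ Ω (fun t Q => val (row t) Q ^ 2)
    have e3 := Finset.sum_product' Θ Ω (fun t Q => u t Q ^ 2)
    rw [← e1, ← e2, ← e3]
    exact Finset.sum_mul_sq_le_sq_mul_sq _ (fun p : ι × F => val (row p.1) p.2)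
      (fun p : ι × F => u p.1 p.2)
  have h8 : ∑ t ∈ Θ, ∑ Q ∈ Ω, val (row t) Q ^ 2 ≤ T * R := by
    have e : ∀ t ∈ Θ, ∑ Q ∈ Ω, val (row t) Q ^ 2 ≤ R := by
      intro t ht
      refine le_trans (le_of_eq ?_) (hR t ht)
      rw [dot_eq Ω _ _ (h3 t ht)]
      exact Finset.sum_congr rfl fun Q _ => sq _
    calc _ ≤ ∑ t ∈ Θ, R := Finset.sum_le_sum e
      _ = _ := by simp [hTdef]
  have hnorm : ∀ v ∈ V, ∑ Q ∈ Ω, val (w v) Q ^ 2 ≤ B := by
    intro v hv
    refine le_trans (le_of_eq ?_) (hw v hv)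
    rw [dot_eq Ω _ _ (h4 v hv)]
    exact Finset.sum_congr rfl fun Q _ => sq _
  have hcross : ∀ a ∈ V, ∀ b ∈ V, |∑ Q ∈ Ω, val (w a) Q * val (w b) Q| ≤ B := by
    intro a ha b hb
    refine (Finset.abs_sum_le_sum_abs _ _).trans ?_
    have e1 : ∀ Q ∈ Ω, 2 * |val (w a) Q * val (w b) Q| ≤ val (w a) Q ^ 2 + val (w b) Q ^ 2 := by
      intro Q _
      rw [abs_mul, ← sq_abs (val (w a) Q), ← sq_abs (val (w b) Q)]
      nlinarith [sq_nonneg (|val (w a) Q| - |val (w b) Q|)]
    have e2 := Finset.sum_le_sum e1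
    rw [← Finset.mul_sum, Finset.sum_add_distrib] at e2
    have e3 := hnorm a ha
    have e4 := hnorm b hb
    linarith
  have h9 : ∑ t ∈ Θ, ∑ Q ∈ Ω, u t Q ^ 2 ≤ m * (B * T) + m * m * (B * E) := by
    have e1 : ∀ t ∈ Θ, ∑ Q ∈ Ω, u t Q ^ 2 = ∑ a ∈ V, ∑ b ∈ V,
        (sgn (lb t a) * sgn (lb t b)) * ∑ Q ∈ Ω, val (w a) Q * val (w b) Q := by
      intro t _
      have e0 : ∀ Q ∈ Ω, u t Q ^ 2 = ∑ a ∈ V, ∑ b ∈ V,
          (sgn (lb t a) * sgn (lb t b)) * (val (w a) Q * val (w b) Q) := by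
        intro Q _
        rw [sq, hu]
        simp only
        rw [Finset.sum_mul_sum]
        exact Finset.sum_congr rfl fun v _ => Finset.sum_congr rfl fun v' _ => by ring
      rw [Finset.sum_congr rfl e0, Finset.sum_comm]
      refine Finset.sum_congr rfl fun a _ => ?_
      rw [Finset.sum_comm]
      exact Finset.sum_congr rfl fun b _ => by rw [Finset.mul_sum]
    rw [Finset.sum_congr rfl e1, Finset.sum_comm]
    have e2 : ∀ a ∈ V, ∑ t ∈ Θ, ∑ b ∈ V, (sgn (lb t a) * sgn (lb t b)) *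
        ∑ Q ∈ Ω, val (w a) Q * val (w b) Q ≤ B * T + m * (B * E) := by
      intro a ha
      rw [Finset.sum_comm]
      have e3 : ∀ b ∈ V, ∑ t ∈ Θ, (sgn (lb t a) * sgn (lb t b)) *
          ∑ Q ∈ Ω, val (w a) Q * val (w b) Q ≤ (if b = a then B * T else 0) + B * E := by
        intro b hb
        rw [← Finset.sum_mul]
        by_cases hab : b = a
        · subst hab
          have e4 : ∑ t ∈ Θ, sgn (lb t b) * sgn (lb t b) = T := by
            rw [Finset.sum_congr rfl (fun t _ => sgn_mul_self (lb t b))]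
            simp [hTdef]
          rw [if_pos rfl, e4]
          have e5 : ∑ Q ∈ Ω, val (w b) Q * val (w b) Q ≤ B := (le_abs_self _).trans
            (hcross b hb b hb)
          have e6 : (0 : ℤ) ≤ T := by positivity
          have e7 : 0 ≤ B * E := mul_nonneg hB0 hE0
          have e8 := mul_le_mul_of_nonneg_left e5 e6
          have e9 : T * B = B * T := mul_comm _ _
          linarith
        · rw [if_neg hab, zero_add]
          have e4 := horth a ha b hb (fun h => hab h.symm)
          have e5 := hcross a ha b hb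
          calc _ ≤ |(∑ t ∈ Θ, sgn (lb t a) * sgn (lb t b)) *
                ∑ Q ∈ Ω, val (w a) Q * val (w b) Q| := le_abs_self _
            _ = _ := abs_mul _ _
            _ ≤ E * B := mul_le_mul e4 e5 (abs_nonneg _) ((abs_nonneg _).trans e4)
            _ = B * E := mul_comm _ _
      refine (Finset.sum_le_sum e3).trans (le_of_eq ?_)
      rw [Finset.sum_add_distrib, Finset.sum_ite_eq' V a, if_pos ha]
      simp [hmdef]
    refine (Finset.sum_le_sum e2).trans (le_of_eq ?_)
    rw [Finset.sum_const, nsmul_eq_mul]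
    ring
  -- conclusion
  have hT : (0 : ℤ) < T := by rw [hTdef]; exact_mod_cast hΘ
  have hm0 : (0 : ℤ) ≤ m := Int.natCast_nonneg _
  have hTm : 0 ≤ T * m := mul_nonneg hT.le hm0
  have a1 : (T * m) ^ 2 ≤ (∑ t ∈ Θ, ∑ Q ∈ Ω, val (row t) Q * u t Q) ^ 2 :=
    pow_le_pow_left₀ hTm h6 2
  have a2 : 0 ≤ ∑ t ∈ Θ, ∑ Q ∈ Ω, u t Q ^ 2 :=
    Finset.sum_nonneg fun i _ => Finset.sum_nonneg fun Q _ => sq_nonneg _
  have a3 : (∑ t ∈ Θ, ∑ Q ∈ Ω, val (row t) Q ^ 2) * (∑ t ∈ Θ, ∑ Q ∈ Ω, u t Q ^ 2) ≤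
      (T * R) * (m * (B * T) + m * m * (B * E)) :=
    mul_le_mul h8 h9 a2 (mul_nonneg hT.le hR0)
  have a4 : (T * m) ^ 2 ≤ (T * R) * (m * (B * T) + m * m * (B * E)) := a1.trans (h7.trans a3)
  rcases hm0.eq_or_lt with h0 | h0
  · rw [← h0]
    exact mul_nonneg (mul_nonneg (by norm_num) hR0) hB0
  · have a5 : (T * m) * (T * m) ≤ (T * m) * (R * (B * T) + m * (R * B * E)) := by
      calc (T * m) * (T * m) = (T * m) ^ 2 := by ring
        _ ≤ _ := a4
        _ = _ := by ring
    have a6 : T * m ≤ R * (B * T) + m * (R * B * E) :=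
      le_of_mul_le_mul_left a5 (mul_pos hT h0)
    have a7 : m * (2 * R * B * E) ≤ m * T := mul_le_mul_of_nonneg_left hE hm0
    have a8 : T * m ≤ T * (2 * R * B) := by
      have e1 : m * (2 * R * B * E) = 2 * (m * (R * B * E)) := by ring
      have e2 : T * (2 * R * B) = 2 * (R * (B * T)) := by ring
      have e3 : m * T = T * m := mul_comm _ _
      rw [e2]
      rw [e1, e3] at a7
      linarith
    exact le_of_mul_le_mul_left a8 hT

end Pool.Agent.H579R2.Spt
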