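import Pool.Agent.H579R2.Spt.Main2

/-!
# Search for the value of a single-valued NP function: a short list of candidates
-/

namespace Pool.Agent.H579R2.Spt

open Pool.Agent.NPC Finset

/-- no test of final nodes -/
def V0f {X : Type} : X → List Bool → Bool := fun _ _ => false

section

variable {X F : Type} [DecidableEq F]

/-- All nodes kept by the search. -/
def cands (feat : X × (ℕ × (ℕ × (ℕ × ℕ))) → List (ℤ × F)) (P T n M p : ℕ) (x : X) :
    List (List Bool) :=
  (List.range (p + 1)).flatMap (fun j => ((srch2 feat V0f P T n M x)^[min j p] (none, [[]])).2)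

theorem cands_correct {feat : X × (ℕ × (ℕ × (ℕ × ℕ))) → List (ℤ × F)}
    {P k : ℕ} {x : X} {w : List Bool} {z : F → ℤ} {R Z : ℤ}
    (hg : Good2 feat P (2 ^ k) x w z R Z) (hP : P.Prime) (hk : P ≤ 2 ^ k) (n M p : ℕ)
    (hwp : w.length ≤ p)
    (hn : R * Z < n) (hM : 2 * R * (n * R) ≤ M) (hE : 2 * R * (n * R) * w.length ≤ P) :
    w ∈ cands feat P (2 ^ k) n M p x := by
  have key : ∀ j ≤ w.length,
      w.take j ∈ ((srch2 feat V0f P (2 ^ k) n M x)^[j] (none, [[]])).2 := by
    intro j
    induction j with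
    | zero => intro _; simp
    | succ j ih =>
      intro hj
      rw [Function.iterate_succ_apply']
      obtain ⟨h1, _, h3, _⟩ := srch2_inv feat V0f P (2 ^ k) n M x j
      have h6 := ih (by omega)
      set s := (srch2 feat V0f P (2 ^ k) n M x)^[j] (none, [[]])
      exact next2_mem hg hP hk n M hn hM hE j hj s.2 h1 h3 h6
  refine List.mem_flatMap.2 ⟨w.length, List.mem_range.2 (by omega), ?_⟩
  rw [min_eq_left hwp]
  have := key w.length le_rfl
  rwa [List.take_length] at this

end

section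

variable {α : Type} [TEnc α]
variable {X F : Type} [TEnc X] [TEnc F] [DecidableEq F]
  {feat : X × (ℕ × (ℕ × (ℕ × ℕ))) → List (ℤ × F)}

theorem iter2_poly (hf : Poly feat) {P T n M N : α → ℕ} {x : α → X}
    (hP : UPoly P) (hT : UPoly T) (hn : UPoly n) (hM : UPoly M) (hp : UPoly N) (hx : Poly x) :
    Poly (fun a => ((srch2 feat V0f (P a) (T a) (n a) (M a) (x a))^[N a] (none, [[]])).2) := by
  obtain ⟨qM', hqM'⟩ := Poly.sz_le hM
  obtain ⟨qp', hqp'⟩ := Poly.sz_le hp
  have hMle : ∀ a, M a ≤ qM'.eval (sz a) := by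
    intro a
    have h1 := hqM' a
    have h2 := length_lt_sz (List.replicate (M a) ())
    rw [List.length_replicate] at h2
    omega
  have hple : ∀ a, N a ≤ qp'.eval (sz a) := by
    intro a
    have h1 := hqp' a
    have h2 := length_lt_sz (List.replicate (N a) ())
    rw [List.length_replicate] at h2
    omega
  have hstep : Poly (fun q : α × Option (List Bool) × List (List Bool) =>
      srch2 feat V0f (P q.1) (T q.1) (n q.1) (M q.1) (x q.1) q.2) := by
    have e1 : Poly (fun q : α × Option (List Bool) × List (List Bool) => q.1) :=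
      NPC.Poly.fst NPC.Poly.id
    have e2 : Poly (fun q : α × Option (List Bool) × List (List Bool) => q.2.2) :=
      NPC.Poly.snd (NPC.Poly.snd NPC.Poly.id)
    have e3 : Poly (fun q : α × Option (List Bool) × List (List Bool) => q.2.1) :=
      NPC.Poly.fst (NPC.Poly.snd NPC.Poly.id)
    refine NPC.Poly.pair ?_ (next2_poly hf (hP.comp e1) (hT.comp e1) (hn.comp e1)
      (hM.toPoly.comp e1) (hx.comp e1) e2)
    have h1 : Poly (fun q : α × Option (List Bool) × List (List Bool) =>
        (q.2.2.filter (V0f (x q.1))).head?) := by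
      refine NPC.Poly.head? (NPC.Poly.filter
        (p := fun (q : α × Option (List Bool) × List (List Bool)) w => V0f (x q.1) w) e2 ?_)
      exact NPC.Poly.const false
    exact NPC.Poly.ite (NPC.Poly.decide_bool (NPC.Poly.isSome e3)) e3 h1
  have h1 := NPC.Poly.iterLen (l := fun a => List.replicate (N a) ())
    (s := fun _ : α => ((none, [[]]) : Option (List Bool) × List (List Bool)))
    (F := fun a s => srch2 feat V0f (P a) (T a) (n a) (M a) (x a) s) hp
    (NPC.Poly.const _) hstep
    ((qM' + 1) * (Polynomial.C 4 * qp' + 8) + Polynomial.C 4 * qp' + 16) (by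
      intro a k hk
      rw [List.length_replicate] at hk
      obtain ⟨h2, h3, _, h5⟩ := srch2_inv feat V0f (P a) (T a) (n a) (M a) (x a) k
      set s := (srch2 feat V0f (P a) (T a) (n a) (M a) (x a))^[k] (none, [[]])
      have h4 := sz_le_length_mul s.2 (4 * k + 1) (fun u hu => by
        have := sz_listBool_le u
        rw [h2 u hu] at this
        exact this)
      have h6 : sz s = sz s.1 + sz s.2 + 1 := sz_pair _ _
      have h7 := hMle a
      have h8 := hple a
      have h12 : sz s.1 ≤ 4 * k + 3 := by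
        cases hs : s.1 with
        | none => rw [sz_none]; omega
        | some w =>
          rw [sz_some]
          have := sz_listBool_le w
          have := (h5 w hs).2
          omega
      simp only [Polynomial.eval_add, Polynomial.eval_mul, Polynomial.eval_C, Polynomial.eval_one,
        Polynomial.eval_ofNat]
      have h9 : s.2.length ≤ qM'.eval (sz a) + 1 := h3.trans (by omega)
      have h10 : 4 * k + 1 + 1 ≤ 4 * qp'.eval (sz a) + 8 := by omega
      have h11 := Nat.mul_le_mul h9 h10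
      omega)
  refine (NPC.Poly.snd h1).congr fun a => ?_
  rw [List.length_replicate]

theorem cands_poly (hf : Poly feat) {P T n M p : X → ℕ}
    (hP : UPoly P) (hT : UPoly T) (hn : UPoly n) (hM : UPoly M) (hp : UPoly p) :
    Poly (fun x => cands feat (P x) (T x) (n x) (M x) (p x) x) := by
  unfold cands
  refine NPC.Poly.flatMap (l := fun x => List.range (p x + 1))
    (F := fun x j => ((srch2 feat V0f (P x) (T x) (n x) (M x) x)^[min j (p x)] (none, [[]])).2)
    (hp.add (UPoly.const 1)).range ?_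
  have e1 : Poly (fun q : X × ℕ => q.1) := NPC.Poly.fst NPC.Poly.id
  have e2 : Poly (fun q : X × ℕ => q.2) := NPC.Poly.snd NPC.Poly.id
  have u3 : UPoly (fun q : X × ℕ => min q.2 (p q.1)) :=
    UPoly.of_le (NPC.Poly.min e2 (hp.comp e1).toPoly) (hp.comp e1) (fun _ => min_le_right _ _)
  exact iter2_poly hf (hP.comp e1) (hT.comp e1) (hn.comp e1) (hM.comp e1) u3 e1

end

/-- `(y, w)` is a value with a witness on input `x`. -/
def Cert (R : List Bool × (List Bool × List Bool) → Bool) (p : Polynomial ℕ)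
    (x y w : List Bool) : Prop :=
  y.length ≤ p.eval x.length ∧ w.length ≤ p.eval x.length ∧ R (x, (y, w)) = true

/-- Some value has label `true` at level `j`. -/
def Lab3 (R : List Bool × (List Bool × List Bool) → Bool) (p : Polynomial ℕ)
    (a : List Bool × (ℕ × (ℕ × (ℕ × ℕ)))) : Prop :=
  ∃ y w, Cert R p a.1 y w ∧ lab a.2.1 a.2.2.2 (y.take a.2.2.1) = true

theorem lab3_inNP {R : List Bool × (List Bool × List Bool) → Bool} (hR : Poly R)
    (p : Polynomial ℕ) : InNPP (Lab3 R p) := by
  have e1 : Poly (fun q : (List Bool × (ℕ × (ℕ × (ℕ × ℕ)))) × (List Bool × List Bool) => q.1.1) :=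
    NPC.Poly.fst (NPC.Poly.fst NPC.Poly.id)
  have e2 : Poly (fun q : (List Bool × (ℕ × (ℕ × (ℕ × ℕ)))) × (List Bool × List Bool) =>
      q.1.2.1) := NPC.Poly.fst (NPC.Poly.snd (NPC.Poly.fst NPC.Poly.id))
  have e3 : Poly (fun q : (List Bool × (ℕ × (ℕ × (ℕ × ℕ)))) × (List Bool × List Bool) =>
      q.1.2.2.1) := NPC.Poly.fst (NPC.Poly.snd (NPC.Poly.snd (NPC.Poly.fst NPC.Poly.id)))
  have e4 : Poly (fun q : (List Bool × (ℕ × (ℕ × (ℕ × ℕ)))) × (List Bool × List Bool) =>
      q.1.2.2.2) := NPC.Poly.snd (NPC.Poly.snd (NPC.Poly.snd (NPC.Poly.fst NPC.Poly.id)))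
  have e5 : Poly (fun q : (List Bool × (ℕ × (ℕ × (ℕ × ℕ)))) × (List Bool × List Bool) =>
      q.2.1) := NPC.Poly.fst (NPC.Poly.snd NPC.Poly.id)
  have e6 : Poly (fun q : (List Bool × (ℕ × (ℕ × (ℕ × ℕ)))) × (List Bool × List Bool) =>
      q.2.2) := NPC.Poly.snd (NPC.Poly.snd NPC.Poly.id)
  have e7 : Poly (fun q : (List Bool × (ℕ × (ℕ × (ℕ × ℕ)))) × (List Bool × List Bool) =>
      p.eval q.1.1.length) := ((UPoly.length e1).eval p).toPoly
  have h1 : Poly (fun q : (List Bool × (ℕ × (ℕ × (ℕ × ℕ)))) × (List Bool × List Bool) =>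
      (decide (q.2.1.length ≤ p.eval q.1.1.length) && (decide (q.2.2.length ≤ p.eval q.1.1.length)
        && R (q.1.1, (q.2.1, q.2.2)))) && lab q.1.2.1 q.1.2.2.2 (q.2.1.take q.1.2.2.1)) :=
    NPC.Poly.and (NPC.Poly.and (NPC.Poly.decide_le (NPC.Poly.length e5) e7)
      (NPC.Poly.and (NPC.Poly.decide_le (NPC.Poly.length e6) e7)
        (hR.comp (NPC.Poly.pair e1 (NPC.Poly.pair e5 e6)))))
      (lab_poly e2 e4 (take_poly' e5 e3))
  refine inNPP_of h1 (Polynomial.C 8 * p + 3) ?_
  rintro ⟨x, a⟩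
  constructor
  · rintro ⟨y, w, ⟨hy, hw, hR1⟩, hl⟩
    refine ⟨(y, w), ?_, ?_⟩
    · have h3 := sz_listBool_le w
      have h3' := sz_listBool_le y
      have h4 : p.eval x.length ≤ p.eval (sz (x, a)) := by
        refine eval_mono p ?_
        have := length_lt_sz x
        rw [sz_pair]; omega
      rw [sz_pair]
      simp only [Polynomial.eval_add, Polynomial.eval_mul, Polynomial.eval_C,
        Polynomial.eval_ofNat]
      simp only at hy hw
      omega
    · simp only [Bool.and_eq_true, decide_eq_true_eq]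
      exact ⟨⟨hy, hw, hR1⟩, hl⟩
  · rintro ⟨⟨y, w⟩, _, hw⟩
    simp only [Bool.and_eq_true, decide_eq_true_eq] at hw
    exact ⟨y, w, ⟨hw.1.1, hw.1.2.1, hw.1.2.2⟩, hw.2⟩

/-- **Single-valued NP functions have short candidate lists** if some sparse set is hard for `NP`
under threshold reductions of polynomial weight and bounded width. -/
theorem npsv_search (A S : Set (List Bool)) (hA : NPHard A) (hS : Sparse S) (d : ℕ → ℕ) (c : ℕ)
    (hd : ∃ q : Polynomial ℕ, ∀ n, d n ≤ q.eval n) (hred : ThresholdReduces A S d (fun _ => c))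
    {R : List Bool × (List Bool × List Bool) → Bool} (hR : Poly R) (p : Polynomial ℕ) :
    ∃ G : List Bool → List (List Bool), Poly G ∧ ∀ x y, (∃ w, Cert R p x y w) →
      (∀ y' w', Cert R p x y' w' → y' = y) → y ∈ G x := by
  classical
  obtain ⟨qS, hqS⟩ := hS
  obtain ⟨qd, hqd⟩ := hd
  obtain ⟨f, hf, hfA⟩ := hA _ (lab3_inNP hR p)
  obtain ⟨r, hr, hrS⟩ := hred
  set feat : List Bool × (ℕ × (ℕ × (ℕ × ℕ))) → List (ℤ × List (List Bool)) :=
    fun a => aug (r (f (bits a))) with hfeat
  have hfp : Poly (fun a : List Bool × (ℕ × (ℕ × (ℕ × ℕ))) => f (bits a)) :=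
    (PIso.poly_iff.2 hf).comp bits_poly
  have hrp : Poly (fun a : List Bool × (ℕ × (ℕ × (ℕ × ℕ))) => r (f (bits a))) :=
    (poly_of_polyTime_bits hr).comp hfp
  have hfeatp : Poly feat := aug_poly.comp hrp
  obtain ⟨p1, hp1⟩ := hfp.sz_le
  obtain ⟨p2, hp2⟩ := hrp.sz_le
  set p3 : Polynomial ℕ := Polynomial.C 16 * Polynomial.X + Polynomial.C 33 +
    Polynomial.C 4 * p with hp3
  obtain ⟨e, he⟩ := exists_pow_bound ((p1 + p2).comp p3)
  -- the polynomials bounding the parameters
  set pv : Polynomial ℕ := ((qd + 1) * (qS + 1) ^ c).comp (Polynomial.X ^ e) with hpv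
  set pn : Polynomial ℕ := Polynomial.C 4 * pv ^ 3 + 1 with hpn
  set pM : Polynomial ℕ := Polynomial.C 32 * pv ^ 4 * pn with hpM
  set pX : Polynomial ℕ := pM * p + 1 with hpX
  obtain ⟨e2, he2⟩ := exists_pow_bound pX
  obtain ⟨C2, hC2⟩ := exists_two_pow_bound e2
  set C : ℕ := max C2 2 with hC
  set b : List Bool → ℕ := fun x => x.length + C with hb
  have hbU : UPoly b := (UPoly.length NPC.Poly.id).add (UPoly.const C)
  set z : List (List Bool) → ℤ := fun Q => if ∀ y ∈ Q, y ∈ S then 1 else 0 with hz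
  have hz1 : ∀ Q, (∀ y ∈ Q, y ∈ S) → z Q = 1 := fun Q hQ => if_pos hQ
  have hz0 : ∀ Q, (¬ ∀ y ∈ Q, y ∈ S) → z Q = 0 := fun Q hQ => if_neg hQ
  have hPU : UPoly (fun x => prm (pX.eval (b x))) := prm_poly (hbU.eval pX)
  refine ⟨fun x => cands feat (prm (pX.eval (b x)))
    (2 ^ Nat.size (prm (pX.eval (b x)))) (pn.eval (b x)) (pM.eval (b x)) (p.eval x.length) x,
    cands_poly hfeatp hPU (two_pow_size_poly hPU)
      (hbU.eval pn) (hbU.eval pM) ((UPoly.length NPC.Poly.id).eval p), ?_⟩
  rintro x w ⟨v0, hw⟩ huniq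
  have hb2 : 2 ≤ b x := (le_max_right C2 2).trans (Nat.le_add_left _ _)
  have hbC : C2 ≤ b x := (le_max_left C2 2).trans (Nat.le_add_left _ _)
  have hX2 : pX.eval (b x) ≤ 2 ^ b x := (he2 (b x) hb2).trans (hC2 (b x) hbC)
  have hX0 : pX.eval (b x) ≠ 0 := by
    rw [hpX, Polynomial.eval_add, Polynomial.eval_one]; omega
  obtain ⟨hPp, hP1, hP2⟩ := prm_spec hX0
  set P : ℕ := prm (pX.eval (b x)) with hPdef
  set k : ℕ := Nat.size P with hk
  have hPk : P ≤ 2 ^ k := (Nat.lt_size_self P).le
  have hk2 : k ≤ b x + 2 := by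
    rw [hk, Nat.size_le, pow_add]
    have h0 : 0 < 2 ^ b x := by positivity
    omega
  set N : ℕ := b x ^ e with hN
  have hwp : w.length ≤ p.eval x.length := hw.1
  have hwb : w.length ≤ p.eval (b x) := hwp.trans (eval_mono p (Nat.le_add_right _ _))
  set v : ℕ := (qd.eval N + 1) * (qS.eval N + 1) ^ c with hv
  have hvp : pv.eval (b x) = v := by
    rw [hpv, Polynomial.eval_comp]
    simp only [Polynomial.eval_mul, Polynomial.eval_add, Polynomial.eval_one, Polynomial.eval_pow,
      Polynomial.eval_X]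
    rfl
  have hn : pn.eval (b x) = 4 * v ^ 3 + 1 := by
    rw [hpn]
    simp only [Polynomial.eval_mul, Polynomial.eval_add, Polynomial.eval_one, Polynomial.eval_pow,
      Polynomial.eval_C]
    rw [hvp]
  have hM : pM.eval (b x) = 32 * v ^ 4 * (4 * v ^ 3 + 1) := by
    rw [hpM]
    simp only [Polynomial.eval_mul, Polynomial.eval_pow, Polynomial.eval_C]
    rw [hvp, hn]
  have hXv : pX.eval (b x) = 32 * v ^ 4 * (4 * v ^ 3 + 1) * p.eval (b x) + 1 := by
    rw [hpX, Polynomial.eval_add, Polynomial.eval_mul, hM, Polynomial.eval_one]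
  have hdv : qd.eval N + 1 ≤ v := Nat.le_mul_of_pos_right _ (Nat.pow_pos (Nat.succ_pos _))
  have hcv : (census S N + 1) ^ c ≤ v := by
    calc (census S N + 1) ^ c ≤ (qS.eval N + 1) ^ c :=
          Nat.pow_le_pow_left (Nat.add_le_add_right (hqS N) 1) _
      _ ≤ v := Nat.le_mul_of_pos_left _ (Nat.succ_pos _)
  -- sizes of the instances
  have hN1 : ∀ j ≤ w.length, ∀ t ∈ range P ×ˢ range (2 ^ k),
      (f (bits (x, (P, (j, t))))).length ≤ N ∧ sz (r (f (bits (x, (P, (j, t)))))) ≤ N := by
    rintro j hj ⟨t1, t2⟩ ht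
    rw [Finset.mem_product, Finset.mem_range, Finset.mem_range] at ht
    have h1 : sz P ≤ 4 * (b x + 2) + 1 := (sz_nat_le P).trans (by omega)
    have ht1 : t1 < P := ht.1
    have ht2 : t2 < 2 ^ k := ht.2
    have h2 : sz t1 ≤ 4 * (b x + 2) + 1 := by
      have := Nat.size_le_size (le_of_lt ht1)
      exact (sz_nat_le t1).trans (by omega)
    have h3 : sz t2 ≤ 4 * (b x + 2) + 1 := by
      have := Nat.size_le.2 ht2
      exact (sz_nat_le t2).trans (by omega)
    have h4 : sz j ≤ 4 * p.eval (b x) + 1 := by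
      have := NPC.Poly.size_le_self j
      exact (sz_nat_le j).trans (by omega)
    have h5 := sz_listBool_le x
    have h6 : x.length ≤ b x := Nat.le_add_right _ _
    have h7 : sz (x, (P, (j, (t1, t2)))) ≤ p3.eval (b x) := by
      rw [sz_pair, sz_pair, sz_pair, sz_pair, hp3]
      simp only [Polynomial.eval_add, Polynomial.eval_mul, Polynomial.eval_C, Polynomial.eval_X]
      omega
    have h8 := he (b x) hb2
    rw [Polynomial.eval_comp, Polynomial.eval_add] at h8
    have h9 := (hp1 (x, (P, (j, (t1, t2))))).trans (eval_mono p1 h7)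
    have h10 := (hp2 (x, (P, (j, (t1, t2))))).trans (eval_mono p2 h7)
    have h11 := length_lt_sz (f (bits (x, (P, (j, (t1, t2))))))
    constructor <;> omega
  have hmem : ∀ j t, lab P t (w.take j) = true ↔ 0 < value S (r (f (bits (x, (P, (j, t)))))) := by
    intro j t
    rw [← (hrS (f (bits (x, (P, (j, t)))))).2.2, ← hfA, bits_mem_lang]
    constructor
    · intro h
      exact ⟨w, v0, hw, h⟩
    · rintro ⟨w', v', hw', h⟩
      rw [huniq w' v' hw'] at h
      exact h
  have hgood : Good2 feat P (2 ^ k) x w z (4 * (v : ℤ) ^ 2) (v : ℤ) := by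
    refine ⟨?_, ?_, by positivity, ?_, ?_⟩
    · intro j _ t _ h
      have h1 := (hmem j t).1 h
      change 1 ≤ ev z (aug (r (f (bits (x, (P, (j, t)))))))
      rw [ev_aug S z hz1 hz0]
      omega
    · intro j _ t _ h
      have h1 : ¬ 0 < value S (r (f (bits (x, (P, (j, t)))))) := fun h' => by
        rw [(hmem j t).2 h'] at h
        exact absurd h (by simp)
      change ev z (aug (r (f (bits (x, (P, (j, t))))))) ≤ -1
      rw [ev_aug S z hz1 hz0]
      omega
    · intro j hj t ht
      have h3 := hN1 j hj t ht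
      have h4 := (hrS (f (bits (x, (P, (j, t)))))).2.1
      have h5 : d (f (bits (x, (P, (j, t))))).length ≤ qd.eval N :=
        (hqd _).trans (eval_mono qd h3.1)
      have h6 : wt (aug (r (f (bits (x, (P, (j, t))))))) ≤ 2 * v := by
        rw [wt_aug]; omega
      have h7 : ((wt (aug (r (f (bits (x, (P, (j, t))))))) : ℕ) : ℤ) ≤ 2 * (v : ℤ) := by
        exact_mod_cast h6
      have h8 := dot_le (aug (r (f (bits (x, (P, (j, t))))))) (aug (r (f (bits (x, (P, (j, t)))))))
      have h9 : (0 : ℤ) ≤ (wt (aug (r (f (bits (x, (P, (j, t))))))) : ℕ) := Int.natCast_nonneg _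
      change dot (aug (r (f (bits (x, (P, (j, t))))))) (aug (r (f (bits (x, (P, (j, t))))))) ≤
        4 * (v : ℤ) ^ 2
      nlinarith
    · intro Ω hΩ
      have h1 : ∑ Q ∈ Ω, z Q * z Q = ((Ω.filter (fun Q => ∀ y ∈ Q, y ∈ S)).card : ℤ) := by
        rw [Finset.card_filter]
        push_cast
        refine Finset.sum_congr rfl fun Q _ => ?_
        by_cases hQ : ∀ y ∈ Q, y ∈ S
        · rw [hz1 Q hQ, if_pos hQ]; norm_num
        · rw [hz0 Q hQ, if_neg hQ]; norm_num
      rw [h1]
      have h2 : (Ω.filter (fun Q => ∀ y ∈ Q, y ∈ S)).card ≤ (census S N + 1) ^ c := by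
        have key : ∀ Q ∈ Ω, Q.length ≤ c ∧ ∀ y ∈ Q, y.length ≤ N := by
          intro Q hQ
          obtain ⟨j, hj, t, ht, a, ha, haQ⟩ := hΩ Q hQ
          have h3 := hN1 j hj t ht
          rcases List.mem_cons.1
            (show a ∈ aug (r (f (bits (x, (P, (j, t)))))) from ha) with h4 | h4
          · rw [← haQ, h4]; simp
          · obtain ⟨s, hs, rfl⟩ := List.mem_map.1 h4
            subst haQ
            refine ⟨(hrS _).1 s hs, fun y hy => ?_⟩
            have e1 : sz s < sz (r (f (bits (x, (P, (j, t)))))) := sz_le_of_mem hs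
            have e2 : sz y < sz s.2 := sz_le_of_mem hy
            have e3 : sz s.2 < sz s := by
              have g1 : sz s = sz s.1 + sz s.2 + 1 := sz_pair s.1 s.2
              have g2 := sz_pos s.1
              omega
            have e4 : y.length < sz y := length_lt_sz y
            have e5 : sz (r (f (bits (x, (P, (j, t)))))) ≤ N := h3.2
            exact (e4.le.trans (e2.le.trans (e3.le.trans e1.le))).trans e5
        exact card_true_le S c N _ (fun Q hQ => (key Q (Finset.mem_filter.1 hQ).1).1)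
          (fun Q hQ y hy => ⟨(Finset.mem_filter.1 hQ).2 y hy,
            (key Q (Finset.mem_filter.1 hQ).1).2 y hy⟩)
      exact_mod_cast h2.trans hcv
  have hv0 : (0 : ℤ) ≤ (v : ℤ) := Int.natCast_nonneg _
  refine cands_correct hgood hPp hPk _ _ _ hwp ?_ ?_ ?_
  · rw [hn]
    push_cast
    nlinarith
  · rw [hn, hM]
    push_cast
    refine le_of_eq ?_
    ring
  · rw [hn]
    have h1 : 32 * v ^ 4 * (4 * v ^ 3 + 1) * w.length ≤ P := by
      have h2 : 32 * v ^ 4 * (4 * v ^ 3 + 1) * w.length ≤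
          32 * v ^ 4 * (4 * v ^ 3 + 1) * p.eval (b x) := Nat.mul_le_mul_left _ hwb
      omega
    have h3 : ((32 * v ^ 4 * (4 * v ^ 3 + 1) * w.length : ℕ) : ℤ) ≤ (P : ℤ) := by exact_mod_cast h1
    push_cast at h3 ⊢
    refine le_trans (le_of_eq ?_) h3
    ring

end Pool.Agent.H579R2.Spt
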