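import Pool.Agent.H579R2.Spt.Complete2

/-!
# Parallel queries to `NP`: short lists of candidates for the vector of answers
-/

namespace Pool.Agent.H579R2.Spt

open Pool.Agent.NPC Finset

/-- the list of booleans coded by a bit string -/
def db (y : List Bool) : List Bool := (unbits (List Bool) y).getD []

theorem db_poly : Poly db := NPC.Poly.optGetD poly_unbits (NPC.Poly.const [])

theorem db_bits (ys : List Bool) : db (bits ys) = ys := by
  unfold db
  rw [unbits_bits]
  rfl

/-- On input the pair of `x` and `k` in unary: `y` codes a list of as many booleans as there are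
queries, `k` of them true, and `w` codes a list of strings which contains witnesses for all queries
answered by true. -/
def par1 (Q : List Bool → List (List Bool)) (V : List Bool → List Bool) (p : Polynomial ℕ)
    (q : List Bool × (List Bool × List Bool)) : Bool :=
  (decide (bits (db q.2.1) = q.2.1) && decide ((db q.2.1).length = (Q (unpair q.1).1).length)) &&
  (decide (((db q.2.1).filter (fun b => b)).length = (unpair q.1).2.length) &&
    (decide ((dl q.2.2).length = (Q (unpair q.1).1).length) &&
      (((db q.2.1).zip ((Q (unpair q.1).1).zip (dl q.2.2))).all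
        (fun t => !t.1 || ver V p t.2.1 t.2.2))))

theorem par1_poly {Q : List Bool → List (List Bool)} (hQ : Poly Q) {V : List Bool → List Bool}
    (hV : PolyTime V) (p : Polynomial ℕ) : Poly (par1 Q V p) := by
  have e1 : Poly (fun q : List Bool × (List Bool × List Bool) => q.1) := NPC.Poly.fst NPC.Poly.id
  have e2 : Poly (fun q : List Bool × (List Bool × List Bool) => q.2.1) :=
    NPC.Poly.fst (NPC.Poly.snd NPC.Poly.id)
  have e3 : Poly (fun q : List Bool × (List Bool × List Bool) => q.2.2) :=
    NPC.Poly.snd (NPC.Poly.snd NPC.Poly.id)
  have d1 : Poly (fun q : List Bool × (List Bool × List Bool) => db q.2.1) := db_poly.comp e2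
  have d2 : Poly (fun q : List Bool × (List Bool × List Bool) => dl q.2.2) := dl_poly.comp e3
  have u : Poly (fun q : List Bool × (List Bool × List Bool) => unpair q.1) := poly_unpair.comp e1
  have uQ : Poly (fun q : List Bool × (List Bool × List Bool) => Q (unpair q.1).1) :=
    hQ.comp (NPC.Poly.fst u)
  refine NPC.Poly.and (NPC.Poly.and (NPC.Poly.decide_eq (bits_poly.comp d1) e2)
    (NPC.Poly.decide_eq (NPC.Poly.length d1) (NPC.Poly.length uQ)))
    (NPC.Poly.and (NPC.Poly.decide_eq (NPC.Poly.length (NPC.Poly.filter
      (l := fun q : List Bool × (List Bool × List Bool) => db q.2.1) (p := fun _ b => b) d1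
      (NPC.Poly.snd NPC.Poly.id))) (NPC.Poly.length (NPC.Poly.snd u))) (NPC.Poly.and
      (NPC.Poly.decide_eq (NPC.Poly.length d2) (NPC.Poly.length uQ)) ?_))
  refine NPC.Poly.all (l := fun q : List Bool × (List Bool × List Bool) =>
      (db q.2.1).zip ((Q (unpair q.1).1).zip (dl q.2.2)))
      (p := fun _ t => !t.1 || ver V p t.2.1 t.2.2)
      (NPC.Poly.zip d1 (NPC.Poly.zip uQ d2)) ?_
  have f1 : Poly (fun q : (List Bool × (List Bool × List Bool)) × (Bool × (List Bool × List Bool)) =>
      q.2.1) := NPC.Poly.fst (NPC.Poly.snd NPC.Poly.id)
  have f2 : Poly (fun q : (List Bool × (List Bool × List Bool)) × (Bool × (List Bool × List Bool)) =>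
      q.2.2) := NPC.Poly.snd (NPC.Poly.snd NPC.Poly.id)
  exact NPC.Poly.or (NPC.Poly.not f1) ((ver_poly hV p).comp f2)

theorem par1_iff {Q : List Bool → List (List Bool)} {V : List Bool → List Bool}
    {p : Polynomial ℕ} {x : List Bool} {k : ℕ} {y w : List Bool} :
    par1 Q V p (pairBits x (List.replicate k true), (y, w)) = true ↔
      bits (db y) = y ∧ (db y).length = (Q x).length ∧
        ((db y).filter (fun b => b)).length = k ∧ (dl w).length = (Q x).length ∧
        ∀ t ∈ (db y).zip ((Q x).zip (dl w)), t.1 = true → ver V p t.2.1 t.2.2 = true := by
  unfold par1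
  simp only [unpair_pairBits, List.length_replicate, Bool.and_eq_true, decide_eq_true_eq,
    List.all_eq_true, Bool.or_eq_true, Bool.not_eq_true']
  have h : ∀ (a b : Bool), (a = false ∨ b = true) ↔ (a = true → b = true) := by
    intro a b; cases a <;> cases b <;> simp
  simp only [h]
  tauto

/-- Two lists of booleans with pointwise implication and equally many true entries are equal. -/
theorem eq_of_imp_of_count : ∀ (l l' : List Bool), l.length = l'.length →
    (∀ t ∈ l.zip l', t.1 = true → t.2 = true) →
    (l.filter (fun b => b)).length = (l'.filter (fun b => b)).length → l = l' := by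
  have key : ∀ (l l' : List Bool), l.length = l'.length →
      (∀ t ∈ l.zip l', t.1 = true → t.2 = true) →
      (l.filter (fun b => b)).length ≤ (l'.filter (fun b => b)).length := by
    intro l
    induction l with
    | nil => intro l' _ _; simp
    | cons a l ih =>
      intro l' h1 h2
      cases l' with
      | nil => simp at h1
      | cons b l' =>
        have h3 := ih l' (by simpa using h1) (fun t ht => h2 t (by
          rw [List.zip_cons_cons]; exact List.mem_cons_of_mem _ ht))
        have h4 := h2 (a, b) (by simp)
        cases a <;> cases b
        · simpa using h3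
        · simp only [List.filter_cons, Bool.false_eq_true, if_false, if_true, List.length_cons]
          omega
        · simp at h4
        · simp only [List.filter_cons, if_true, List.length_cons]
          omega
  intro l
  induction l with
  | nil =>
    intro l' h1 _ _
    cases l' with
    | nil => rfl
    | cons b l' => simp at h1
  | cons a l ih =>
    intro l' h1 h2 h3
    cases l' with
    | nil => simp at h1
    | cons b l' =>
      have h5 : ∀ t ∈ l.zip l', t.1 = true → t.2 = true := fun t ht => h2 t (by
          rw [List.zip_cons_cons]; exact List.mem_cons_of_mem _ ht)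
      have h6 := key l l' (by simpa using h1) h5
      have h4 := h2 (a, b) (by simp)
      cases a <;> cases b
      · simp only [List.filter_cons, Bool.false_eq_true, if_false] at h3
        rw [ih l' (by simpa using h1) h5 h3]
      · simp only [List.filter_cons, Bool.false_eq_true, if_false, if_true,
          List.length_cons] at h3
        omega
      · simp at h4
      · simp only [List.filter_cons, if_true, List.length_cons] at h3
        rw [ih l' (by simpa using h1) h5 (by omega)]

open Classical in
/-- **Parallel queries.** The vectors of answers of an `NP` set to polynomially many parallel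
queries have polynomial-time computable lists of candidates. -/
theorem parallel_cands (A S : Set (List Bool)) (hA : NPHard A) (hS : Sparse S)
    (d : ℕ → ℕ) (c : ℕ) (hd : ∃ q : Polynomial ℕ, ∀ n, d n ≤ q.eval n)
    (hred : ThresholdReduces A S d (fun _ => c)) (L : Set (List Bool)) (hL : InNP L)
    (Q : List Bool → List (List Bool)) (hQ : PolyTime (fun x => bits (Q x))) :
    ∃ G : List Bool → List (List Bool), PolyTime (fun x => bits (G x)) ∧
      ∀ x, (Q x).map (fun q => decide (q ∈ L)) ∈ G x := by
  obtain ⟨V, p, hV, hLV⟩ := hL
  have hL2 : ∀ y, y ∈ L ↔ ∃ w, ver V p y w = true := by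
    intro y
    rw [hLV y]
    exact exists_congr fun w => ver_iff.symm
  have hQp : Poly Q := by
    have h1 : Poly (fun x => bits (Q x)) := PIso.poly_iff.2 hQ
    have h2 : Poly (fun x => dl (bits (Q x))) := dl_poly.comp h1
    exact h2.congr fun x => dl_bits _
  obtain ⟨pQ, hpQ⟩ := hQp.sz_le
  set pQ' : Polynomial ℕ := pQ.comp (Polynomial.C 4 * Polynomial.X + 1) with hpQ'
  have epQ : ∀ n, pQ'.eval n = pQ.eval (4 * n + 1) := by
    intro n
    rw [hpQ', Polynomial.eval_comp]
    simp
  have hQsz : ∀ x, sz (Q x) ≤ pQ'.eval x.length := by
    intro x
    rw [epQ]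
    exact (hpQ x).trans (eval_mono pQ (sz_listBool_le x))
  set P : Polynomial ℕ := Polynomial.C 4 * pQ' + pQ' * (Polynomial.C 4 * p.comp pQ' + 2) + 2 with hP
  have eP : ∀ n, P.eval n = 4 * pQ'.eval n + pQ'.eval n * (4 * p.eval (pQ'.eval n) + 2) + 2 := by
    intro n
    rw [hP]
    simp [Polynomial.eval_comp]
  obtain ⟨G, hG, hG2⟩ := npsv_search A S hA hS d c hd hred (par1_poly hQp hV p) P
  set G' : List Bool → List (List Bool) := fun x => (List.range ((Q x).length + 1)).flatMap
    (fun k => (G (pairBits x (List.replicate (min k (Q x).length) true))).map db) with hG'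
  have hG'p : Poly G' := by
    have uQ : UPoly (fun x => (Q x).length) := UPoly.length hQp
    refine NPC.Poly.flatMap (l := fun x => List.range ((Q x).length + 1))
      (F := fun x k => (G (pairBits x (List.replicate (min k (Q x).length) true))).map db)
      (uQ.add (UPoly.const 1)).range ?_
    have e1 : Poly (fun q : List Bool × ℕ => q.1) := NPC.Poly.fst NPC.Poly.id
    have e2 : Poly (fun q : List Bool × ℕ => q.2) := NPC.Poly.snd NPC.Poly.id
    have u3 : UPoly (fun q : List Bool × ℕ => min q.2 (Q q.1).length) :=
      UPoly.of_le (NPC.Poly.min e2 (uQ.comp e1).toPoly) (uQ.comp e1) (fun _ => min_le_right _ _)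
    have h1 : Poly (fun q : List Bool × List Bool => pairBits q.1 q.2) := by
      unfold pairBits
      fun_prop
    exact NPC.Poly.map (l := fun q : List Bool × ℕ =>
      G (pairBits q.1 (List.replicate (min q.2 (Q q.1).length) true))) (F := fun _ y => db y)
      (hG.comp (h1.comp (NPC.Poly.pair e1 (replicate_true_poly u3))))
      (db_poly.comp (NPC.Poly.snd NPC.Poly.id))
  refine ⟨G', polyTime_bits hG'p, fun x => ?_⟩
  set ys : List Bool := (Q x).map (fun q => decide (q ∈ L)) with hys
  have hyl : ys.length = (Q x).length := by rw [hys, List.length_map]
  set k : ℕ := (ys.filter (fun b => b)).length with hk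
  have hkQ : k ≤ (Q x).length := by
    rw [← hyl, hk]
    exact List.length_filter_le _ _
  have hxl : x.length ≤ (pairBits x (List.replicate k true)).length := by
    unfold pairBits
    rw [List.length_append, List.length_flatMap]
    simp
    omega
  have hmain : bits ys ∈ G (pairBits x (List.replicate k true)) := by
    apply hG2
    · obtain ⟨ws, hw1, hw2, hw3⟩ : ∃ ws : List (List Bool), ws.length = (Q x).length ∧
          (∀ t ∈ ys.zip ((Q x).zip ws), t.1 = true → ver V p t.2.1 t.2.2 = true) ∧
          ∀ w ∈ ws, w = [] ∨ ∃ y ∈ Q x, w.length ≤ p.eval y.length := by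
        rw [hys]
        generalize Q x = l
        induction l with
        | nil => exact ⟨[], by simp⟩
        | cons y l ih =>
          obtain ⟨ws, h1, h2, h3⟩ := ih
          by_cases hy : y ∈ L
          · obtain ⟨w, hw⟩ := (hL2 y).1 hy
            refine ⟨w :: ws, by simp [h1], ?_, ?_⟩
            · intro t ht
              rw [List.map_cons, List.zip_cons_cons, List.zip_cons_cons] at ht
              rcases List.mem_cons.1 ht with rfl | ht
              · exact fun _ => hw
              · exact h2 t ht
            · intro w' hw'
              rcases List.mem_cons.1 hw' with rfl | hw'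
              · exact Or.inr ⟨y, List.mem_cons_self, (ver_iff.1 hw).1⟩
              · rcases h3 w' hw' with h4 | ⟨y', hy', h4⟩
                · exact Or.inl h4
                · exact Or.inr ⟨y', List.mem_cons_of_mem _ hy', h4⟩
          · refine ⟨[] :: ws, by simp [h1], ?_, ?_⟩
            · intro t ht
              rw [List.map_cons, List.zip_cons_cons, List.zip_cons_cons] at ht
              rcases List.mem_cons.1 ht with rfl | ht
              · intro h5
                simp [hy] at h5
              · exact h2 t ht
            · intro w' hw'
              rcases List.mem_cons.1 hw' with rfl | hw'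
              · exact Or.inl rfl
              · rcases h3 w' hw' with h4 | ⟨y', hy', h4⟩
                · exact Or.inl h4
                · exact Or.inr ⟨y', List.mem_cons_of_mem _ hy', h4⟩
      have hq1 := hQsz x
      have hq2 : (Q x).length < sz (Q x) := length_lt_sz (Q x)
      have hq3 : pQ'.eval x.length ≤ pQ'.eval (pairBits x (List.replicate k true)).length :=
        eval_mono pQ' hxl
      refine ⟨bits ws, ?_, ?_, ?_⟩
      · rw [bits_length, eP]
        have h1 := sz_listBool_le ys
        have h2 : 0 ≤ pQ'.eval (pairBits x (List.replicate k true)).length *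
          (4 * p.eval (pQ'.eval (pairBits x (List.replicate k true)).length) + 2) := Nat.zero_le _
        omega
      · rw [bits_length, eP]
        have h1 := sz_le_length_mul ws
          (4 * p.eval (pQ'.eval (pairBits x (List.replicate k true)).length) + 1) (fun u hu => by
            have h5 := sz_listBool_le u
            rcases hw3 u hu with h6 | ⟨y, hy, h6⟩
            · rw [h6]; simp
            · have h7 : y.length ≤ pQ'.eval (pairBits x (List.replicate k true)).length := by
                have h8 := sz_le_of_mem hy
                have h9 := length_lt_sz y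
                omega
              have h8 := eval_mono p h7
              omega)
        have h2 : ws.length * (4 * p.eval (pQ'.eval (pairBits x (List.replicate k true)).length) +
            1 + 1) ≤ pQ'.eval (pairBits x (List.replicate k true)).length *
            (4 * p.eval (pQ'.eval (pairBits x (List.replicate k true)).length) + 2) :=
          Nat.mul_le_mul (by omega) (by omega)
        omega
      · rw [par1_iff, db_bits, dl_bits]
        exact ⟨rfl, hyl, rfl, hw1, hw2⟩
    · rintro y' w' ⟨_, _, h⟩
      rw [par1_iff] at h
      obtain ⟨h1, h2, h3, h4, h5⟩ := h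
      rw [← h1]
      congr 1
      refine eq_of_imp_of_count _ _ (by omega) ?_ h3
      intro t ht ht1
      -- the entry of index `i`
      obtain ⟨i, hi, hti⟩ := List.getElem_of_mem ht
      rw [List.getElem_zip] at hti
      have hi1 : i < (db y').length := by
        rw [List.length_zip] at hi; omega
      have hi2 : i < ys.length := by
        rw [List.length_zip] at hi; omega
      have hi3 : i < (Q x).length := by omega
      have hi4 : i < (dl w').length := by omega
      have h6 : ((db y')[i], ((Q x)[i], (dl w')[i])) ∈ (db y').zip ((Q x).zip (dl w')) := by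
        have hlen : i < ((db y').zip ((Q x).zip (dl w'))).length := by
          rw [List.length_zip, List.length_zip]; omega
        have h7 := List.getElem_mem hlen
        rw [List.getElem_zip, List.getElem_zip] at h7
        exact h7
      have h7 := h5 _ h6
      subst hti
      have h8 := h7 ht1
      change ys[i] = true
      simp only [hys, List.getElem_map, decide_eq_true_eq]
      exact (hL2 _).2 ⟨_, h8⟩
  refine List.mem_flatMap.2 ⟨k, List.mem_range.2 (by omega), ?_⟩
  rw [min_eq_left hkQ]
  exact List.mem_map.2 ⟨bits ys, hmain, db_bits ys⟩

end Pool.Agent.H579R2.Spt
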