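import Pool.Agent.H579R2.Spt.Search
import Pool.Agent.H671R2.PolyAuto
import Pool.Agent.H687R2.IntPoly
import Pool.Agent.H550R2.Iso.Raw
import Pool.Agent.NPC.Dec

/-!
# The pruned search is polynomial
-/

namespace Pool.Agent.H579R2.Spt

open Pool.Agent.NPC

attribute [local fun_prop] Poly.iadd Poly.imul Poly.ineg Poly.ilt Poly.ile Poly.isum
  Poly.natBits

variable {α β γ : Type} [TEnc α] [TEnc β] [TEnc γ]

theorem sz_bool_le3 (b : Bool) : sz b ≤ 3 := sz_bool_le b

theorem par_poly {f g : α → ℕ} (hf : Poly f) (hg : Poly g) : Poly (fun a => par (f a) (g a)) := by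
  refine Poly.foldr (l := fun a => (f a).bits.zip (g a).bits) (s := fun _ => false)
    (F := fun _ p s => xor (p.1 && p.2) s) (by fun_prop) (by fun_prop) (by fun_prop)
    (Polynomial.C 3) ?_
  intro a k _
  simpa using sz_bool_le _

attribute [local fun_prop] par_poly

theorem dot_poly {F : Type} [TEnc F] [DecidableEq F] {r w : α → List (ℤ × F)} (hr : Poly r)
    (hw : Poly w) : Poly (fun a => dot (r a) (w a)) := by
  unfold dot
  fun_prop

attribute [local fun_prop] dot_poly

theorem sc_poly {F : Type} [TEnc F] {h : α → Bool} {r : α → List (ℤ × F)} (hh : Poly h)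
    (hr : Poly r) : Poly (fun a => sc (h a) (r a)) := by
  have h1 : Poly (fun a => if h a = true then r a else (r a).map (fun b => (-b.1, b.2))) := by
    fun_prop
  exact h1

attribute [local fun_prop] sc_poly

theorem step_poly {F : Type} [TEnc F] [DecidableEq F] {D : α → List (List (ℤ × F))}
    {w : α → List (ℤ × F)} (hD : Poly D) (hw : Poly w) : Poly (fun a => step (D a) (w a)) := by
  unfold step
  fun_prop

attribute [local fun_prop] step_poly

theorem sz_run_le {F : Type} [TEnc F] [DecidableEq F] (D : List (List (ℤ × F))) (n : ℕ) :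
    sz (run D n) ≤ n * sz D + 1 := by
  induction n with
  | zero => simp [run]
  | succ n ih =>
    rw [run_succ]
    rcases step_cases D (run D n) with ⟨_, h2⟩ | ⟨r, hr, _, h2⟩
    · rw [h2]
      have : (n + 1) * sz D = n * sz D + sz D := by ring
      omega
    · rw [h2]
      have h3 := sz_append r (run D n)
      have h4 := sz_le_of_mem hr
      have : (n + 1) * sz D = n * sz D + sz D := by ring
      omega

theorem run_poly {F : Type} [TEnc F] [DecidableEq F] {D : α → List (List (ℤ × F))} {n : α → ℕ}
    (hD : Poly D) (hn : UPoly n) : Poly (fun a => run (D a) (n a)) := by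
  obtain ⟨p, hp⟩ := hD.sz_le
  obtain ⟨q, hq⟩ := Poly.sz_le hn
  have hq' : ∀ a, n a ≤ q.eval (sz a) := by
    intro a
    have h1 := hq a
    have h2 := length_lt_sz (List.replicate (n a) ())
    rw [List.length_replicate] at h2
    omega
  refine (Poly.iterLen (l := fun a => List.replicate (n a) ()) (s := fun _ => [])
    (F := fun a w => step (D a) w) hn (NPC.Poly.const _)
    (step_poly (hD.comp (Poly.fst Poly.id)) (Poly.snd Poly.id)) (q * p + 1) ?_).congr ?_
  · intro a k hk
    rw [List.length_replicate] at hk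
    have h1 := sz_run_le (D a) k
    have h2 := hp a
    have h3 := hq' a
    simp only [Polynomial.eval_add, Polynomial.eval_mul, Polynomial.eval_one]
    have h4 : k * sz (D a) ≤ q.eval (sz a) * p.eval (sz a) := Nat.mul_le_mul (hk.trans h3) h2
    change sz (run (D a) k) ≤ _
    omega
  · intro a
    rw [List.length_replicate]
    rfl

theorem ok_poly {F : Type} [TEnc F] [DecidableEq F] {D : α → List (List (ℤ × F))} {n : α → ℕ}
    (hD : Poly D) (hn : UPoly n) : Poly (fun a => ok (D a) (n a)) := by
  have h := run_poly hD hn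
  exact NPC.Poly.all (l := D) (p := fun a r => decide (0 < dot r (run (D a) (n a)))) hD
    (NPC.Poly.ilt (NPC.Poly.const 0) (dot_poly (NPC.Poly.snd NPC.Poly.id)
      (h.comp (NPC.Poly.fst NPC.Poly.id))))

theorem mask_poly {N : Type} [TEnc N] {W : α → List N} {i : α → ℕ} (hW : Poly W) (hi : Poly i) :
    Poly (fun a => mask (W a) (i a)) := by
  unfold mask
  fun_prop

theorem del_poly {N : Type} [TEnc N] {W : α → List N} {i : α → ℕ} (hW : Poly W) (hi : Poly i) :
    Poly (fun a => del (W a) (i a)) := by
  unfold del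
  fun_prop

attribute [local fun_prop] mask_poly del_poly

section search

variable {X F N : Type} [TEnc X] [TEnc F] [TEnc N] [DecidableEq F]
  {feat : X × List N → List (ℤ × F)}

theorem sys_poly (hf : Poly feat) {T : α → ℕ} {x : α → X} {W : α → List N} {v : α → ℕ}
    (hT : UPoly T) (hx : Poly x) (hW : Poly W) (hv : Poly v) :
    Poly (fun a => sys feat (T a) (x a) (W a) (v a)) := by
  have hr := hT.range
  have h1 : Poly (fun p : α × ℕ => feat (x p.1, mask (W p.1) p.2)) :=
    hf.comp (NPC.Poly.pair (hx.comp (NPC.Poly.fst NPC.Poly.id))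
      (mask_poly (hW.comp (NPC.Poly.fst NPC.Poly.id)) (NPC.Poly.snd NPC.Poly.id)))
  exact NPC.Poly.map (l := fun a => List.range (T a))
    (F := fun a i => sc (par i (v a)) (feat (x a, mask (W a) i))) hr
    (sc_poly (par_poly (NPC.Poly.snd NPC.Poly.id) (hv.comp (NPC.Poly.fst NPC.Poly.id))) h1)

theorem prune_poly (hf : Poly feat) {T n : α → ℕ} {x : α → X} {W : α → List N}
    (hT : UPoly T) (hn : UPoly n) (hx : Poly x) (hW : Poly W) :
    Poly (fun a => prune feat (T a) (n a) (x a) (W a)) := by
  have hl : Poly (fun a => List.range (W a).length) := (UPoly.length hW).range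
  have h1 : Poly (fun p : α × ℕ => ok (sys feat (T p.1) (x p.1) (W p.1) p.2) (n p.1)) :=
    ok_poly (sys_poly hf (hT.comp (NPC.Poly.fst NPC.Poly.id)) (hx.comp (NPC.Poly.fst NPC.Poly.id))
      (hW.comp (NPC.Poly.fst NPC.Poly.id)) (NPC.Poly.snd NPC.Poly.id))
      (hn.comp (NPC.Poly.fst NPC.Poly.id))
  have h2 : Poly (fun a => (List.range (W a).length).filter
      (fun v => !ok (sys feat (T a) (x a) (W a) v) (n a))) :=
    NPC.Poly.filter (p := fun a v => !ok (sys feat (T a) (x a) (W a) v) (n a)) hl
      (NPC.Poly.not h1)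
  exact NPC.Poly.optElim (h := fun a v => del (W a) v) (NPC.Poly.head? h2) (NPC.Poly.tail hW)
    (del_poly (hW.comp (NPC.Poly.fst NPC.Poly.id)) (NPC.Poly.snd NPC.Poly.id))

theorem ins_poly (hf : Poly feat) {T n M : α → ℕ} {x : α → X} {W : α → List N} {u : α → N}
    (hT : UPoly T) (hn : UPoly n) (hM : Poly M) (hx : Poly x) (hW : Poly W) (hu : Poly u) :
    Poly (fun a => ins feat (T a) (n a) (M a) (x a) (W a) (u a)) := by
  have h1 : Poly (fun a => u a :: W a) := NPC.Poly.cons hu hW
  exact NPC.Poly.ite (NPC.Poly.decide_le (NPC.Poly.length h1) hM) h1 (prune_poly hf hT hn hx h1)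

theorem sz_le_of_sublist {l l' : List N} (h : l.Sublist l') : sz l ≤ sz l' := by
  induction h with
  | slnil => exact le_rfl
  | cons a _ ih => rw [sz_list_cons]; omega
  | cons_cons a _ ih => rw [sz_list_cons, sz_list_cons]; omega

theorem del_sublist (W : List N) (v : ℕ) : (del W v).Sublist W := by
  have h1 : (W.zipIdx.filter (fun p => !decide (p.2 = v))).Sublist W.zipIdx :=
    List.filter_sublist
  have h2 := h1.map Prod.fst
  rwa [List.zipIdx_map_fst] at h2

theorem sz_ins_le (T n M : ℕ) (x : X) (W : List N) (u : N) :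
    sz (ins feat T n M x W u) ≤ sz u + sz W + 1 := by
  rw [← sz_list_cons]
  unfold ins
  split_ifs
  · exact le_rfl
  · rcases prune_cases feat T n x (u :: W) with ⟨_, h⟩ | ⟨v, _, _, h⟩
    · rw [h]; exact sz_le_of_sublist (List.tail_sublist _)
    · rw [h]; exact sz_le_of_sublist (del_sublist _ _)

theorem sz_foldl_ins_le (T n M : ℕ) (x : X) : ∀ (l acc : List N),
    sz (l.foldl (ins feat T n M x) acc) ≤ sz l + sz acc := by
  intro l
  induction l with
  | nil => intro acc; simp
  | cons u l ih =>
    intro acc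
    rw [List.foldl_cons, sz_list_cons]
    have h1 := ih (ins feat T n M x acc u)
    have h2 := sz_ins_le (feat := feat) T n M x acc u
    omega

theorem lvl_poly (hf : Poly feat) {T n M : α → ℕ} {x : α → X} {l : α → List N}
    (hT : UPoly T) (hn : UPoly n) (hM : Poly M) (hx : Poly x) (hl : Poly l) :
    Poly (fun a => lvl feat (T a) (n a) (M a) (x a) (l a)) := by
  obtain ⟨q, hq⟩ := hl.sz_le
  refine NPC.Poly.foldl (l := l) (s := fun _ => []) (F := fun a W u =>
    ins feat (T a) (n a) (M a) (x a) W u) hl (NPC.Poly.const _)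
    (ins_poly hf (hT.comp (NPC.Poly.fst NPC.Poly.id)) (hn.comp (NPC.Poly.fst NPC.Poly.id))
      (hM.comp (NPC.Poly.fst NPC.Poly.id)) (hx.comp (NPC.Poly.fst NPC.Poly.id))
      (NPC.Poly.fst (NPC.Poly.snd NPC.Poly.id)) (NPC.Poly.snd (NPC.Poly.snd NPC.Poly.id)))
    (q + 1) ?_
  intro a k _
  have h1 := sz_foldl_ins_le (feat := feat) (T a) (n a) (M a) (x a) ((l a).take k) []
  have h2 := NPC.Poly.sz_take_le (l a) k
  have h3 := hq a
  have h4 : sz ([] : List N) = 1 := rfl
  rw [h4] at h1
  simp only [Polynomial.eval_add, Polynomial.eval_one]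
  change sz (((l a).take k).foldl (ins feat (T a) (n a) (M a) (x a)) []) ≤ _
  omega

end search

theorem children_poly {W : α → List (List Bool)} (hW : Poly W) :
    Poly (fun a => children (W a)) := by
  unfold children
  fun_prop

theorem search_poly {X F : Type} [TEnc X] [TEnc F] [DecidableEq F]
    {feat : X × List (List Bool) → List (ℤ × F)} (hf : Poly feat) {V : X → List Bool → Bool}
    (hV : Poly (fun p : X × List Bool => V p.1 p.2)) {T n M p : X → ℕ}
    (hT : UPoly T) (hn : UPoly n) (hM : UPoly M) (hp : UPoly p) :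
    Poly (fun x => search feat V (T x) (n x) (M x) (p x) x) := by
  obtain ⟨qM, hqM⟩ := hM.toPoly.sz_le
  obtain ⟨qM', hqM'⟩ := Poly.sz_le hM
  obtain ⟨qp', hqp'⟩ := Poly.sz_le hp
  have hMle : ∀ a, M a ≤ qM'.eval (sz a) := by
    intro a
    have h1 := hqM' a
    have h2 := length_lt_sz (List.replicate (M a) ())
    rw [List.length_replicate] at h2
    omega
  have hple : ∀ a, p a ≤ qp'.eval (sz a) := by
    intro a
    have h1 := hqp' a
    have h2 := length_lt_sz (List.replicate (p a) ())
    rw [List.length_replicate] at h2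
    omega
  have hstep : Poly (fun q : X × Bool × List (List Bool) =>
      srch feat V (T q.1) (n q.1) (M q.1) q.1 q.2) := by
    have e1 : Poly (fun q : X × Bool × List (List Bool) => q.1) := NPC.Poly.fst NPC.Poly.id
    have e2 : Poly (fun q : X × Bool × List (List Bool) => q.2.2) :=
      NPC.Poly.snd (NPC.Poly.snd NPC.Poly.id)
    refine NPC.Poly.pair (NPC.Poly.or (NPC.Poly.fst (NPC.Poly.snd NPC.Poly.id)) ?_) ?_
    · exact NPC.Poly.any (l := fun q : X × Bool × List (List Bool) => q.2.2)
        (p := fun q w => V q.1 w) e2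
        (hV.comp (NPC.Poly.pair (NPC.Poly.fst (NPC.Poly.fst NPC.Poly.id))
          (NPC.Poly.snd NPC.Poly.id)))
    · exact lvl_poly hf (hT.comp e1) (hn.comp e1) (hM.toPoly.comp e1) e1 (children_poly e2)
  have hpl : UPoly (fun x => p x + 1) := hp.add (UPoly.const 1)
  have h1 := NPC.Poly.iterLen (l := fun x => List.replicate (p x + 1) ())
    (s := fun _ : X => (false, [[]])) (F := fun x s => srch feat V (T x) (n x) (M x) x s) hpl
    (NPC.Poly.const _) hstep ((qM' + 1) * (Polynomial.C 4 * qp' + 8) + 8) (by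
      intro a k hk
      rw [List.length_replicate] at hk
      obtain ⟨_, h2, h3⟩ := search_inv (feat := feat) (V := V) (T a) (n a) (M a) a k
      set s := (srch feat V (T a) (n a) (M a) a)^[k] (false, [[]])
      have h4 := sz_le_length_mul s.2 (4 * k + 1) (fun u hu => by
        have := sz_listBool_le u
        rw [h2 u hu] at this
        exact this)
      have h5 := sz_bool_le s.1
      have h6 : sz s = sz s.1 + sz s.2 + 1 := sz_pair _ _
      have h7 := hMle a
      have h8 := hple a
      simp only [Polynomial.eval_add, Polynomial.eval_mul, Polynomial.eval_C, Polynomial.eval_one,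
        Polynomial.eval_ofNat]
      have h9 : s.2.length ≤ qM'.eval (sz a) + 1 := h3.trans (by omega)
      have h10 : 4 * k + 1 + 1 ≤ 4 * qp'.eval (sz a) + 8 := by omega
      have h11 := Nat.mul_le_mul h9 h10
      omega)
  refine (NPC.Poly.fst h1).congr fun x => ?_
  rw [List.length_replicate]
  rfl

end Pool.Agent.H579R2.Spt
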