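import Pool.Agent.H579R2.Spt.Search2
import Pool.Agent.H579R2.Spt.SPoly

/-!
# The search for a unique certificate is polynomial
-/

namespace Pool.Agent.H579R2.Spt

open Pool.Agent.NPC

variable {α : Type} [TEnc α]

theorem hv_le (P a : ℕ) (u : List Bool) : hv P a u ≤ (a + 2) ^ u.length := by
  induction u with
  | nil => simp [hv]
  | cons b u ih =>
    have h : hv P a (b :: u) = (b.toNat + a * hv P a u) % P := rfl
    rw [h, List.length_cons, pow_succ]
    refine (Nat.mod_le _ _).trans ?_
    have h1 : b.toNat ≤ 1 := Bool.toNat_le b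
    have h2 : 1 ≤ (a + 2) ^ u.length := Nat.one_le_pow _ _ (by omega)
    have h3 : a * hv P a u ≤ a * (a + 2) ^ u.length := Nat.mul_le_mul_left _ ih
    have h4 : (a + 2) ^ u.length * (a + 2) = a * (a + 2) ^ u.length + 2 * (a + 2) ^ u.length := by
      ring
    omega

theorem sz_hv_le (P a : ℕ) (u : List Bool) : sz (hv P a u) ≤ 4 * (sz u * (sz a + 2) + 1) + 1 := by
  refine (sz_nat_le _).trans ?_
  have h1 := Nat.size_le_size (hv_le P a u)
  have h2 := size_pow_le (a + 2) u.length
  have h3 : (a + 2).size ≤ sz a + 2 := by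
    rw [Nat.size_le]
    have h4 : a < 2 ^ a.size := Nat.lt_size_self a
    have h5 := size_le_sz a
    have h6 : 2 ^ a.size ≤ 2 ^ sz a := Nat.pow_le_pow_right (by omega) (by omega)
    have h7 : 0 < 2 ^ sz a := by positivity
    have h8 : 2 ^ (sz a + 2) = 4 * 2 ^ sz a := by ring
    omega
  have h4 := length_lt_sz u
  have h5 : u.length * (a + 2).size ≤ sz u * (sz a + 2) := Nat.mul_le_mul h4.le h3
  omega

theorem hv_poly {P a : α → ℕ} {u : α → List Bool} (hP : Poly P) (ha : Poly a) (hu : Poly u) :
    Poly (fun x => hv (P x) (a x) (u x)) := by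
  obtain ⟨qu, hqu⟩ := hu.sz_le
  obtain ⟨qa, hqa⟩ := ha.sz_le
  refine NPC.Poly.foldr (l := u) (s := fun _ => 0)
    (F := fun x b s => (b.toNat + a x * s) % P x) hu (NPC.Poly.const 0) ?_
    (Polynomial.C 4 * (qu * (qa + 2) + 1) + 1) ?_
  · have h1 : Poly (fun p : α × Bool × ℕ => p.2.1.toNat) :=
      (NPC.Poly.cond (b := fun p : α × Bool × ℕ => p.2.1) (NPC.Poly.fst (NPC.Poly.snd NPC.Poly.id))
        (NPC.Poly.const 1) (NPC.Poly.const 0)).congr fun p => by
          cases p.2.1 <;> rfl
    exact NPC.Poly.mod (NPC.Poly.add h1 (NPC.Poly.mul (ha.comp (NPC.Poly.fst NPC.Poly.id))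
      (NPC.Poly.snd (NPC.Poly.snd NPC.Poly.id)))) (hP.comp (NPC.Poly.fst NPC.Poly.id))
  · intro x k _
    have h1 := sz_hv_le (P x) (a x) ((u x).drop k)
    have h2 := NPC.Poly.sz_drop_le (u x) k
    have h3 := hqu x
    have h4 := hqa x
    have h5 : sz ((u x).drop k) * (sz (a x) + 2) ≤ qu.eval (sz x) * (qa.eval (sz x) + 2) :=
      Nat.mul_le_mul (h2.trans h3) (by omega)
    change sz (hv (P x) (a x) ((u x).drop k)) ≤ _
    simp only [Polynomial.eval_add, Polynomial.eval_mul, Polynomial.eval_C, Polynomial.eval_one,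
      Polynomial.eval_ofNat]
    omega

theorem lab_poly {P : α → ℕ} {t : α → ℕ × ℕ} {u : α → List Bool} (hP : Poly P) (ht : Poly t)
    (hu : Poly u) : Poly (fun x => lab (P x) (t x) (u x)) :=
  par_poly (NPC.Poly.snd ht) (hv_poly hP (NPC.Poly.fst ht) hu)

theorem tests_poly {P T : α → ℕ} (hP : UPoly P) (hT : UPoly T) :
    Poly (fun x => tests (P x) (T x)) := by
  refine NPC.Poly.flatMap (l := fun x => List.range (P x))
    (F := fun x a => (List.range (T x)).map (fun b => (a, b))) hP.range ?_
  exact NPC.Poly.map (l := fun p : α × ℕ => List.range (T p.1)) (F := fun p b => (p.2, b))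
    (hT.range.comp (NPC.Poly.fst NPC.Poly.id))
    (NPC.Poly.pair (NPC.Poly.snd (NPC.Poly.fst NPC.Poly.id)) (NPC.Poly.snd NPC.Poly.id))

section search

variable {X F : Type} [TEnc X] [TEnc F] [DecidableEq F]
  {feat : X × (ℕ × (ℕ × (ℕ × ℕ))) → List (ℤ × F)}

theorem sys2_poly (hf : Poly feat) {P T : α → ℕ} {x : α → X} {u : α → List Bool}
    (hP : UPoly P) (hT : UPoly T) (hx : Poly x) (hu : Poly u) :
    Poly (fun a => sys2 feat (P a) (T a) (x a) (u a)) := by
  have e1 : Poly (fun p : α × ℕ × ℕ => p.1) := NPC.Poly.fst NPC.Poly.id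
  have e2 : Poly (fun p : α × ℕ × ℕ => p.2) := NPC.Poly.snd NPC.Poly.id
  have hP' := hP.toPoly
  exact NPC.Poly.map (l := fun a => tests (P a) (T a))
    (F := fun a t => sc (lab (P a) t (u a)) (feat (x a, (P a, ((u a).length, t)))))
    (tests_poly hP hT)
    (sc_poly (lab_poly (hP'.comp e1) e2 (hu.comp e1))
      (hf.comp (NPC.Poly.pair (hx.comp e1) (NPC.Poly.pair (hP'.comp e1)
        (NPC.Poly.pair (NPC.Poly.length (hu.comp e1)) e2)))))

theorem next2_poly (hf : Poly feat) {P T n M : α → ℕ} {x : α → X} {W : α → List (List Bool)}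
    (hP : UPoly P) (hT : UPoly T) (hn : UPoly n) (hM : Poly M) (hx : Poly x) (hW : Poly W) :
    Poly (fun a => next2 feat (P a) (T a) (n a) (M a) (x a) (W a)) := by
  have e1 : Poly (fun p : α × List Bool => p.1) := NPC.Poly.fst NPC.Poly.id
  have e2 : Poly (fun p : α × List Bool => p.2) := NPC.Poly.snd NPC.Poly.id
  have h1 : Poly (fun a => (children (W a)).filter
      (fun u => ok (sys2 feat (P a) (T a) (x a) u) (n a))) :=
    NPC.Poly.filter (p := fun a u => ok (sys2 feat (P a) (T a) (x a) u) (n a)) (children_poly hW)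
      (ok_poly (sys2_poly hf (hP.comp e1) (hT.comp e1) (hx.comp e1) e2) (hn.comp e1))
  exact NPC.Poly.ite (NPC.Poly.decide_le (NPC.Poly.length h1) hM) h1 (NPC.Poly.const [])

theorem find2_poly (hf : Poly feat) {V : X → List Bool → Bool}
    (hV : Poly (fun p : X × List Bool => V p.1 p.2)) {P T n M p : X → ℕ}
    (hP : UPoly P) (hT : UPoly T) (hn : UPoly n) (hM : UPoly M) (hp : UPoly p) :
    Poly (fun x => find2 feat V (P x) (T x) (n x) (M x) (p x) x) := by
  obtain ⟨qM', hqM'⟩ := Poly.sz_le hM
  obtain ⟨qp', hqp'⟩ := Poly.sz_le hp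
  have hMle : ∀ a, M a ≤ qM'.eval (sz a) := by
    intro a
    have h1 := hqM' a
    have h2 := length_lt_sz (List.replicate (M a) ())
    rw [List.length_replicate] at h2
    omega
  have hple : ∀ a, p a ≤ qp'.eval (sz a) := by
    intro a
    have h1 := hqp' a
    have h2 := length_lt_sz (List.replicate (p a) ())
    rw [List.length_replicate] at h2
    omega
  have hstep : Poly (fun q : X × Option (List Bool) × List (List Bool) =>
      srch2 feat V (P q.1) (T q.1) (n q.1) (M q.1) q.1 q.2) := by
    have e1 : Poly (fun q : X × Option (List Bool) × List (List Bool) => q.1) :=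
      NPC.Poly.fst NPC.Poly.id
    have e2 : Poly (fun q : X × Option (List Bool) × List (List Bool) => q.2.2) :=
      NPC.Poly.snd (NPC.Poly.snd NPC.Poly.id)
    have e3 : Poly (fun q : X × Option (List Bool) × List (List Bool) => q.2.1) :=
      NPC.Poly.fst (NPC.Poly.snd NPC.Poly.id)
    refine NPC.Poly.pair ?_ (next2_poly hf (hP.comp e1) (hT.comp e1) (hn.comp e1)
      (hM.toPoly.comp e1) e1 e2)
    have h1 : Poly (fun q : X × Option (List Bool) × List (List Bool) =>
        (q.2.2.filter (V q.1)).head?) :=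
      NPC.Poly.head? (NPC.Poly.filter (p := fun (q : X × Option (List Bool) × List (List Bool)) w =>
        V q.1 w) e2 (hV.comp (NPC.Poly.pair (NPC.Poly.fst (NPC.Poly.fst NPC.Poly.id))
          (NPC.Poly.snd NPC.Poly.id))))
    exact NPC.Poly.ite (NPC.Poly.decide_bool (NPC.Poly.isSome e3)) e3 h1
  have hpl : UPoly (fun x => p x + 1) := hp.add (UPoly.const 1)
  have h1 := NPC.Poly.iterLen (l := fun x => List.replicate (p x + 1) ())
    (s := fun _ : X => ((none, [[]]) : Option (List Bool) × List (List Bool)))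
    (F := fun x s => srch2 feat V (P x) (T x) (n x) (M x) x s) hpl
    (NPC.Poly.const _) hstep
    ((qM' + 1) * (Polynomial.C 4 * qp' + 8) + Polynomial.C 4 * qp' + 16) (by
      intro a k hk
      rw [List.length_replicate] at hk
      obtain ⟨h2, h3, _, h5⟩ := srch2_inv feat V (P a) (T a) (n a) (M a) a k
      set s := (srch2 feat V (P a) (T a) (n a) (M a) a)^[k] (none, [[]])
      have h4 := sz_le_length_mul s.2 (4 * k + 1) (fun u hu => by
        have := sz_listBool_le u
        rw [h2 u hu] at this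
        exact this)
      have h6 : sz s = sz s.1 + sz s.2 + 1 := sz_pair _ _
      have h7 := hMle a
      have h8 := hple a
      have h12 : sz s.1 ≤ 4 * k + 3 := by
        cases hs : s.1 with
        | none => rw [sz_none]; omega
        | some w =>
          rw [sz_some]
          have := sz_listBool_le w
          have := (h5 w hs).2
          omega
      simp only [Polynomial.eval_add, Polynomial.eval_mul, Polynomial.eval_C, Polynomial.eval_one,
        Polynomial.eval_ofNat]
      have h9 : s.2.length ≤ qM'.eval (sz a) + 1 := h3.trans (by omega)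
      have h10 : 4 * k + 1 + 1 ≤ 4 * qp'.eval (sz a) + 8 := by omega
      have h11 := Nat.mul_le_mul h9 h10
      omega)
  have h2 : Poly (fun x => (((srch2 feat V (P x) (T x) (n x) (M x) x)^[p x + 1]
      (none, [[]])).1).getD []) := by
    refine NPC.Poly.optGetD ?_ (NPC.Poly.const [])
    refine (NPC.Poly.fst h1).congr fun x => ?_
    rw [List.length_replicate]
  exact h2

end search

/-! ### Finding a prime -/

/-- trial division -/
def isPr (m : ℕ) (l : List ℕ) : Bool :=
  decide (2 ≤ m) && l.all (fun d => decide (d < 2) || (decide (m ≤ d) || !decide (m % d = 0)))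

theorem isPr_iff {m B : ℕ} (hB : m ≤ B) : isPr m (List.range B) = true ↔ m.Prime := by
  rw [Nat.prime_def_lt]
  simp only [isPr, Bool.and_eq_true, decide_eq_true_eq, List.all_eq_true, List.mem_range,
    Bool.or_eq_true, Bool.not_eq_true', decide_eq_false_iff_not]
  constructor
  · rintro ⟨h1, h2⟩
    refine ⟨h1, fun d hd hdm => ?_⟩
    rcases h2 d (by omega) with h | h | h
    · have : d ≠ 0 := by
        rintro rfl
        rw [Nat.zero_dvd] at hdm
        omega
      omega
    · omega
    · exact absurd (Nat.mod_eq_zero_of_dvd hdm) h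
  · rintro ⟨h1, h2⟩
    refine ⟨h1, fun d _ => ?_⟩
    by_cases h3 : d < 2
    · exact Or.inl h3
    · by_cases h4 : m ≤ d
      · exact Or.inr (Or.inl h4)
      · refine Or.inr (Or.inr fun h5 => ?_)
        have := h2 d (by omega) (Nat.dvd_of_mod_eq_zero h5)
        omega

/-- the first prime greater than `m` and at most `2 * m` -/
def prm (m : ℕ) : ℕ :=
  (((List.range (2 * m + 1)).filter
    (fun q => decide (m < q) && isPr q (List.range (2 * m + 1)))).head?).getD 2

theorem prm_spec {m : ℕ} (hm : m ≠ 0) : (prm m).Prime ∧ m < prm m ∧ prm m ≤ 2 * m := by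
  obtain ⟨q, hq, h1, h2⟩ := Nat.exists_prime_lt_and_le_two_mul m hm
  have h3 : q ∈ (List.range (2 * m + 1)).filter
      (fun q => decide (m < q) && isPr q (List.range (2 * m + 1))) := by
    rw [List.mem_filter]
    refine ⟨List.mem_range.2 (by omega), ?_⟩
    rw [Bool.and_eq_true, decide_eq_true_eq]
    exact ⟨h1, (isPr_iff (by omega)).2 hq⟩
  unfold prm
  cases hl : (List.range (2 * m + 1)).filter
      (fun q => decide (m < q) && isPr q (List.range (2 * m + 1))) with
  | nil => rw [hl] at h3; simp at h3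
  | cons a l =>
    have h4 : a ∈ (List.range (2 * m + 1)).filter
        (fun q => decide (m < q) && isPr q (List.range (2 * m + 1))) := by
      rw [hl]; exact List.mem_cons_self
    rw [List.mem_filter, Bool.and_eq_true, decide_eq_true_eq] at h4
    obtain ⟨h5, h6, h7⟩ := h4
    have h8 := List.mem_range.1 h5
    have h9 : a.Prime := (isPr_iff (show a ≤ 2 * m + 1 by omega)).1 h7
    have h10 : a ≤ 2 * m := by omega
    exact ⟨h9, h6, h10⟩

theorem prm_le (m : ℕ) : prm m ≤ 2 * m + 2 := by
  rcases Nat.eq_zero_or_pos m with h | h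
  · subst h
    decide
  · have := (prm_spec (m := m) (by omega)).2.2
    omega

theorem prm_poly {m : α → ℕ} (hm : UPoly m) : UPoly (fun a => prm (m a)) := by
  have hr : Poly (fun a => List.range (2 * m a + 1)) :=
    (((UPoly.const 2).mul hm).add (UPoly.const 1)).range
  have e1 : Poly (fun p : α × ℕ => p.1) := NPC.Poly.fst NPC.Poly.id
  have e2 : Poly (fun p : α × ℕ => p.2) := NPC.Poly.snd NPC.Poly.id
  have h1 : Poly (fun p : (α × ℕ) × ℕ => decide (p.2 < 2) ||
      (decide (p.1.2 ≤ p.2) || !decide (p.1.2 % p.2 = 0))) := by fun_prop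
  have h2 : Poly (fun p : α × ℕ => isPr p.2 (List.range (2 * m p.1 + 1))) :=
    NPC.Poly.and (NPC.Poly.decide_le (NPC.Poly.const 2) e2)
      (NPC.Poly.all (l := fun p : α × ℕ => List.range (2 * m p.1 + 1))
        (p := fun p d => decide (d < 2) || (decide (p.2 ≤ d) || !decide (p.2 % d = 0)))
        (hr.comp e1) h1)
  have h3 : Poly (fun a => prm (m a)) :=
    NPC.Poly.optGetD (NPC.Poly.head? (NPC.Poly.filter
      (p := fun a q => decide (m a < q) && isPr q (List.range (2 * m a + 1))) hr
      (NPC.Poly.and (NPC.Poly.decide_lt (hm.toPoly.comp e1) e2) h2))) (NPC.Poly.const 2)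
  exact UPoly.of_le h3 (((UPoly.const 2).mul hm).add (UPoly.const 2)) fun a => prm_le (m a)

/-- `2 ^ size` of a polynomially bounded number -/
theorem two_pow_size_poly {m : α → ℕ} (hm : UPoly m) : UPoly (fun a => 2 ^ Nat.size (m a)) := by
  have hsize : UPoly (fun x => Nat.size (m x)) := by
    have h1 : Poly (fun x => (m x).bits) := NPC.Poly.natBits hm.toPoly
    have h2 := UPoly.length h1
    have h3 : (fun x => Nat.size (m x)) = fun x => (m x).bits.length := by
      funext x
      exact (Nat.size_eq_bits_len _).symm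
    rw [h3]
    exact h2
  refine UPoly.of_le (NPC.Poly.npow (NPC.Poly.const 2) hsize)
    (((UPoly.const 2).mul hm).add (UPoly.const 1)) fun x => ?_
  rcases Nat.eq_zero_or_pos (m x) with h0 | h0
  · rw [h0]; simp
  · have h1 : 0 < Nat.size (m x) := Nat.size_pos.2 h0
    have h2 : 2 ^ (Nat.size (m x) - 1) ≤ m x := by
      by_contra hcon
      have := Nat.size_le.2 (not_le.1 hcon)
      omega
    have h3 : 2 ^ Nat.size (m x) = 2 * 2 ^ (Nat.size (m x) - 1) := by
      rw [← pow_succ']
      congr 1
      omega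
    omega

end Pool.Agent.H579R2.Spt
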