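import Pool.Agent.H579R2.Spt.Had

/-!
# Pruned tree search
-/

namespace Pool.Agent.H579R2.Spt

open Finset

variable {X F N : Type} [DecidableEq F]

/-- The entries of `W` whose position has odd parity with `i`. -/
def mask (W : List N) (i : ℕ) : List N := (W.zipIdx.filter (fun p => par i p.2)).map Prod.fst

/-- Delete the entry at position `v`. -/
def del (W : List N) (v : ℕ) : List N :=
  (W.zipIdx.filter (fun p => !decide (p.2 = v))).map Prod.fst

/-- The system expressing that the entry at position `v` is the only true one. -/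
def sys (feat : X × List N → List (ℤ × F)) (T : ℕ) (x : X) (W : List N) (v : ℕ) :
    List (List (ℤ × F)) :=
  (List.range T).map (fun i => sc (par i v) (feat (x, mask W i)))

/-- Delete an entry whose system is not solved by the perceptron. -/
def prune (feat : X × List N → List (ℤ × F)) (T n : ℕ) (x : X) (W : List N) : List N :=
  (((List.range W.length).filter (fun v => !ok (sys feat T x W v) n)).head?).elim W.tail
    (fun v => del W v)

/-- Insert a new entry; prune if there are more than `M` entries. -/
def ins (feat : X × List N → List (ℤ × F)) (T n M : ℕ) (x : X) (acc : List N) (u : N) : List N :=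
  if (u :: acc).length ≤ M then u :: acc else prune feat T n x (u :: acc)

/-- Insert all entries of a list. -/
def lvl (feat : X × List N → List (ℤ × F)) (T n M : ℕ) (x : X) (l : List N) : List N :=
  l.foldl (ins feat T n M x) []

theorem mem_mask {W : List N} {i : ℕ} {u : N} :
    u ∈ mask W i ↔ ∃ j, W[j]? = some u ∧ par i j = true := by
  simp only [mask, List.mem_map, List.mem_filter, Prod.exists, List.mem_zipIdx_iff_getElem?]
  constructor
  · rintro ⟨a, j, ⟨h1, h2⟩, rfl⟩
    exact ⟨j, h1, h2⟩
  · rintro ⟨j, h1, h2⟩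
    exact ⟨u, j, ⟨h1, h2⟩, rfl⟩

theorem mem_del {W : List N} {v : ℕ} {u : N} :
    u ∈ del W v ↔ ∃ j, W[j]? = some u ∧ j ≠ v := by
  simp only [del, List.mem_map, List.mem_filter, Prod.exists, List.mem_zipIdx_iff_getElem?]
  constructor
  · rintro ⟨a, j, ⟨h1, h2⟩, rfl⟩
    exact ⟨j, h1, by simpa using h2⟩
  · rintro ⟨j, h1, h2⟩
    exact ⟨u, j, ⟨h1, by simpa using h2⟩, rfl⟩

theorem mask_subset (W : List N) (i : ℕ) : ∀ u ∈ mask W i, u ∈ W := by
  intro u hu
  obtain ⟨j, h1, _⟩ := mem_mask.1 hu
  exact List.mem_of_getElem? h1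

theorem mask_length (W : List N) (i : ℕ) : (mask W i).length ≤ W.length := by
  rw [mask, List.length_map]
  exact (List.length_filter_le _ _).trans (by simp)

theorem del_subset (W : List N) (v : ℕ) : ∀ u ∈ del W v, u ∈ W := by
  intro u hu
  obtain ⟨j, h1, _⟩ := mem_del.1 hu
  exact List.mem_of_getElem? h1

theorem del_length (W : List N) (v : ℕ) (hv : v < W.length) : (del W v).length < W.length := by
  rw [del, List.length_map]
  have h : (W.zipIdx.filter (fun p => !decide (p.2 = v))).length < W.zipIdx.length := by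
    rw [List.length_filter_lt_length_iff_exists]
    refine ⟨(W[v], v), ?_, by simp⟩
    rw [List.mem_zipIdx_iff_getElem?]
    simp [hv]
  simpa using h

/-- Deleting an entry whose system is not solved does not lose the truth. -/
theorem del_safe (feat : X × List N → List (ℤ × F)) (T n : ℕ) (x : X) (W : List N) (v : ℕ)
    (Tr : N → Prop) (z : F → ℤ)
    (h1 : ∀ i < T, (∃ u ∈ mask W i, Tr u) → 1 ≤ ev z (feat (x, mask W i)))
    (h2 : ∀ i < T, (¬ ∃ u ∈ mask W i, Tr u) → ev z (feat (x, mask W i)) ≤ -1)
    (R Z : ℤ) (hR0 : 0 ≤ R)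
    (hR : ∀ i < T, dot (feat (x, mask W i)) (feat (x, mask W i)) ≤ R)
    (hZ : ∀ Ω : Finset F, (∀ Q ∈ Ω, ∃ i < T, ∃ a ∈ feat (x, mask W i), a.2 = Q) →
      ∑ Q ∈ Ω, z Q * z Q ≤ Z)
    (hn : R * Z < n) (hok : ok (sys feat T x W v) n = false) (hW : ∃ u ∈ W, Tr u) :
    ∃ u ∈ del W v, Tr u := by
  by_contra hc
  push Not at hc
  -- the only true entry is at position v
  have h3 : ∀ j u, W[j]? = some u → Tr u → j = v := by
    intro j u hj hu
    by_contra hjv
    exact hc u (mem_del.2 ⟨j, hj, hjv⟩) hu
  obtain ⟨u0, hu0, ht0⟩ := hW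
  obtain ⟨j0, hj0⟩ := List.mem_iff_getElem?.1 hu0
  have hj0v := h3 j0 u0 hj0 ht0
  subst hj0v
  have h4 : ∀ i, (∃ u ∈ mask W i, Tr u) ↔ par i j0 = true := by
    intro i
    constructor
    · rintro ⟨u, hu, ht⟩
      obtain ⟨j, hj, hp⟩ := mem_mask.1 hu
      rw [← h3 j u hj ht]; exact hp
    · intro hp
      exact ⟨u0, mem_mask.2 ⟨j0, hj0, hp⟩, ht0⟩
  have h5 : ∀ r ∈ sys feat T x W j0, 1 ≤ ev z r := by
    intro r hr
    obtain ⟨i, hi, rfl⟩ := List.mem_map.1 hr
    have hi' := List.mem_range.1 hi
    rw [ev_sc]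
    cases hp : par i j0
    · have := h2 i hi' (by rw [h4, hp]; simp)
      simp only [Bool.false_eq_true, if_false]
      omega
    · exact h1 i hi' (by rw [h4, hp])
  set Ω : Finset F := (Finset.range T).biUnion (fun i => supp (feat (x, mask W i))) with hΩ
  have h6 : ok (sys feat T x W j0) n = true := by
    refine ok_of_realizable _ z h5 R Z hR0 ?_ Ω ?_ ?_ n hn
    · intro r hr
      obtain ⟨i, hi, rfl⟩ := List.mem_map.1 hr
      rw [dot_sc_sc]
      exact hR i (List.mem_range.1 hi)
    · intro r hr
      obtain ⟨i, hi, rfl⟩ := List.mem_map.1 hr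
      refine supp_sc _ _ _ fun a ha => ?_
      exact Finset.mem_biUnion.2 ⟨i, Finset.mem_range.2 (List.mem_range.1 hi), mem_supp ha⟩
    · refine hZ Ω fun Q hQ => ?_
      obtain ⟨i, hi, hQ2⟩ := Finset.mem_biUnion.1 hQ
      simp only [supp, List.mem_toFinset, List.mem_map] at hQ2
      obtain ⟨a, ha, haQ⟩ := hQ2
      exact ⟨i, Finset.mem_range.1 hi, a, ha, haQ⟩
  rw [hok] at h6
  exact absurd h6 (by simp)

theorem prune_cases (feat : X × List N → List (ℤ × F)) (T n : ℕ) (x : X) (W : List N) :
    ((∀ v < W.length, ok (sys feat T x W v) n = true) ∧ prune feat T n x W = W.tail) ∨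
    (∃ v < W.length, ok (sys feat T x W v) n = false ∧ prune feat T n x W = del W v) := by
  cases h : ((List.range W.length).filter (fun v => !ok (sys feat T x W v) n)).head? with
  | none =>
    left
    have h1 : (List.range W.length).filter (fun v => !ok (sys feat T x W v) n) = [] := by
      simpa using h
    refine ⟨fun v hv => ?_, by rw [prune, h]; rfl⟩
    by_contra hc
    have h2 : v ∈ (List.range W.length).filter (fun v => !ok (sys feat T x W v) n) := by
      rw [List.mem_filter]
      exact ⟨List.mem_range.2 hv, by simpa using hc⟩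
    rw [h1] at h2
    exact absurd h2 (by simp)
  | some v =>
    right
    have h1 : v ∈ (List.range W.length).filter (fun v => !ok (sys feat T x W v) n) :=
      List.mem_of_head? h
    rw [List.mem_filter] at h1
    exact ⟨v, List.mem_range.1 h1.1, by simpa using h1.2, by rw [prune, h]; rfl⟩

theorem prune_subset (feat : X × List N → List (ℤ × F)) (T n : ℕ) (x : X) (W : List N) :
    ∀ u ∈ prune feat T n x W, u ∈ W := by
  intro u hu
  rcases prune_cases feat T n x W with ⟨_, h⟩ | ⟨v, _, _, h⟩
  · rw [h] at hu; exact List.mem_of_mem_tail hu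
  · rw [h] at hu; exact del_subset _ _ u hu

theorem prune_length (feat : X × List N → List (ℤ × F)) (T n : ℕ) (x : X) (W : List N)
    (hW : W ≠ []) : (prune feat T n x W).length < W.length := by
  rcases prune_cases feat T n x W with ⟨_, h⟩ | ⟨v, hv, _, h⟩
  · rw [h, List.length_tail]
    have : 0 < W.length := List.length_pos_of_ne_nil hW
    omega
  · rw [h]; exact del_length W v hv

theorem ins_length (feat : X × List N → List (ℤ × F)) (T n M : ℕ) (x : X) (acc : List N) (u : N)
    (h : acc.length ≤ M) : (ins feat T n M x acc u).length ≤ M := by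
  unfold ins
  split_ifs with h1
  · exact h1
  · have := prune_length feat T n x (u :: acc) (by simp)
    simp only [List.length_cons] at this
    omega

theorem ins_subset (feat : X × List N → List (ℤ × F)) (T n M : ℕ) (x : X) (acc : List N) (u : N) :
    ∀ t ∈ ins feat T n M x acc u, t ∈ u :: acc := by
  unfold ins
  split_ifs with h1
  · exact fun t ht => ht
  · exact prune_subset feat T n x (u :: acc)

/-- The assumptions under which the pruning is correct, for lists of entries satisfying `Sm`. -/
structure Good (feat : X × List N → List (ℤ × F)) (x : X) (Tr Sm : N → Prop) (M : ℕ)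
    (z : F → ℤ) (R Z : ℤ) : Prop where
  h1 : ∀ U : List N, U.length ≤ M + 1 → (∀ u ∈ U, Sm u) → (∃ u ∈ U, Tr u) → 1 ≤ ev z (feat (x, U))
  h2 : ∀ U : List N, U.length ≤ M + 1 → (∀ u ∈ U, Sm u) → (¬ ∃ u ∈ U, Tr u) →
    ev z (feat (x, U)) ≤ -1
  hR0 : 0 ≤ R
  hR : ∀ U : List N, U.length ≤ M + 1 → (∀ u ∈ U, Sm u) → dot (feat (x, U)) (feat (x, U)) ≤ R
  hZ : ∀ Ω : Finset F, (∀ Q ∈ Ω, ∃ U : List N, U.length ≤ M + 1 ∧ (∀ u ∈ U, Sm u) ∧
    ∃ a ∈ feat (x, U), a.2 = Q) → ∑ Q ∈ Ω, z Q * z Q ≤ Z

theorem ins_safe {feat : X × List N → List (ℤ × F)} {x : X} {Tr Sm : N → Prop} {M : ℕ}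
    {z : F → ℤ} {R Z : ℤ} (hg : Good feat x Tr Sm M z R Z) (k n : ℕ) (hT : M < 2 ^ k)
    (hn : R * Z < n) (hM : (n : ℤ) * R * R ≤ M) (acc : List N) (u : N) (hacc : acc.length ≤ M)
    (hSm : ∀ t ∈ u :: acc, Sm t) (hTr : ∃ t ∈ u :: acc, Tr t) :
    ∃ t ∈ ins feat (2 ^ k) n M x acc u, Tr t := by
  unfold ins
  split_ifs with h1
  · exact hTr
  · have hlen : (u :: acc).length = M + 1 := by
      simp only [List.length_cons] at h1 ⊢
      omega
    have hml : ∀ i, (mask (u :: acc) i).length ≤ M + 1 := fun i =>
      (mask_length _ i).trans hlen.le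
    have hms : ∀ i, ∀ t ∈ mask (u :: acc) i, Sm t := fun i t ht => hSm t (mask_subset _ i t ht)
    rcases prune_cases feat (2 ^ k) n x (u :: acc) with ⟨h2, _⟩ | ⟨v, hv, h2, h3⟩
    · exfalso
      have := count_le k (u :: acc).length n (by rw [hlen]; omega)
        (fun i => feat (x, mask (u :: acc) i)) R hg.hR0 (fun i _ => hg.hR _ (hml i) (hms i)) h2
      rw [hlen] at this
      push_cast at this
      linarith
    · rw [h3]
      exact del_safe feat (2 ^ k) n x (u :: acc) v Tr z
        (fun i _ => hg.h1 _ (hml i) (hms i)) (fun i _ => hg.h2 _ (hml i) (hms i)) R Z hg.hR0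
        (fun i _ => hg.hR _ (hml i) (hms i))
        (fun Ω hΩ => hg.hZ Ω fun Q hQ => by
          obtain ⟨i, _, a, ha, haQ⟩ := hΩ Q hQ
          exact ⟨_, hml i, hms i, a, ha, haQ⟩) hn h2 hTr

theorem foldl_ins_length (feat : X × List N → List (ℤ × F)) (T n M : ℕ) (x : X) :
    ∀ (l acc : List N), acc.length ≤ M → (l.foldl (ins feat T n M x) acc).length ≤ M := by
  intro l
  induction l with
  | nil => intro acc h; exact h
  | cons u l ih => intro acc h; exact ih _ (ins_length feat T n M x acc u h)

theorem foldl_ins_subset (feat : X × List N → List (ℤ × F)) (T n M : ℕ) (x : X) :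
    ∀ (l acc : List N), ∀ t ∈ l.foldl (ins feat T n M x) acc, t ∈ l ∨ t ∈ acc := by
  intro l
  induction l with
  | nil => intro acc t ht; exact Or.inr ht
  | cons u l ih =>
    intro acc t ht
    rcases ih _ t ht with h | h
    · exact Or.inl (List.mem_cons_of_mem _ h)
    · rcases List.mem_cons.1 (ins_subset feat T n M x acc u t h) with h' | h'
      · exact Or.inl (by rw [h']; exact List.mem_cons_self)
      · exact Or.inr h'

theorem foldl_ins_safe {feat : X × List N → List (ℤ × F)} {x : X} {Tr Sm : N → Prop} {M : ℕ}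
    {z : F → ℤ} {R Z : ℤ} (hg : Good feat x Tr Sm M z R Z) (k n : ℕ) (hT : M < 2 ^ k)
    (hn : R * Z < n) (hM : (n : ℤ) * R * R ≤ M) :
    ∀ (l acc : List N), acc.length ≤ M → (∀ t ∈ l, Sm t) → (∀ t ∈ acc, Sm t) →
      ((∃ t ∈ l, Tr t) ∨ (∃ t ∈ acc, Tr t)) →
      ∃ t ∈ l.foldl (ins feat (2 ^ k) n M x) acc, Tr t := by
  intro l
  induction l with
  | nil =>
    intro acc _ _ _ h
    rcases h with ⟨t, ht, _⟩ | h
    · simp at ht
    · exact h
  | cons u l ih =>
    intro acc hacc hl ha h
    have hSm : ∀ t ∈ u :: acc, Sm t := by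
      intro t ht
      rcases List.mem_cons.1 ht with h' | h'
      · exact hl t (by rw [h']; exact List.mem_cons_self)
      · exact ha t h'
    refine ih _ (ins_length feat _ n M x acc u hacc) (fun t ht => hl t (List.mem_cons_of_mem _ ht))
      (fun t ht => hSm t (ins_subset feat _ n M x acc u t ht)) ?_
    by_cases h1 : ∃ t ∈ l, Tr t
    · exact Or.inl h1
    · right
      refine ins_safe hg k n hT hn hM acc u hacc hSm ?_
      rcases h with ⟨t, ht, hTr⟩ | ⟨t, ht, hTr⟩
      · rcases List.mem_cons.1 ht with h' | h'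
        · exact ⟨t, by rw [h']; exact List.mem_cons_self, hTr⟩
        · exact absurd ⟨t, h', hTr⟩ h1
      · exact ⟨t, List.mem_cons_of_mem _ ht, hTr⟩

/-- The children of the nodes of a list, in the tree of bit strings. -/
def children (W : List (List Bool)) : List (List Bool) :=
  W.flatMap (fun u => [u ++ [false], u ++ [true]])

theorem mem_children {W : List (List Bool)} {t : List Bool} :
    t ∈ children W ↔ ∃ u ∈ W, ∃ b, t = u ++ [b] := by
  simp only [children, List.mem_flatMap, List.mem_cons, List.not_mem_nil, or_false]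
  constructor
  · rintro ⟨u, hu, h | h⟩
    · exact ⟨u, hu, false, h⟩
    · exact ⟨u, hu, true, h⟩
  · rintro ⟨u, hu, b, hb⟩
    cases b
    · exact ⟨u, hu, Or.inl hb⟩
    · exact ⟨u, hu, Or.inr hb⟩

/-- One level of the search. -/
def srch (feat : X × List (List Bool) → List (ℤ × F)) (V : X → List Bool → Bool) (T n M : ℕ) (x : X)
    (s : Bool × List (List Bool)) : Bool × List (List Bool) :=
  (s.1 || s.2.any (V x), lvl feat T n M x (children s.2))

/-- The whole search. -/
def search (feat : X × List (List Bool) → List (ℤ × F)) (V : X → List Bool → Bool)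
    (T n M p : ℕ) (x : X) : Bool :=
  ((srch feat V T n M x)^[p + 1] (false, [[]])).1

theorem search_inv {feat : X × List (List Bool) → List (ℤ × F)} {V : X → List Bool → Bool}
    (T n M : ℕ) (x : X) (j : ℕ) :
    let s := (srch feat V T n M x)^[j] (false, [[]])
    (s.1 = true → ∃ w, V x w = true) ∧ (∀ u ∈ s.2, u.length = j) ∧ s.2.length ≤ max 1 M := by
  induction j with
  | zero => simp
  | succ j ih =>
    rw [Function.iterate_succ_apply']
    obtain ⟨h1, h2, h3⟩ := ih
    set s := (srch feat V T n M x)^[j] (false, [[]])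
    refine ⟨?_, ?_, ?_⟩
    · intro h
      simp only [srch, Bool.or_eq_true, List.any_eq_true] at h
      rcases h with h | ⟨w, _, hw⟩
      · exact h1 h
      · exact ⟨w, hw⟩
    · intro u hu
      rcases foldl_ins_subset feat T n M x (children s.2) [] u hu with h | h
      · obtain ⟨u', hu', b, rfl⟩ := mem_children.1 h
        simp [h2 u' hu']
      · simp at h
    · exact (foldl_ins_length feat T n M x (children s.2) [] (Nat.zero_le _)).trans
        (le_max_right _ _)

theorem search_correct {feat : X × List (List Bool) → List (ℤ × F)} {V : X → List Bool → Bool}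
    {x : X} {M : ℕ} {z : F → ℤ} {R Z : ℤ} (p : ℕ) (hV : ∀ w, V x w = true → w.length ≤ p)
    (hg : Good feat x (fun u => ∃ w, u <+: w ∧ V x w = true) (fun u => u.length ≤ p + 1) M z R Z)
    (k n : ℕ) (hT : M < 2 ^ k) (hn : R * Z < n) (hM : (n : ℤ) * R * R ≤ M) :
    search feat V (2 ^ k) n M p x = true ↔ ∃ w, V x w = true := by
  constructor
  · exact (search_inv (2 ^ k) n M x (p + 1)).1
  · intro hx
    have key : ∀ j ≤ p + 1, ((srch feat V (2 ^ k) n M x)^[j] (false, [[]])).1 = true ∨
        ∃ u ∈ ((srch feat V (2 ^ k) n M x)^[j] (false, [[]])).2, ∃ w, u <+: w ∧ V x w = true := by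
      intro j
      induction j with
      | zero =>
        intro _
        right
        obtain ⟨w, hw⟩ := hx
        exact ⟨[], by simp, w, List.nil_prefix, hw⟩
      | succ j ih =>
        intro hj
        rw [Function.iterate_succ_apply']
        have hlen := (search_inv (feat := feat) (V := V) (2 ^ k) n M x j).2.1
        set s := (srch feat V (2 ^ k) n M x)^[j] (false, [[]])
        rcases ih (by omega) with h | ⟨u, hu, w, huw, hw⟩
        · left; simp [srch, h]
        · by_cases hne : u = w
          · left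
            simp only [srch, Bool.or_eq_true, List.any_eq_true]
            exact Or.inr ⟨u, hu, by rw [hne]; exact hw⟩
          · right
            refine foldl_ins_safe hg k n hT hn hM (children s.2) [] (Nat.zero_le _) ?_ (by simp) ?_
            · intro t ht
              obtain ⟨u', hu', b, rfl⟩ := mem_children.1 ht
              have := hlen u' hu'
              simp only [List.length_append, List.length_cons, List.length_nil]
              omega
            · left
              obtain ⟨t, rfl⟩ := huw
              cases t with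
              | nil => simp at hne
              | cons b t =>
                refine ⟨u ++ [b], mem_children.2 ⟨u, hu, b, rfl⟩, u ++ b :: t, ?_, hw⟩
                exact ⟨t, by simp⟩
    rcases key (p + 1) le_rfl with h | ⟨u, hu, w, huw, hw⟩
    · exact h
    · exfalso
      have h1 := (search_inv (feat := feat) (V := V) (2 ^ k) n M x (p + 1)).2.1 u hu
      have h2 := huw.length_le
      have h3 := hV w hw
      omega

end Pool.Agent.H579R2.Spt
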