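import Pool.Agent.H579R2.Spt.Had2
import Pool.Agent.H579R2.Spt.Search

/-!
# Search for a unique certificate
-/

namespace Pool.Agent.H579R2.Spt

open Finset

variable {X F : Type} [DecidableEq F]

/-- all tests `(α, β)` with `α < P` and `β < T` -/
def tests (P T : ℕ) : List (ℕ × ℕ) :=
  (List.range P).flatMap (fun α => (List.range T).map (fun β => (α, β)))

theorem mem_tests {P T : ℕ} {t : ℕ × ℕ} : t ∈ tests P T ↔ t ∈ range P ×ˢ range T := by
  obtain ⟨a, b⟩ := t
  simp only [tests, List.mem_flatMap, List.mem_range, List.mem_map, Prod.mk.injEq,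
    Finset.mem_product, Finset.mem_range]
  constructor
  · rintro ⟨a', h1, b', h2, rfl, rfl⟩
    exact ⟨h1, h2⟩
  · rintro ⟨h1, h2⟩
    exact ⟨a, h1, b, h2, rfl, rfl⟩

/-- The system expressing that the unique certificate starts with `u`. -/
def sys2 (feat : X × (ℕ × (ℕ × (ℕ × ℕ))) → List (ℤ × F)) (P T : ℕ) (x : X) (u : List Bool) :
    List (List (ℤ × F)) :=
  (tests P T).map (fun t => sc (lab P t u) (feat (x, (P, (u.length, t)))))

/-- The next level: the children whose system is solved by the perceptron. -/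
def next2 (feat : X × (ℕ × (ℕ × (ℕ × ℕ))) → List (ℤ × F)) (P T n M : ℕ) (x : X)
    (W : List (List Bool)) : List (List Bool) :=
  if ((children W).filter (fun u => ok (sys2 feat P T x u) n)).length ≤ M then
    (children W).filter (fun u => ok (sys2 feat P T x u) n) else []

/-- One step of the search. -/
def srch2 (feat : X × (ℕ × (ℕ × (ℕ × ℕ))) → List (ℤ × F)) (V : X → List Bool → Bool)
    (P T n M : ℕ) (x : X) (s : Option (List Bool) × List (List Bool)) :
    Option (List Bool) × List (List Bool) :=
  (if s.1.isSome then s.1 else (s.2.filter (V x)).head?, next2 feat P T n M x s.2)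

/-- The certificate found by the search. -/
def find2 (feat : X × (ℕ × (ℕ × (ℕ × ℕ))) → List (ℤ × F)) (V : X → List Bool → Bool)
    (P T n M p : ℕ) (x : X) : List Bool :=
  (((srch2 feat V P T n M x)^[p + 1] (none, [[]])).1).getD []

theorem children_nodup {W : List (List Bool)} (h : W.Nodup) : (children W).Nodup := by
  rw [children, List.nodup_flatMap]
  refine ⟨fun u _ => by simp, ?_⟩
  refine h.imp ?_
  intro a b hab
  simp only [Function.onFun, List.disjoint_left, List.mem_cons, List.not_mem_nil, or_false]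
  rintro t (rfl | rfl) (h1 | h1)
  · exact hab (List.append_inj_left' h1 rfl)
  · exact hab (List.append_inj_left' h1 rfl)
  · exact hab (List.append_inj_left' h1 rfl)
  · exact hab (List.append_inj_left' h1 rfl)

theorem next2_subset (feat : X × (ℕ × (ℕ × (ℕ × ℕ))) → List (ℤ × F)) (P T n M : ℕ) (x : X)
    (W : List (List Bool)) : ∀ u ∈ next2 feat P T n M x W, u ∈ children W := by
  intro u hu
  unfold next2 at hu
  split_ifs at hu
  · exact (List.mem_filter.1 hu).1
  · simp at hu

theorem next2_length (feat : X × (ℕ × (ℕ × (ℕ × ℕ))) → List (ℤ × F)) (P T n M : ℕ) (x : X)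
    (W : List (List Bool)) : (next2 feat P T n M x W).length ≤ M := by
  unfold next2
  split_ifs with h
  · exact h
  · simp

theorem next2_nodup (feat : X × (ℕ × (ℕ × (ℕ × ℕ))) → List (ℤ × F)) (P T n M : ℕ) (x : X)
    {W : List (List Bool)} (h : W.Nodup) : (next2 feat P T n M x W).Nodup := by
  unfold next2
  split_ifs
  · exact (children_nodup h).filter _
  · simp

/-- General properties of the states of the search. -/
theorem srch2_inv (feat : X × (ℕ × (ℕ × (ℕ × ℕ))) → List (ℤ × F)) (V : X → List Bool → Bool)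
    (P T n M : ℕ) (x : X) (j : ℕ) :
    let s := (srch2 feat V P T n M x)^[j] (none, [[]])
    (∀ u ∈ s.2, u.length = j) ∧ s.2.length ≤ max 1 M ∧ s.2.Nodup ∧
      (∀ w, s.1 = some w → V x w = true ∧ w.length ≤ j) := by
  induction j with
  | zero => simp
  | succ j ih =>
    rw [Function.iterate_succ_apply']
    obtain ⟨h1, h2, h3, h4⟩ := ih
    set s := (srch2 feat V P T n M x)^[j] (none, [[]])
    refine ⟨?_, ?_, next2_nodup feat P T n M x h3, ?_⟩
    · intro u hu
      obtain ⟨u', hu', b, rfl⟩ := mem_children.1 (next2_subset feat P T n M x s.2 u hu)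
      simp [h1 u' hu']
    · exact (next2_length feat P T n M x s.2).trans (le_max_right _ _)
    · intro w hw
      change (if s.1.isSome then s.1 else (s.2.filter (V x)).head?) = some w at hw
      split_ifs at hw
      · have := h4 w hw
        exact ⟨this.1, by omega⟩
      · have h5 := List.mem_filter.1 (List.mem_of_head? hw)
        have := h1 w h5.1
        exact ⟨h5.2, by omega⟩

/-- The assumptions under which the search finds the unique certificate `w`. -/
structure Good2 (feat : X × (ℕ × (ℕ × (ℕ × ℕ))) → List (ℤ × F)) (P T : ℕ) (x : X)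
    (w : List Bool) (z : F → ℤ) (R Z : ℤ) : Prop where
  h1 : ∀ j ≤ w.length, ∀ t ∈ range P ×ˢ range T, lab P t (w.take j) = true →
    1 ≤ ev z (feat (x, (P, (j, t))))
  h2 : ∀ j ≤ w.length, ∀ t ∈ range P ×ˢ range T, lab P t (w.take j) = false →
    ev z (feat (x, (P, (j, t)))) ≤ -1
  hR0 : 0 ≤ R
  hR : ∀ j ≤ w.length, ∀ t ∈ range P ×ˢ range T,
    dot (feat (x, (P, (j, t)))) (feat (x, (P, (j, t)))) ≤ R
  hZ : ∀ Ω : Finset F, (∀ Q ∈ Ω, ∃ j ≤ w.length, ∃ t ∈ range P ×ˢ range T,
    ∃ a ∈ feat (x, (P, (j, t))), a.2 = Q) → ∑ Q ∈ Ω, z Q * z Q ≤ Z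

theorem next2_mem {feat : X × (ℕ × (ℕ × (ℕ × ℕ))) → List (ℤ × F)} {P k : ℕ} {x : X}
    {w : List Bool} {z : F → ℤ} {R Z : ℤ} (hg : Good2 feat P (2 ^ k) x w z R Z) (hP : P.Prime)
    (hk : P ≤ 2 ^ k) (n M : ℕ) (hn : R * Z < n) (hM : 2 * R * (n * R) ≤ M)
    (hE : 2 * R * (n * R) * w.length ≤ P) (j : ℕ) (hj : j + 1 ≤ w.length) (W : List (List Bool))
    (hW : ∀ u ∈ W, u.length = j) (hW2 : W.Nodup) (hmem : w.take j ∈ W) :
    w.take (j + 1) ∈ next2 feat P (2 ^ k) n M x W := by
  have hlen : ∀ u ∈ children W, u.length = j + 1 := by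
    intro u hu
    obtain ⟨u', hu', b, rfl⟩ := mem_children.1 hu
    simp [hW u' hu']
  -- the true node is kept
  have hok : ok (sys2 feat P (2 ^ k) x (w.take (j + 1))) n = true := by
    have hl : (w.take (j + 1)).length = j + 1 := by rw [List.length_take]; omega
    set Ω : Finset F := (range P ×ˢ range (2 ^ k)).biUnion
      (fun t => supp (feat (x, (P, (j + 1, t))))) with hΩ
    refine ok_of_realizable _ z ?_ R Z hg.hR0 ?_ Ω ?_ ?_ n hn
    · intro r hr
      obtain ⟨t, ht, rfl⟩ := List.mem_map.1 hr
      rw [hl, ev_sc]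
      have ht' := mem_tests.1 ht
      cases hb : lab P t (w.take (j + 1))
      · have := hg.h2 (j + 1) hj t ht' hb
        simp only [Bool.false_eq_true, if_false]
        omega
      · exact hg.h1 (j + 1) hj t ht' hb
    · intro r hr
      obtain ⟨t, ht, rfl⟩ := List.mem_map.1 hr
      rw [dot_sc_sc, hl]
      exact hg.hR (j + 1) hj t (mem_tests.1 ht)
    · intro r hr
      obtain ⟨t, ht, rfl⟩ := List.mem_map.1 hr
      refine supp_sc _ _ _ fun a ha => ?_
      rw [hl] at ha
      exact Finset.mem_biUnion.2 ⟨t, mem_tests.1 ht, mem_supp ha⟩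
    · refine hg.hZ Ω fun Q hQ => ?_
      obtain ⟨t, ht, hQ2⟩ := Finset.mem_biUnion.1 hQ
      simp only [supp, List.mem_toFinset, List.mem_map] at hQ2
      obtain ⟨a, ha, haQ⟩ := hQ2
      exact ⟨j + 1, hj, t, ht, a, ha, haQ⟩
  have hchild : w.take (j + 1) ∈ children W := by
    refine mem_children.2 ⟨w.take j, hmem, w[j], ?_⟩
    rw [List.take_succ_eq_append_getElem (by omega)]
  -- few nodes are kept
  set W' := (children W).filter (fun u => ok (sys2 feat P (2 ^ k) x u) n) with hW'
  have hcount : W'.length ≤ M := by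
    have hnd : W'.Nodup := (children_nodup hW2).filter _
    have hcard : W'.toFinset.card = W'.length := List.toFinset_card_of_nodup hnd
    have hokall : ∀ u ∈ W'.toFinset, ok (sys2 feat P (2 ^ k) x u) n = true ∧ u.length = j + 1 := by
      intro u hu
      rw [List.mem_toFinset, hW', List.mem_filter] at hu
      exact ⟨hu.2, hlen u hu.1⟩
    have hB0 : (0 : ℤ) ≤ n * R := mul_nonneg (Int.natCast_nonneg n) hg.hR0
    have hc := count_le2 (range P ×ˢ range (2 ^ k)) W'.toFinset
      (fun t => feat (x, (P, (j + 1, t)))) (fun u => run (sys2 feat P (2 ^ k) x u) n)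
      (fun t u => lab P t u) R (n * R) ((2 ^ k * (j + 1) : ℕ) : ℤ) hg.hR0 hB0 (by positivity)
      (fun t ht => hg.hR (j + 1) hj t ht) ?_ ?_ ?_ ?_ ?_
    · rw [hcard] at hc
      have : (W'.length : ℤ) ≤ M := hc.trans hM
      exact_mod_cast this
    · intro u hu
      have hu' := hokall u hu
      refine run_norm _ R hg.hR0 ?_ n
      intro r hr
      obtain ⟨t, ht, rfl⟩ := List.mem_map.1 hr
      rw [dot_sc_sc, hu'.2]
      exact hg.hR (j + 1) hj t (mem_tests.1 ht)
    · intro u hu t ht
      have hu' := hokall u hu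
      have h2 := (ok_iff _ _).1 hu'.1 (sc (lab P t u) (feat (x, (P, (u.length, t)))))
        (List.mem_map.2 ⟨t, mem_tests.2 ht, rfl⟩)
      rw [dot_sc_left, hu'.2] at h2
      cases hp : lab P t u <;> rw [hp] at h2 <;> simp [sgn] at h2 ⊢ <;> omega
    · intro u hu v hv huv
      have h1 := (hokall u hu).2
      have h2 := (hokall v hv).2
      have h3 := lab_orth hP hk u v (h1.trans h2.symm) huv
      rw [h1] at h3
      exact h3
    · rw [Finset.card_product, Finset.card_range, Finset.card_range]
      exact Nat.mul_pos hP.pos (by positivity)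
    · rw [Finset.card_product, Finset.card_range, Finset.card_range]
      push_cast
      have h1 : 2 * R * (n * R) * ((j : ℤ) + 1) ≤ P := by
        refine le_trans ?_ hE
        have h2 : ((j : ℤ) + 1) ≤ (w.length : ℤ) := by exact_mod_cast hj
        exact mul_le_mul_of_nonneg_left h2 (mul_nonneg (mul_nonneg (by norm_num) hg.hR0) hB0)
      have h2 : (0 : ℤ) ≤ 2 ^ k := by positivity
      calc 2 * R * (n * R) * (2 ^ k * ((j : ℤ) + 1)) = 2 ^ k * (2 * R * (n * R) * ((j : ℤ) + 1)) := by
            ring
        _ ≤ 2 ^ k * P := mul_le_mul_of_nonneg_left h1 h2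
        _ = P * 2 ^ k := mul_comm _ _
  unfold next2
  rw [if_pos hcount]
  exact List.mem_filter.2 ⟨hchild, by simpa using hok⟩

theorem find2_correct {feat : X × (ℕ × (ℕ × (ℕ × ℕ))) → List (ℤ × F)} {V : X → List Bool → Bool}
    {P k : ℕ} {x : X} {w : List Bool} {z : F → ℤ} {R Z : ℤ}
    (hg : Good2 feat P (2 ^ k) x w z R Z) (hP : P.Prime) (hk : P ≤ 2 ^ k) (n M p : ℕ)
    (hw : V x w = true) (huniq : ∀ w', V x w' = true → w' = w) (hwp : w.length ≤ p)
    (hn : R * Z < n) (hM : 2 * R * (n * R) ≤ M) (hE : 2 * R * (n * R) * w.length ≤ P) :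
    find2 feat V P (2 ^ k) n M p x = w := by
  have key : ∀ j ≤ w.length, ((srch2 feat V P (2 ^ k) n M x)^[j] (none, [[]])).1 = none ∧
      w.take j ∈ ((srch2 feat V P (2 ^ k) n M x)^[j] (none, [[]])).2 := by
    intro j
    induction j with
    | zero => intro _; simp
    | succ j ih =>
      intro hj
      rw [Function.iterate_succ_apply']
      obtain ⟨h1, _, h3, _⟩ := srch2_inv feat V P (2 ^ k) n M x j
      obtain ⟨h5, h6⟩ := ih (by omega)
      set s := (srch2 feat V P (2 ^ k) n M x)^[j] (none, [[]])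
      refine ⟨?_, next2_mem hg hP hk n M hn hM hE j hj s.2 h1 h3 h6⟩
      change (if s.1.isSome then s.1 else (s.2.filter (V x)).head?) = none
      rw [h5]
      simp only [Option.isSome_none, Bool.false_eq_true, if_false, List.head?_eq_none_iff]
      rw [List.filter_eq_nil_iff]
      intro u hu hV
      have h7 := h1 u hu
      rw [huniq u hV] at h7
      omega
  have hfin : ∀ i, ((srch2 feat V P (2 ^ k) n M x)^[w.length + 1 + i] (none, [[]])).1 = some w := by
    intro i
    induction i with
    | zero =>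
      rw [Nat.add_zero, Function.iterate_succ_apply']
      obtain ⟨h5, h6⟩ := key w.length le_rfl
      set s := (srch2 feat V P (2 ^ k) n M x)^[w.length] (none, [[]])
      change (if s.1.isSome then s.1 else (s.2.filter (V x)).head?) = some w
      rw [h5]
      simp only [Option.isSome_none, Bool.false_eq_true, if_false]
      rw [List.take_length] at h6
      have h7 : w ∈ s.2.filter (V x) := List.mem_filter.2 ⟨h6, hw⟩
      cases hf : s.2.filter (V x) with
      | nil => rw [hf] at h7; simp at h7
      | cons a l =>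
        have h8 : a ∈ s.2.filter (V x) := by rw [hf]; exact List.mem_cons_self
        have h9 := huniq a (by simpa using (List.mem_filter.1 h8).2)
        rw [h9]; rfl
    | succ i ih =>
      rw [← Nat.add_assoc, Function.iterate_succ_apply']
      set s := (srch2 feat V P (2 ^ k) n M x)^[w.length + 1 + i] (none, [[]])
      change (if s.1.isSome then s.1 else (s.2.filter (V x)).head?) = some w
      rw [ih]
      simp
  have h := hfin (p - w.length)
  have e : w.length + 1 + (p - w.length) = p + 1 := by omega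
  rw [e] at h
  rw [find2, h]
  rfl

end Pool.Agent.H579R2.Spt
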