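import Mathlib

/-!
# The isolation lemma of Valiant and Vazirani, for lists of bits
-/

namespace Pool.Agent.H579R2.Spt

open Finset

/-- the bit strings of length `n` -/
noncomputable def BL (n : ℕ) : Finset (List Bool) := (List.finite_length_eq Bool n).toFinset

@[simp] theorem mem_BL {n : ℕ} {r : List Bool} : r ∈ BL n ↔ r.length = n := by
  simp [BL]

theorem BL_zero : BL 0 = {[]} := by
  ext r; simp

theorem BL_succ (n : ℕ) : BL (n + 1) = (BL n).image (fun r => true :: r) ∪
    (BL n).image (fun r => false :: r) := by
  ext r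
  simp only [mem_BL, Finset.mem_union, Finset.mem_image]
  constructor
  · intro h
    cases r with
    | nil => simp at h
    | cons b r =>
      cases b
      · exact Or.inr ⟨r, by simpa using h, rfl⟩
      · exact Or.inl ⟨r, by simpa using h, rfl⟩
  · rintro (⟨a, ha, rfl⟩ | ⟨a, ha, rfl⟩) <;> simp [ha]

theorem sum_BL_zero (f : List Bool → ℤ) : ∑ r ∈ BL 0, f r = f [] := by
  rw [BL_zero]; simp

theorem sum_BL_succ (n : ℕ) (f : List Bool → ℤ) :
    ∑ r ∈ BL (n + 1), f r = ∑ r ∈ BL n, (f (true :: r) + f (false :: r)) := by
  rw [BL_succ, Finset.sum_union, Finset.sum_image (by simp), Finset.sum_image (by simp),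
    Finset.sum_add_distrib]
  rw [Finset.disjoint_left]
  simp only [Finset.mem_image]
  rintro r ⟨a, _, rfl⟩ ⟨b, _, h⟩
  simp at h

theorem card_BL (n : ℕ) : ((BL n).card : ℤ) = 2 ^ n := by
  have h : ((BL n).card : ℤ) = ∑ r ∈ BL n, (1 : ℤ) := by simp
  rw [h]
  induction n with
  | zero => rw [sum_BL_zero]; simp
  | succ n ih =>
    have h' : ((BL n).card : ℤ) = ∑ r ∈ BL n, (1 : ℤ) := by simp
    rw [sum_BL_succ, Finset.sum_add_distrib, ih h']
    ring

/-- Sums over strings split into blocks. -/
theorem sum_BL_add (a b : ℕ) (g h : List Bool → ℤ) :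
    ∑ r ∈ BL (a + b), g (r.take a) * h (r.drop a) = (∑ r ∈ BL a, g r) * ∑ r ∈ BL b, h r := by
  induction a generalizing g with
  | zero =>
    rw [sum_BL_zero, Finset.mul_sum, Nat.zero_add]
    exact Finset.sum_congr rfl fun r _ => by simp
  | succ a ih =>
    have e : a + 1 + b = (a + b) + 1 := by omega
    rw [e, sum_BL_succ, sum_BL_succ]
    simp only [List.take_succ_cons, List.drop_succ_cons]
    rw [Finset.sum_add_distrib, ih (fun r => g (true :: r)), ih (fun r => g (false :: r)),
      Finset.sum_add_distrib]
    ring

/-- the parity of the inner product of two bit lists -/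
def ip (a c : List Bool) : Bool := (a.zip c).foldr (fun p s => xor (p.1 && p.2) s) false

@[simp] theorem ip_nil_right (a : List Bool) : ip a [] = false := by simp [ip]

@[simp] theorem ip_nil_left (a : List Bool) : ip [] a = false := by simp [ip]

theorem ip_cons (b c : Bool) (a d : List Bool) : ip (b :: a) (c :: d) = xor (b && c) (ip a d) := by
  simp [ip]

/-- the character -/
def ch (b : Bool) : ℤ := if b then -1 else 1

theorem ch_xor (x y : Bool) : ch (xor x y) = ch x * ch y := by cases x <;> cases y <;> simp [ch]

/-- a list without trailing `false` -/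
def Nrm (c : List Bool) : Prop := c = [] ∨ c.getLast? = some true

theorem Nrm.tail {b : Bool} {d : List Bool} (h : Nrm (b :: d)) : Nrm d := by
  rcases h with h | h
  · simp at h
  · cases d with
    | nil => exact Or.inl rfl
    | cons e d => right; simpa [List.getLast?_cons_cons] using h

theorem Nrm.ne_nil {d : List Bool} (h : Nrm (false :: d)) : d ≠ [] := by
  rintro rfl
  rcases h with h | h <;> simp at h

/-- Orthogonality of characters. -/
theorem char_orth (m : ℕ) : ∀ c d : List Bool, Nrm c → Nrm d → c ≠ d → c.length ≤ m →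
    d.length ≤ m → ∑ a ∈ BL m, ch (ip a c) * ch (ip a d) = 0 := by
  induction m with
  | zero =>
    intro c d _ _ hne hc hd
    exfalso
    apply hne
    rw [List.length_eq_zero_iff.1 (Nat.le_zero.1 hc), List.length_eq_zero_iff.1 (Nat.le_zero.1 hd)]
  | succ m ih =>
    intro c d hc hd hne hcl hdl
    rw [sum_BL_succ]
    cases c with
    | nil =>
      cases d with
      | nil => exact absurd rfl hne
      | cons b d =>
        cases b
        · have h1 := ih [] d (Or.inl rfl) hd.tail (fun h => hd.ne_nil h.symm) (Nat.zero_le _)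
            (by simpa using hdl)
          simp only [ip_nil_right, ip_cons, Bool.and_false, Bool.false_xor] at h1 ⊢
          rw [Finset.sum_add_distrib, h1, add_zero]
        · refine Finset.sum_eq_zero fun a _ => ?_
          simp only [ip_nil_right, ip_cons, Bool.and_true, Bool.false_and, Bool.false_xor, ch_xor]
          cases ip a d <;> simp [ch]
    | cons e c =>
      cases d with
      | nil =>
        cases e
        · have h1 := ih c [] hc.tail (Or.inl rfl) hc.ne_nil (by simpa using hcl) (Nat.zero_le _)
          simp only [ip_nil_right, ip_cons, Bool.and_false, Bool.false_xor] at h1 ⊢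
          rw [Finset.sum_add_distrib, h1, add_zero]
        · refine Finset.sum_eq_zero fun a _ => ?_
          simp only [ip_nil_right, ip_cons, Bool.and_true, Bool.false_and, Bool.false_xor, ch_xor]
          cases ip a c <;> simp [ch]
      | cons e' d =>
        simp only [ip_cons, ch_xor]
        by_cases he : e = e'
        · subst he
          have hcd : c ≠ d := fun h => hne (by rw [h])
          have h1 := ih c d hc.tail hd.tail hcd (by simpa using hcl) (by simpa using hdl)
          have h2 : ∀ a ∈ BL m, (ch (true && e) * ch (ip a c) * (ch (true && e) * ch (ip a d)) +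
              ch (false && e) * ch (ip a c) * (ch (false && e) * ch (ip a d))) =
              2 * (ch (ip a c) * ch (ip a d)) := by
            intro a _
            cases e <;> cases ip a c <;> cases ip a d <;> simp [ch]
          rw [Finset.sum_congr rfl h2, ← Finset.mul_sum, h1, mul_zero]
        · refine Finset.sum_eq_zero fun a _ => ?_
          cases e <;> cases e' <;> first
            | exact absurd rfl he
            | (cases ip a c <;> cases ip a d <;> simp [ch])

theorem char_sum (m : ℕ) (c : List Bool) (hc : Nrm c) (hne : c ≠ []) (hcl : c.length ≤ m) :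
    ∑ a ∈ BL m, ch (ip a c) = 0 := by
  have := char_orth m c [] hc (Or.inl rfl) hne hcl (Nat.zero_le _)
  simpa [ch] using this

/-- indicator of a boolean -/
def ind (b : Bool) : ℤ := if b then 1 else 0

theorem two_ind_not (b : Bool) : 2 * ind (!b) = 1 + ch b := by cases b <;> simp [ind, ch]

theorem half_count (m : ℕ) (c : List Bool) (hc : Nrm c) (hne : c ≠ []) (hcl : c.length ≤ m) :
    2 * ∑ a ∈ BL m, ind (!ip a c) = 2 ^ m := by
  rw [Finset.mul_sum, Finset.sum_congr rfl (fun a _ => two_ind_not (ip a c)),
    Finset.sum_add_distrib, char_sum m c hc hne hcl]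
  simp [card_BL]

theorem quarter_count (m : ℕ) (c d : List Bool) (hc : Nrm c) (hd : Nrm d) (hc0 : c ≠ [])
    (hd0 : d ≠ []) (hne : c ≠ d) (hcl : c.length ≤ m) (hdl : d.length ≤ m) :
    4 * ∑ a ∈ BL m, ind (!ip a c) * ind (!ip a d) = 2 ^ m := by
  have h1 : ∀ a, 4 * (ind (!ip a c) * ind (!ip a d)) =
      1 + ch (ip a c) + ch (ip a d) + ch (ip a c) * ch (ip a d) := by
    intro a
    calc 4 * (ind (!ip a c) * ind (!ip a d)) = (2 * ind (!ip a c)) * (2 * ind (!ip a d)) := by ring
      _ = _ := by rw [two_ind_not, two_ind_not]; ring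
  rw [Finset.mul_sum, Finset.sum_congr rfl (fun a _ => h1 a), Finset.sum_add_distrib,
    Finset.sum_add_distrib, Finset.sum_add_distrib, char_sum m c hc hc0 hcl,
    char_sum m d hd hd0 hdl, char_orth m c d hc hd hne hcl hdl]
  simp [card_BL]

/-- the first `k` blocks of length `m` -/
def rowsL (m k : ℕ) (r : List Bool) : List (List Bool) :=
  (List.range k).map (fun i => (r.drop (i * m)).take m)

theorem rowsL_succ (m k : ℕ) (r : List Bool) :
    rowsL m (k + 1) r = r.take m :: rowsL m k (r.drop m) := by
  unfold rowsL
  rw [List.range_succ_eq_map, List.map_cons, List.map_map]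
  congr 1
  · simp
  · refine List.map_congr_left fun i _ => ?_
    simp only [Function.comp, List.drop_drop]
    congr 2
    rw [Nat.succ_mul]; ring

/-- does `c` survive the first `k` rows? -/
def surv (m k : ℕ) (r c : List Bool) : Bool := (rowsL m k r).all (fun a => !ip a c)

theorem surv_zero (m : ℕ) (r c : List Bool) : surv m 0 r c = true := by simp [surv, rowsL]

theorem surv_succ (m k : ℕ) (r c : List Bool) :
    surv m (k + 1) r c = (!ip (r.take m) c && surv m k (r.drop m) c) := by
  rw [surv, rowsL_succ, List.all_cons]; rfl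

theorem ind_and (a b : Bool) : ind (a && b) = ind a * ind b := by
  cases a <;> cases b <;> simp [ind]

theorem surv_count (m s : ℕ) (c : List Bool) (hc : Nrm c) (hne : c ≠ []) (hcl : c.length ≤ m)
    (k : ℕ) : 2 ^ k * ∑ r ∈ BL (k * m + s), ind (surv m k r c) = 2 ^ (k * m + s) := by
  induction k with
  | zero =>
    simp only [surv_zero]
    simp [ind, card_BL]
  | succ k ih =>
    have e : (k + 1) * m + s = m + (k * m + s) := by ring
    rw [e]
    have h1 : ∀ r ∈ BL (m + (k * m + s)), ind (surv m (k + 1) r c) =
        ind (!ip (r.take m) c) * ind (surv m k (r.drop m) c) := by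
      intro r _
      rw [surv_succ, ind_and]
    rw [Finset.sum_congr rfl h1, sum_BL_add m (k * m + s) (fun a => ind (!ip a c))
      (fun a => ind (surv m k a c)), pow_succ, pow_add, ← ih, ← half_count m c hc hne hcl]
    ring

theorem surv_count2 (m s : ℕ) (c d : List Bool) (hc : Nrm c) (hd : Nrm d) (hc0 : c ≠ [])
    (hd0 : d ≠ []) (hne : c ≠ d) (hcl : c.length ≤ m) (hdl : d.length ≤ m) (k : ℕ) :
    4 ^ k * ∑ r ∈ BL (k * m + s), ind (surv m k r c) * ind (surv m k r d) =
      2 ^ (k * m + s) := by
  induction k with
  | zero =>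
    simp only [surv_zero]
    simp [ind, card_BL]
  | succ k ih =>
    have e : (k + 1) * m + s = m + (k * m + s) := by ring
    rw [e]
    have h1 : ∀ r ∈ BL (m + (k * m + s)), ind (surv m (k + 1) r c) * ind (surv m (k + 1) r d) =
        (ind (!ip (r.take m) c) * ind (!ip (r.take m) d)) *
          (ind (surv m k (r.drop m) c) * ind (surv m k (r.drop m) d)) := by
      intro r _
      rw [surv_succ, surv_succ, ind_and, ind_and]
      ring
    rw [Finset.sum_congr rfl h1, sum_BL_add m (k * m + s)
      (fun a => ind (!ip a c) * ind (!ip a d))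
      (fun a => ind (surv m k a c) * ind (surv m k a d)), pow_succ, pow_add, ← ih,
      ← quarter_count m c d hc hd hc0 hd0 hne hcl hdl]
    ring

end Pool.Agent.H579R2.Spt
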