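import Pool.Agent.H579R2.Spt.VV

/-!
# Isolation and amplification
-/

namespace Pool.Agent.H579R2.Spt

open Finset

/-- the code of a certificate: append `true` -/
def cd (w : List Bool) : List Bool := w ++ [true]

theorem cd_nrm (w : List Bool) : Nrm (cd w) := Or.inr (by simp [cd])

theorem cd_ne (w : List Bool) : cd w ≠ [] := by simp [cd]

theorem cd_inj {w w' : List Bool} (h : cd w = cd w') : w = w' := List.append_inj_left' h rfl

theorem cd_length (w : List Bool) : (cd w).length = w.length + 1 := by simp [cd]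

/-- `w` is the only element of `W` that survives the first `k` rows. -/
def Iso (m k : ℕ) (W : Finset (List Bool)) (r w : List Bool) : Prop :=
  w ∈ W ∧ surv m k r (cd w) = true ∧ ∀ w' ∈ W, surv m k r (cd w') = true → w' = w

theorem card_short (m : ℕ) (W : Finset (List Bool)) (hW : ∀ w ∈ W, w.length + 1 ≤ m) :
    W.card ≤ 2 ^ m := by
  have h1 : W.card ≤ (BL m).card := by
    refine Finset.card_le_card_of_injOn
      (fun w => cd w ++ List.replicate (m - (w.length + 1)) false) ?_ ?_
    · intro w hw
      have := hW w hw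
      rw [Finset.mem_coe, mem_BL, List.length_append, cd_length, List.length_replicate]
      omega
    · intro w hw w' hw' h
      have key : ∀ (u v : List Bool) (a b : ℕ), cd u ++ List.replicate a false =
          cd v ++ List.replicate b false → u = v := by
        intro u v a b hab
        have h2 := congrArg List.reverse hab
        simp only [cd, List.reverse_append, List.reverse_replicate, List.reverse_cons,
          List.reverse_nil, List.nil_append, List.append_assoc] at h2
        have key2 : ∀ (a b : ℕ) (u v : List Bool), List.replicate a false ++ ([true] ++ u) =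
            List.replicate b false ++ ([true] ++ v) → u = v := by
          intro a
          induction a with
          | zero =>
            intro b u v h
            cases b with
            | zero => simpa using h
            | succ b => simp [List.replicate_succ] at h
          | succ a ih =>
            intro b u v h
            cases b with
            | zero => simp [List.replicate_succ] at h
            | succ b =>
              simp only [List.replicate_succ, List.cons_append, List.cons.injEq, true_and] at h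
              exact ih b u v (by simpa using h)
        have h3 := key2 a b u.reverse v.reverse h2
        exact List.reverse_injective h3
      exact key w w' _ _ h
  have h2 : ((BL m).card : ℤ) = ((2 ^ m : ℕ) : ℤ) := by rw [card_BL]; push_cast; rfl
  have h3 : (BL m).card = 2 ^ m := by exact_mod_cast h2
  omega

theorem exists_scale (N m : ℕ) (h1 : 1 ≤ N) (h2 : N ≤ 2 ^ m) :
    ∃ k ≤ m + 1, 2 * N ≤ 2 ^ k ∧ 2 ^ k < 4 * N := by
  have h3 : 2 * N ≤ 2 ^ (m + 1) := by rw [pow_succ]; omega
  have hex : ∃ k, 2 * N ≤ 2 ^ k := ⟨m + 1, h3⟩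
  obtain ⟨k, hk, hmin⟩ : ∃ k, 2 * N ≤ 2 ^ k ∧ ∀ j < k, ¬ 2 * N ≤ 2 ^ j :=
    ⟨Nat.find hex, Nat.find_spec hex, fun j hj => Nat.find_min hex hj⟩
  refine ⟨k, ?_, hk, ?_⟩
  · by_contra hc
    exact hmin (m + 1) (by omega) h3
  · cases k with
    | zero => simp at hk; omega
    | succ k =>
      have := hmin k (by omega)
      rw [pow_succ]
      omega

theorem iso_count (m s : ℕ) (W : Finset (List Bool)) (hW : ∀ w ∈ W, w.length + 1 ≤ m)
    (k : ℕ) (hk1 : 2 * W.card ≤ 2 ^ k) (hk2 : 2 ^ k < 4 * W.card) (G : List Bool → Bool)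
    (hG : ∀ r, (∃ w, Iso m k W r w) → G r = true) :
    3 * 2 ^ (k * m + s) ≤ 16 * ∑ r ∈ BL (k * m + s), ind (G r) := by
  classical
  set B := BL (k * m + s) with hB
  set Tot : ℤ := 2 ^ (k * m + s) with hTot
  set N : ℤ := (W.card : ℤ) with hN
  have hTot0 : 0 < Tot := by positivity
  -- pointwise inequality
  have h1 : ∀ r ∈ B, (∑ w ∈ W, ind (surv m k r (cd w))) -
      ∑ w ∈ W, ∑ w' ∈ W.erase w, ind (surv m k r (cd w)) * ind (surv m k r (cd w')) ≤
      ind (G r) := by
    intro r _
    set f : List Bool → ℤ := fun w => ind (surv m k r (cd w)) with hf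
    have hf01 : ∀ w, f w = 0 ∨ f w = 1 := by
      intro w; simp only [hf, ind]; split_ifs <;> simp
    have e1 : ∑ w ∈ W, ∑ w' ∈ W.erase w, f w * f w' =
        (∑ w ∈ W, f w) * (∑ w ∈ W, f w) - ∑ w ∈ W, f w := by
      rw [Finset.sum_mul_sum, ← Finset.sum_sub_distrib]
      refine Finset.sum_congr rfl fun w hw => ?_
      rw [← Finset.add_sum_erase W (fun w' => f w * f w') hw]
      rcases hf01 w with h | h <;> rw [h] <;> ring
    have e2 : (0 : ℤ) ≤ ∑ w ∈ W, f w :=
      Finset.sum_nonneg fun w _ => by rcases hf01 w with h | h <;> rw [h] <;> norm_num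
    rw [e1]
    set S : ℤ := ∑ w ∈ W, f w with hS
    rcases eq_or_ne S 1 with h | h
    · -- exactly one survivor
      have h3 : G r = true := by
        apply hG
        have h4 : ((W.filter (fun w => surv m k r (cd w) = true)).card : ℤ) = 1 := by
          rw [Finset.card_filter]
          push_cast
          refine Eq.trans ?_ h
          rw [hS]
          exact Finset.sum_congr rfl fun w _ => by simp only [hf, ind]
        have h5 : (W.filter (fun w => surv m k r (cd w) = true)).card = 1 := by exact_mod_cast h4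
        obtain ⟨w, hw⟩ := Finset.card_eq_one.1 h5
        have h6 : w ∈ W.filter (fun w => surv m k r (cd w) = true) := by rw [hw]; simp
        refine ⟨w, (Finset.mem_filter.1 h6).1, (Finset.mem_filter.1 h6).2, fun w' hw' hs => ?_⟩
        have h7 : w' ∈ W.filter (fun w => surv m k r (cd w) = true) :=
          Finset.mem_filter.2 ⟨hw', hs⟩
        rw [hw] at h7
        simpa using h7
      have h8 : ind (G r) = 1 := by rw [h3]; rfl
      rw [h8, h]; norm_num
    · have h3 : 0 ≤ ind (G r) := by simp only [ind]; split_ifs <;> norm_num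
      have h4 : S - (S * S - S) ≤ 0 := by
        rcases lt_or_gt_of_ne h with h5 | h5
        · have : S = 0 := by omega
          rw [this]; norm_num
        · have h6 : 2 ≤ S := by omega
          nlinarith
      linarith
  have h2 : (∑ r ∈ B, ∑ w ∈ W, ind (surv m k r (cd w))) -
      ∑ r ∈ B, ∑ w ∈ W, ∑ w' ∈ W.erase w, ind (surv m k r (cd w)) * ind (surv m k r (cd w')) ≤
      ∑ r ∈ B, ind (G r) := by
    rw [← Finset.sum_sub_distrib]
    exact Finset.sum_le_sum h1
  have h3 : 2 ^ k * ∑ r ∈ B, ∑ w ∈ W, ind (surv m k r (cd w)) = N * Tot := by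
    rw [Finset.sum_comm, Finset.mul_sum, Finset.sum_congr rfl (fun w hw =>
      surv_count m s (cd w) (cd_nrm w) (cd_ne w) (by rw [cd_length]; exact hW w hw) k)]
    rw [Finset.sum_const, nsmul_eq_mul]
  have h4 : 4 ^ k * ∑ r ∈ B, ∑ w ∈ W, ∑ w' ∈ W.erase w,
      ind (surv m k r (cd w)) * ind (surv m k r (cd w')) = N * (N - 1) * Tot := by
    rw [Finset.sum_comm, Finset.mul_sum]
    have e : ∀ w ∈ W, 4 ^ k * ∑ r ∈ B, ∑ w' ∈ W.erase w,
        ind (surv m k r (cd w)) * ind (surv m k r (cd w')) = (N - 1) * Tot := by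
      intro w hw
      rw [Finset.sum_comm, Finset.mul_sum]
      have e2 : ∀ w' ∈ W.erase w, 4 ^ k * ∑ r ∈ B,
          ind (surv m k r (cd w)) * ind (surv m k r (cd w')) = Tot := by
        intro w' hw'
        have h5 := Finset.mem_erase.1 hw'
        exact surv_count2 m s (cd w) (cd w') (cd_nrm w) (cd_nrm w') (cd_ne w) (cd_ne w')
          (fun h => h5.1 (cd_inj h).symm) (by rw [cd_length]; exact hW w hw)
          (by rw [cd_length]; exact hW w' h5.2) k
      rw [Finset.sum_congr rfl e2, Finset.sum_const, nsmul_eq_mul, Finset.card_erase_of_mem hw]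
      have h6 : 1 ≤ W.card := Finset.card_pos.2 ⟨w, hw⟩
      push_cast [h6]
      rfl
    rw [Finset.sum_congr rfl e, Finset.sum_const, nsmul_eq_mul]
    ring
  have hk1' : 2 * N ≤ 2 ^ k := by rw [hN]; exact_mod_cast hk1
  have hk2' : (2 : ℤ) ^ k < 4 * N := by rw [hN]; exact_mod_cast hk2
  have h44 : (4 : ℤ) ^ k = 2 ^ k * 2 ^ k := by
    rw [← mul_pow]; norm_num
  set A : ℤ := 2 ^ k with hA
  have hA0 : 0 < A := by positivity
  have h5 : A * A * ((∑ r ∈ B, ∑ w ∈ W, ind (surv m k r (cd w))) -
      ∑ r ∈ B, ∑ w ∈ W, ∑ w' ∈ W.erase w, ind (surv m k r (cd w)) * ind (surv m k r (cd w'))) =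
      (A * N - N * (N - 1)) * Tot := by
    rw [h44] at h4
    have e1 : A * A * (∑ r ∈ B, ∑ w ∈ W, ind (surv m k r (cd w))) = A * (N * Tot) := by
      rw [← h3]; ring
    rw [mul_sub, h4, e1]
    ring
  have h6 : (A * N - N * (N - 1)) * Tot ≤ A * A * ∑ r ∈ B, ind (G r) := by
    rw [← h5]
    exact mul_le_mul_of_nonneg_left h2 (by positivity)
  have hN0 : 0 < N := by linarith
  have h7 : 3 * (A * A) ≤ 16 * (A * N - N * (N - 1)) := by nlinarith
  have h8 : (A * A) * (3 * Tot) ≤ (A * A) * (16 * ∑ r ∈ B, ind (G r)) := by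
    calc (A * A) * (3 * Tot) = (3 * (A * A)) * Tot := by ring
      _ ≤ (16 * (A * N - N * (N - 1))) * Tot := mul_le_mul_of_nonneg_right h7 hTot0.le
      _ = 16 * ((A * N - N * (N - 1)) * Tot) := by ring
      _ ≤ 16 * (A * A * ∑ r ∈ B, ind (G r)) := by linarith
      _ = _ := by ring
  exact le_of_mul_le_mul_left h8 (by positivity)

/-- at least one of the first `i` blocks of length `n` is accepted -/
def acc (G : List Bool → Bool) (n : ℕ) : ℕ → List Bool → Bool
  | 0, _ => false
  | i + 1, r => G (r.take n) || acc G n i (r.drop n)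

theorem acc_count (G : List Bool → Bool) (n i : ℕ) :
    ∑ r ∈ BL (i * n), ind (!acc G n i r) = (∑ r ∈ BL n, ind (!G r)) ^ i := by
  induction i with
  | zero =>
    rw [Nat.zero_mul, sum_BL_zero]
    simp [acc, ind]
  | succ i ih =>
    have e : (i + 1) * n = n + i * n := by ring
    rw [e, pow_succ, ← ih]
    have h1 : ∀ r ∈ BL (n + i * n), ind (!acc G n (i + 1) r) =
        ind (!G (r.take n)) * ind (!acc G n i (r.drop n)) := by
      intro r _
      rw [← ind_and, acc, Bool.not_or]
    rw [Finset.sum_congr rfl h1, sum_BL_add n (i * n) (fun a => ind (!G a))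
      (fun a => ind (!acc G n i a))]
    ring

theorem ind_not (b : Bool) : ind (!b) = 1 - ind b := by cases b <;> simp [ind]

/-- **Amplification**: four trials. -/
theorem amplify (G : List Bool → Bool) (n : ℕ)
    (h : 3 * 2 ^ n ≤ 16 * ∑ r ∈ BL n, ind (G r)) :
    (2 : ℤ) ^ (4 * n) ≤ 2 * ∑ r ∈ BL (4 * n), ind (acc G n 4 r) := by
  have h1 : 16 * ∑ r ∈ BL n, ind (!G r) ≤ 13 * 2 ^ n := by
    rw [Finset.sum_congr rfl (fun r _ => ind_not (G r)), Finset.sum_sub_distrib]
    have : ∑ r ∈ BL n, (1 : ℤ) = 2 ^ n := by rw [← card_BL]; simp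
    rw [this]
    linarith
  have h0 : 0 ≤ ∑ r ∈ BL n, ind (!G r) :=
    Finset.sum_nonneg fun r _ => by simp only [ind]; split_ifs <;> norm_num
  have h2 := pow_le_pow_left₀ (by linarith) h1 4
  have h3 := acc_count G n 4
  have h4 : ∑ r ∈ BL (4 * n), ind (!acc G n 4 r) =
      2 ^ (4 * n) - ∑ r ∈ BL (4 * n), ind (acc G n 4 r) := by
    rw [Finset.sum_congr rfl (fun r _ => ind_not (acc G n 4 r)), Finset.sum_sub_distrib]
    have : ∑ r ∈ BL (4 * n), (1 : ℤ) = 2 ^ (4 * n) := by rw [← card_BL]; simp
    rw [this]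
  rw [mul_pow, mul_pow, ← h3, h4, ← pow_mul, mul_comm n 4] at h2
  norm_num at h2
  have h5 : (0 : ℤ) < 2 ^ (4 * n) := by positivity
  linarith

end Pool.Agent.H579R2.Spt
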